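import Mathlib

/-!
PROJECT BP, block K, module K-18 (Alg): the final algebra.

PROOF. Let `par l = decide (Odd (d l))`. By h1 there are integers `j q c` with `D q n c = e q n c + j q c` for `n ≥ n0` (`j q c = D q n0 c - e q n0 c`, induction on `n`). By h2 `j false c + j true c = 0`; let `J c = j false c`, so
`j (par l) c = (-1)^(d l) J c`. Take `N ≥ n0 + max d + 1`. h3: `∑_l (e (par l) + (-1)^(d l) J (c - d l)) = ∑_l e (!par l)`. For `d l` even `e (par l) - e (!par l) = e false - e true`, for `d l` odd it is `-(e false - e true)`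
(all at `(N - d l, c - d l)`), so `∑_l (-1)^(d l) J (c - d l) = ∑_l (-1)^(d l) (e true - e false) = t c` where `t c = #{k | ε k = true, w k = c} - #{k | ε k = false, w k = c}` (h4).
Let `χ c = I^(c.val)` for `c : ZMod 4`: `χ (a + b) = χ a χ b`. Multiply by `χ c` and sum over `c`: the left side is `∑_l (-1)^(d l) χ(d l) ∑_c χ(c) J(c) = (∑_k choose m k (-I)^k) S = (1 - I)^m S`
(`add_pow`/`Finset.sum_fiberwise`; reindex `c ↦ c + d l`), `S = ∑_c χ(c) J(c) = (J 0 - J 2) + (J 1 - J 3) I`; the right side is `∑_k ± χ(w k)`.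
-/

set_option autoImplicit false

namespace Pool.Agent.Helper12.BP

private theorem chi_add (a b : ZMod 4) : Complex.I ^ (a + b).val = Complex.I ^ a.val * Complex.I ^ b.val := by
  rw [ZMod.val_add, ← Complex.I_pow_eq_pow_mod, pow_add]

private theorem chi_nat (n : ℕ) : Complex.I ^ ((n : ZMod 4)).val = Complex.I ^ n := by
  rw [ZMod.val_natCast, ← Complex.I_pow_eq_pow_mod]

private theorem sum_neg_I (m : ℕ) {Λ : Type} [Fintype Λ] (d : Λ → ℕ)
    (hd : ∀ k, (Finset.univ.filter fun l : Λ => d l = k).card = m.choose k) :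
    ∑ l : Λ, (-1 : ℂ) ^ d l * Complex.I ^ d l = (1 - Complex.I) ^ m := by
  have hle : ∀ l : Λ, d l ∈ Finset.range (m + 1) := by
    intro l
    rw [Finset.mem_range]
    by_contra hcon
    have h0 := hd (d l)
    rw [Nat.choose_eq_zero_of_lt (by omega), Finset.card_eq_zero] at h0
    have : l ∈ Finset.univ.filter fun l' : Λ => d l' = d l := by simp
    rw [h0] at this
    simp at this
  rw [← Finset.sum_fiberwise_of_maps_to (s := Finset.univ) (t := Finset.range (m + 1)) (g := d) (fun l _ => hle l)]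
  have e1 : (1 - Complex.I) ^ m = (-Complex.I + 1) ^ m := by ring
  rw [e1, add_pow]
  apply Finset.sum_congr rfl
  intro k _
  have e2 : ∀ l ∈ Finset.univ.filter (fun l : Λ => d l = k), (-1 : ℂ) ^ d l * Complex.I ^ d l = (-Complex.I) ^ k := by
    intro l hl
    rw [Finset.mem_filter] at hl
    rw [hl.2, ← mul_pow]
    ring
  rw [Finset.sum_congr rfl e2, Finset.sum_const, hd k, nsmul_eq_mul]
  ring

theorem fin_alg (m : ℕ) {ι Λ : Type} [Fintype ι] [Fintype Λ] (ε : ι → Bool) (w : ι → ZMod 4) (d : Λ → ℕ)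
    (hd : ∀ k, (Finset.univ.filter fun l : Λ => d l = k).card = m.choose k)
    (D e : Bool → ℕ → ZMod 4 → ℤ) (n0 : ℕ)
    (h1 : ∀ q n c, n0 ≤ n → D q (n + 1) c - D q n c = e q (n + 1) c - e q n c)
    (h2 : ∀ n c, n0 ≤ n → D false n c + D true n c = e false n c + e true n c)
    (h3 : ∀ N c, n0 ≤ N → ∑ l : Λ, D (decide (Odd (d l))) (N - d l) (c - (d l : ℕ)) =
      ∑ l : Λ, e (!decide (Odd (d l))) (N - d l) (c - (d l : ℕ)))
    (h4 : ∀ q N c, 0 < N → ∑ l : Λ, (-1 : ℤ) ^ d l * e q (N - d l) (c - (d l : ℕ)) =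
      ((Finset.univ.filter fun k : ι => ε k = q ∧ w k = c).card : ℤ)) :
    ∃ a b : ℤ, ∑ k : ι, (if ε k then (1 : ℂ) else -1) * Complex.I ^ (w k).val = (1 - Complex.I) ^ m * ((a : ℂ) + b * Complex.I) := by
  classical
  have hD : ∀ q n c, n0 ≤ n → D q n c = e q n c + (D q n0 c - e q n0 c) := by
    intro q n c hn
    induction n, hn using Nat.le_induction with
    | base => ring
    | succ n hn ih =>
      have := h1 q n c hn
      linarith
  set J : ZMod 4 → ℤ := fun c => D false n0 c - e false n0 c with hJ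
  have hj : ∀ (k : ℕ) (c : ZMod 4), D (decide (Odd k)) n0 c - e (decide (Odd k)) n0 c = (-1) ^ k * J c := by
    intro k c
    by_cases hk : Odd k
    · have h := h2 n0 c le_rfl
      simp only [hk, decide_true, hJ, hk.neg_one_pow]
      linarith
    · have hk' : Even k := Nat.not_odd_iff_even.mp hk
      simp only [hk, decide_false, hJ, hk'.neg_one_pow]
      ring
  have he : ∀ (k n : ℕ) (c : ZMod 4), e (!decide (Odd k)) n c - e (decide (Odd k)) n c =
      (-1) ^ k * e true n c - (-1) ^ k * e false n c := by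
    intro k n c
    by_cases hk : Odd k
    · simp only [hk, decide_true, Bool.not_true, hk.neg_one_pow]
      ring
    · have hk' : Even k := Nat.not_odd_iff_even.mp hk
      simp only [hk, decide_false, Bool.not_false, hk'.neg_one_pow]
      ring
  set N : ℕ := n0 + (∑ l : Λ, d l) + 1 with hN
  have hNl : ∀ l : Λ, n0 ≤ N - d l := by
    intro l
    have : d l ≤ ∑ l : Λ, d l := Finset.single_le_sum (fun i _ => Nat.zero_le (d i)) (Finset.mem_univ l)
    omega
  have key : ∀ c : ZMod 4, ∑ l : Λ, (-1 : ℤ) ^ d l * J (c - (d l : ℕ)) =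
      ((Finset.univ.filter fun k : ι => ε k = true ∧ w k = c).card : ℤ) -
      ((Finset.univ.filter fun k : ι => ε k = false ∧ w k = c).card : ℤ) := by
    intro c
    rw [← h4 true N c (by omega), ← h4 false N c (by omega), ← Finset.sum_sub_distrib]
    have h := h3 N c (by omega)
    have h' : ∑ l : Λ, (e (decide (Odd (d l))) (N - d l) (c - (d l : ℕ)) + (-1) ^ d l * J (c - (d l : ℕ))) =
        ∑ l : Λ, e (!decide (Odd (d l))) (N - d l) (c - (d l : ℕ)) := by
      rw [← h]
      apply Finset.sum_congr rfl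
      intro l _
      rw [hD _ _ _ (hNl l), hj]
    rw [Finset.sum_add_distrib] at h'
    have h5 : ∑ l : Λ, ((-1 : ℤ) ^ d l * e true (N - d l) (c - (d l : ℕ)) - (-1 : ℤ) ^ d l * e false (N - d l) (c - (d l : ℕ))) =
        ∑ l : Λ, (e (!decide (Odd (d l))) (N - d l) (c - (d l : ℕ)) - e (decide (Odd (d l))) (N - d l) (c - (d l : ℕ))) := by
      apply Finset.sum_congr rfl
      intro l _
      rw [he]
    rw [h5, Finset.sum_sub_distrib]
    linarith
  refine ⟨J 0 - J 2, J 1 - J 3, ?_⟩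
  have hS : ∑ c : ZMod 4, Complex.I ^ c.val * (J c : ℂ) = ((J 0 - J 2 : ℤ) : ℂ) + ((J 1 - J 3 : ℤ) : ℂ) * Complex.I := by
    have : ∑ c : ZMod 4, Complex.I ^ c.val * (J c : ℂ) = Complex.I ^ 0 * (J 0 : ℂ) + Complex.I ^ 1 * (J 1 : ℂ) +
        Complex.I ^ 2 * (J 2 : ℂ) + Complex.I ^ 3 * (J 3 : ℂ) := Fin.sum_univ_four (fun c : Fin 4 => Complex.I ^ (ZMod.val (n := 4) c) * (J c : ℂ))
    rw [this]
    push_cast
    rw [Complex.I_sq, Complex.I_pow_three]
    ring
  rw [← hS, ← sum_neg_I m d hd]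
  have hL : ∑ c : ZMod 4, Complex.I ^ c.val * ((∑ l : Λ, (-1 : ℤ) ^ d l * J (c - (d l : ℕ)) : ℤ) : ℂ) =
      (∑ l : Λ, (-1 : ℂ) ^ d l * Complex.I ^ d l) * ∑ c : ZMod 4, Complex.I ^ c.val * (J c : ℂ) := by
    push_cast
    rw [Finset.sum_mul]
    simp only [Finset.mul_sum]
    rw [Finset.sum_comm]
    apply Finset.sum_congr rfl
    intro l _
    rw [← Equiv.sum_comp (Equiv.addRight ((d l : ℕ) : ZMod 4))]
    apply Finset.sum_congr rfl
    intro c _
    simp only [Equiv.coe_addRight, add_sub_cancel_right]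
    rw [chi_add, chi_nat]
    ring
  rw [← hL]
  have hR : ∀ c : ZMod 4, ((∑ l : Λ, (-1 : ℤ) ^ d l * J (c - (d l : ℕ)) : ℤ) : ℂ) =
      ∑ k : ι, if w k = c then (if ε k then (1 : ℂ) else -1) else 0 := by
    intro c
    rw [key c, Finset.card_filter, Finset.card_filter]
    push_cast
    rw [← Finset.sum_sub_distrib]
    apply Finset.sum_congr rfl
    intro k _
    by_cases h1 : w k = c <;> cases h2 : ε k <;> simp [h1]
  simp only [hR, Finset.mul_sum]
  rw [Finset.sum_comm]
  apply Finset.sum_congr rfl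
  intro k _
  simp only [mul_ite, mul_zero]
  rw [Finset.sum_ite_eq]
  simp only [Finset.mem_univ, if_true]
  split_ifs <;> ring

theorem fin_div (m p : ℕ) (c S a b : ℤ) (hc : Odd c) (hS : S = 2 ^ p * c ∨ S = - (2 ^ p * c))
    (h : (S : ℂ) = (1 - Complex.I) ^ m * ((a : ℂ) + b * Complex.I)) : m ≤ 2 * p := by
  have h1 := congrArg Complex.normSq h
  rw [map_mul, map_pow] at h1
  have e1 : Complex.normSq (1 - Complex.I) = 2 := by
    rw [Complex.normSq_apply]
    norm_num
  have e2 : Complex.normSq ((a : ℂ) + b * Complex.I) = (a : ℝ) ^ 2 + (b : ℝ) ^ 2 := by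
    rw [Complex.normSq_apply]
    simp
    ring
  have e3 : Complex.normSq (S : ℂ) = (S : ℝ) ^ 2 := by
    rw [Complex.normSq_apply]
    simp
    ring
  rw [e1, e2, e3] at h1
  have h2 : S ^ 2 = 2 ^ m * (a ^ 2 + b ^ 2) := by exact_mod_cast h1
  have h3 : S ^ 2 = 2 ^ (2 * p) * c ^ 2 := by
    rcases hS with hS | hS <;> rw [hS] <;> ring
  have h4 : (2 : ℤ) ^ m ∣ 2 ^ (2 * p) * c ^ 2 := by
    rw [← h3, h2]
    exact dvd_mul_right _ _
  have h5 : IsCoprime ((2 : ℤ) ^ m) (c ^ 2) := by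
    apply IsCoprime.pow
    obtain ⟨k, hk⟩ := hc
    exact ⟨-k, 1, by rw [hk]; ring⟩
  have h6 : (2 : ℤ) ^ m ∣ 2 ^ (2 * p) := h5.dvd_of_dvd_mul_right h4
  by_contra hcon
  push Not at hcon
  have h7 := Int.le_of_dvd (by positivity) h6
  have h8 : (2 : ℤ) ^ (2 * p) < 2 ^ m := pow_lt_pow_right₀ (by norm_num) hcon
  linarith

end Pool.Agent.Helper12.BP
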