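import Pool.Agent.Helper12.BP.Defs

/-!
PROJECT BP, block K: the classes and the numbers of the final count (definitions).
-/

set_option autoImplicit false

namespace Pool.Agent.Helper12.BP

/-- Basis elements of parity `q` and class `c` (`deg + w = c` modulo 4). -/
def SA {m : ℕ} {ι : Type} (ε : ι → Bool) (w : ι → ZMod 4) (q : Bool) (c : ZMod 4) : Set (Hx m ι) :=
  {i | ε i.2 = q ∧ ((deg i.1 : ℕ) : ZMod 4) + w i.2 = c}

/-- The number of basis elements of parity `q`, class `c` and degree `< n`. -/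
noncomputable def ee (m : ℕ) {ι : Type} (ε : ι → Bool) (w : ι → ZMod 4) (q : Bool) (n : ℕ) (c : ZMod 4) : ℕ :=
  {i : Hx m ι | i ∈ SA ε w q c ∧ deg i.1 < n}.ncard

/-- The dimension of the cokernel of `T` on the part of parity `q`, class `c` and degree `≥ n`. -/
noncomputable def DD {m : ℕ} {ι : Type} (T : l2 (Hx m ι) →L[ℂ] l2 (Hx m ι)) (ε : ι → Bool) (w : ι → ZMod 4) (q : Bool)
    (n : ℕ) (c : ZMod 4) : ℕ :=
  Module.finrank ℂ (VV T (SA ε w (!q) c) {i | i ∈ SA ε w q c ∧ n ≤ deg i.1})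

end Pool.Agent.Helper12.BP
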