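import Pool.Agent.Helper12.BP.Cls

/-!
PROJECT BP, block K, module K-17 (Cnt): counting monomials.

PROOF. `deg_finite`: `deg α < N` gives `α j < N` for all `j` (`Finset.single_le_sum`); `Fintype.piFinset`/`Set.Finite.pi`, product with the finite `ι`.
`cnt`: let `h t` = number of `α : Fin m → ℕ` with `deg α = t` (finite). (a) `ee q n c = ∑_(k, ε k = q) ∑_(t < n, t = c - w k mod 4) h t`.
(b) for all `s`: `∑_(l : Λ, d l ≤ s) (-1)^(d l) h (s - d l) = [s = 0]`: the left side is `∑_(j ≤ s) (-1)^j choose m j * h (s - j)`, the coefficient of `X^s` in `(1 - X)^m * H_m`, `H_m = ∑ h(t) X^t`;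
    by induction on `m` (`Fin.consEquiv`/`Fin.cons`): `H_m = (∑ X^t)^m`, i.e. `(1 - X) H_(m+1) = H_m` in `PowerSeries ℤ`, `H_0 = 1`. So `(1 - X)^m H_m = 1`.
(c) for fixed `k`, `u = c - w k`: `∑_l (-1)^(d l) ∑_(t < N - d l, t = u - d l) h t = ∑_l (-1)^(d l) ∑_(s < N, s ≥ d l, s = u) h (s - d l) = ∑_(s < N, s = u) [s = 0] = [u = 0]` since `N > 0`.
-/

set_option autoImplicit false

namespace Pool.Agent.Helper12.BP

theorem deg_finite {m : ℕ} {ι : Type} [Fintype ι] (N : ℕ) : {i : Hx m ι | deg i.1 < N}.Finite := by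
  have h1 : (Set.pi Set.univ (fun _ : Fin m => Set.Iio N)).Finite :=
    Set.Finite.pi' (fun _ => Set.finite_Iio N) |>.subset (by intro x hx; simpa using hx)
  have h2 : ((Set.pi Set.univ (fun _ : Fin m => Set.Iio N)) ×ˢ (Set.univ : Set ι)).Finite :=
    h1.prod (Set.toFinite _)
  refine h2.subset ?_
  rintro ⟨α, k⟩ hi
  refine ⟨?_, Set.mem_univ _⟩
  intro j _
  have h3 : α j ≤ deg α := Finset.single_le_sum (fun _ _ => Nat.zero_le _) (Finset.mem_univ j)
  exact lt_of_le_of_lt h3 hi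

/-- The number of monomials of degree `t`. -/
private noncomputable def hh (m t : ℕ) : ℤ := ((Finset.Nat.antidiagonalTuple m t).card : ℤ)

private theorem hh_zero (t : ℕ) : hh 0 t = if t = 0 then 1 else 0 := by
  unfold hh
  rcases t with _ | t
  · simp
  · simp

private theorem hh_succ (m t : ℕ) : hh (m + 1) t = ∑ ab ∈ Finset.HasAntidiagonal.antidiagonal t, hh m ab.2 := by
  classical
  unfold hh
  rw [← Nat.cast_sum]
  congr 1
  rw [← Finset.card_sigma]
  refine Finset.card_bij' (i := fun (x : Fin (m + 1) → ℕ) _ =>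
      (⟨(x 0, ∑ j : Fin m, x j.succ), Fin.tail x⟩ : (_ : ℕ × ℕ) × (Fin m → ℕ)))
    (j := fun (y : (_ : ℕ × ℕ) × (Fin m → ℕ)) _ => (Fin.cons y.1.1 y.2 : Fin (m + 1) → ℕ)) ?_ ?_ ?_ ?_
  · intro x hx
    rw [Finset.Nat.mem_antidiagonalTuple] at hx
    rw [Finset.mem_sigma]
    refine ⟨?_, ?_⟩
    · rw [Finset.HasAntidiagonal.mem_antidiagonal]
      rw [← hx, Fin.sum_univ_succ]
    · rw [Finset.Nat.mem_antidiagonalTuple]
      rfl
  · rintro ⟨⟨a, b⟩, y⟩ hy
    rw [Finset.mem_sigma, Finset.HasAntidiagonal.mem_antidiagonal, Finset.Nat.mem_antidiagonalTuple] at hy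
    rw [Finset.Nat.mem_antidiagonalTuple, Fin.sum_univ_succ]
    simp only [Fin.cons_zero, Fin.cons_succ]
    rw [hy.2]
    exact hy.1
  · intro x hx
    exact Fin.cons_self_tail x
  · rintro ⟨⟨a, b⟩, y⟩ hy
    rw [Finset.mem_sigma, Finset.HasAntidiagonal.mem_antidiagonal, Finset.Nat.mem_antidiagonalTuple] at hy
    have h2 : ∑ j : Fin m, y j = b := hy.2
    simp only [Fin.cons_zero, Fin.cons_succ, Fin.tail_cons, h2]

private theorem HH_succ (m : ℕ) :
    (PowerSeries.mk (hh (m + 1)) : PowerSeries ℤ) = PowerSeries.mk 1 * PowerSeries.mk (hh m) := by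
  ext t
  rw [PowerSeries.coeff_mul, PowerSeries.coeff_mk, hh_succ]
  refine Finset.sum_congr rfl fun ab _ => ?_
  rw [PowerSeries.coeff_mk, PowerSeries.coeff_mk, Pi.one_apply, one_mul]

private theorem one_sub_pow_mul (m : ℕ) :
    ((1 : PowerSeries ℤ) + -PowerSeries.X) ^ m * PowerSeries.mk (hh m) = 1 := by
  induction m with
  | zero =>
    rw [pow_zero, one_mul]
    ext t
    rw [PowerSeries.coeff_mk, hh_zero, PowerSeries.coeff_one]
  | succ m ih =>
    rw [HH_succ, pow_succ]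
    have h1 : (PowerSeries.mk 1 : PowerSeries ℤ) * (1 - PowerSeries.X) = 1 :=
      PowerSeries.mk_one_mul_one_sub_eq_one ℤ
    have h2 : ((1 : PowerSeries ℤ) + -PowerSeries.X) ^ m * (1 + -PowerSeries.X) *
        (PowerSeries.mk 1 * PowerSeries.mk (hh m)) =
        (((1 : PowerSeries ℤ) + -PowerSeries.X) ^ m * PowerSeries.mk (hh m)) *
          ((PowerSeries.mk 1 : PowerSeries ℤ) * (1 - PowerSeries.X)) := by ring
    rw [h2, ih, h1, one_mul]

private theorem sum_lam {m : ℕ} {Λ : Type} [Fintype Λ] (d : Λ → ℕ)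
    (hd : ∀ k, (Finset.univ.filter fun l : Λ => d l = k).card = m.choose k) (s : ℕ) :
    ∑ l : Λ, (-1 : ℤ) ^ d l * (if d l ≤ s then hh m (s - d l) else 0) = if s = 0 then 1 else 0 := by
  classical
  have hle : ∀ l : Λ, d l ≤ m := by
    intro l
    by_contra hlt
    push Not at hlt
    have h1 := hd (d l)
    rw [Nat.choose_eq_zero_of_lt hlt, Finset.card_eq_zero] at h1
    have h2 : l ∈ Finset.univ.filter fun l' : Λ => d l' = d l := by simp
    rw [h1] at h2
    simp at h2
  have hP : ∑ l : Λ, (-(PowerSeries.X : PowerSeries ℤ)) ^ d l = (1 + -PowerSeries.X) ^ m := by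
    rw [add_comm (1 : PowerSeries ℤ), add_pow]
    have h3 : ∑ l : Λ, (-(PowerSeries.X : PowerSeries ℤ)) ^ d l =
        ∑ k ∈ Finset.range (m + 1), ∑ l ∈ Finset.univ.filter (fun l : Λ => d l = k),
          (-(PowerSeries.X : PowerSeries ℤ)) ^ d l := by
      rw [Finset.sum_fiberwise_of_maps_to]
      intro l _
      rw [Finset.mem_range]
      exact Nat.lt_succ_of_le (hle l)
    rw [h3]
    refine Finset.sum_congr rfl fun k _ => ?_
    rw [Finset.sum_congr rfl (g := fun _ => (-(PowerSeries.X : PowerSeries ℤ)) ^ k)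
      (fun l hl => by rw [(Finset.mem_filter.mp hl).2]), Finset.sum_const, hd k, one_pow, mul_one,
      nsmul_eq_mul, mul_comm]
  have hQ := one_sub_pow_mul m
  rw [← hP, Finset.sum_mul] at hQ
  have hR := congrArg (fun F => PowerSeries.coeff s F) hQ
  simp only [map_sum] at hR
  rw [PowerSeries.coeff_one] at hR
  rw [← hR]
  refine Finset.sum_congr rfl fun l _ => ?_
  have h4 : (-(PowerSeries.X : PowerSeries ℤ)) ^ d l * PowerSeries.mk (hh m) =
      PowerSeries.C ((-1 : ℤ) ^ d l) * (PowerSeries.X ^ d l * PowerSeries.mk (hh m)) := by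
    rw [neg_pow, map_pow, map_neg, map_one, mul_assoc]
  rw [h4, PowerSeries.coeff_C_mul, PowerSeries.coeff_X_pow_mul']
  split_ifs with h5
  · rw [PowerSeries.coeff_mk]
  · rfl

private theorem ee_eq {m : ℕ} {ι : Type} [Fintype ι] (ε : ι → Bool) (w : ι → ZMod 4) (q : Bool)
    (n : ℕ) (c : ZMod 4) :
    (ee m ε w q n c : ℤ) = ∑ k ∈ Finset.univ.filter (fun k : ι => ε k = q),
      ∑ t ∈ Finset.range n, if (t : ZMod 4) + w k = c then hh m t else 0 := by
  classical
  set S : Finset ((_ : ι) × (_ : ℕ) × (Fin m → ℕ)) :=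
    (Finset.univ.filter (fun k : ι => ε k = q)).sigma (fun k =>
      ((Finset.range n).filter (fun t : ℕ => (t : ZMod 4) + w k = c)).sigma
        (fun t => Finset.Nat.antidiagonalTuple m t)) with hS
  have hset : {i : Hx m ι | i ∈ SA ε w q c ∧ deg i.1 < n} =
      (fun x : (_ : ι) × (_ : ℕ) × (Fin m → ℕ) => ((x.2.2, x.1) : Hx m ι)) '' (S : Set _) := by
    ext ⟨α, k⟩
    constructor
    · rintro ⟨⟨h1, h2⟩, h3⟩
      refine ⟨⟨k, ⟨deg α, α⟩⟩, ?_, rfl⟩
      rw [hS, Finset.mem_coe, Finset.mem_sigma]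
      refine ⟨Finset.mem_filter.mpr ⟨Finset.mem_univ _, h1⟩, ?_⟩
      rw [Finset.mem_sigma]
      refine ⟨Finset.mem_filter.mpr ⟨Finset.mem_range.mpr h3, h2⟩, ?_⟩
      rw [Finset.Nat.mem_antidiagonalTuple]
      rfl
    · rintro ⟨⟨k', ⟨t, α'⟩⟩, hx, heq⟩
      rw [Prod.mk.injEq] at heq
      obtain ⟨h1, h2⟩ := heq
      simp only at h1 h2
      subst h1
      subst h2
      rw [hS, Finset.mem_coe, Finset.mem_sigma] at hx
      obtain ⟨hk, hx⟩ := hx
      rw [Finset.mem_sigma] at hx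
      obtain ⟨ht, hx⟩ := hx
      rw [Finset.Nat.mem_antidiagonalTuple] at hx
      rw [Finset.mem_filter] at hk ht
      have hdeg : deg α' = t := hx
      refine ⟨⟨hk.2, ?_⟩, ?_⟩
      · change ((deg α' : ℕ) : ZMod 4) + w k' = c
        rw [hdeg]
        exact ht.2
      · change deg α' < n
        rw [hdeg]
        exact Finset.mem_range.mp ht.1
  have hinj : Set.InjOn (fun x : (_ : ι) × (_ : ℕ) × (Fin m → ℕ) => ((x.2.2, x.1) : Hx m ι))
      (S : Set _) := by
    rintro ⟨k, ⟨t, α⟩⟩ hx ⟨k', ⟨t', α'⟩⟩ hx' heq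
    rw [Prod.mk.injEq] at heq
    obtain ⟨h1, h2⟩ := heq
    simp only at h1 h2
    subst h1
    subst h2
    rw [hS, Finset.mem_coe, Finset.mem_sigma, Finset.mem_sigma, Finset.Nat.mem_antidiagonalTuple]
      at hx hx'
    have h3 : t = t' := hx.2.2.symm.trans hx'.2.2
    subst h3
    rfl
  unfold ee
  rw [hset, hinj.ncard_image, Set.ncard_coe_finset, hS, Finset.card_sigma, Nat.cast_sum]
  refine Finset.sum_congr rfl fun k _ => ?_
  rw [Finset.card_sigma, Nat.cast_sum, Finset.sum_filter]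
  rfl

private theorem shift_sum (f : ℕ → ℤ) (N d : ℕ) :
    ∑ t ∈ Finset.range (N - d), f (d + t) = ∑ s ∈ Finset.range N, if d ≤ s then f s else 0 := by
  rw [← Finset.sum_filter, ← Finset.sum_Ico_eq_sum_range]
  refine Finset.sum_congr ?_ fun _ _ => rfl
  ext s
  rw [Finset.mem_Ico, Finset.mem_filter, Finset.mem_range]
  tauto

theorem cnt {m : ℕ} {ι Λ : Type} [Fintype ι] [Fintype Λ] (ε : ι → Bool) (w : ι → ZMod 4) (d : Λ → ℕ)
    (hd : ∀ k, (Finset.univ.filter fun l : Λ => d l = k).card = m.choose k) (q : Bool) (N : ℕ) (hN : 0 < N) (c : ZMod 4) :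
    ∑ l : Λ, (-1 : ℤ) ^ d l * (ee m ε w q (N - d l) (c - (d l : ℕ)) : ℤ) =
      ((Finset.univ.filter fun k : ι => ε k = q ∧ w k = c).card : ℤ) := by
  classical
  have h1 : ∀ l : Λ, (-1 : ℤ) ^ d l * (ee m ε w q (N - d l) (c - (d l : ℕ)) : ℤ) =
      ∑ k ∈ Finset.univ.filter (fun k : ι => ε k = q), ∑ s ∈ Finset.range N,
        (if (s : ZMod 4) + w k = c then
          ((-1 : ℤ) ^ d l * (if d l ≤ s then hh m (s - d l) else 0)) else 0) := by
    intro l
    rw [ee_eq, Finset.mul_sum]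
    refine Finset.sum_congr rfl fun k _ => ?_
    have h2 := shift_sum (fun s : ℕ => if (s : ZMod 4) + w k = c then hh m (s - d l) else 0) N (d l)
    have h3 : ∑ t ∈ Finset.range (N - d l),
        (if (t : ZMod 4) + w k = c - ((d l : ℕ) : ZMod 4) then hh m t else 0) =
        ∑ t ∈ Finset.range (N - d l),
        (fun s : ℕ => if (s : ZMod 4) + w k = c then hh m (s - d l) else 0) (d l + t) := by
      refine Finset.sum_congr rfl fun t _ => ?_
      have h4 : ((t : ZMod 4) + w k = c - ((d l : ℕ) : ZMod 4)) ↔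
          (((d l + t : ℕ) : ZMod 4) + w k = c) := by
        rw [eq_sub_iff_add_eq, Nat.cast_add]
        constructor
        · intro h; rw [← h]; ring
        · intro h; rw [← h]; ring
      simp only [h4, Nat.add_sub_cancel_left]
    rw [h3, h2, Finset.mul_sum]
    refine Finset.sum_congr rfl fun s _ => ?_
    split_ifs <;> simp
  rw [Finset.sum_congr rfl (fun l _ => h1 l), Finset.sum_comm]
  have h5 : ∀ k : ι, ∑ l : Λ, ∑ s ∈ Finset.range N,
        (if (s : ZMod 4) + w k = c then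
          ((-1 : ℤ) ^ d l * (if d l ≤ s then hh m (s - d l) else 0)) else 0) =
        if w k = c then 1 else 0 := by
    intro k
    rw [Finset.sum_comm]
    have h6 : ∀ s ∈ Finset.range N, ∑ l : Λ, (if (s : ZMod 4) + w k = c then
          ((-1 : ℤ) ^ d l * (if d l ≤ s then hh m (s - d l) else 0)) else 0) =
          if s = 0 then (if w k = c then 1 else 0) else 0 := by
      intro s _
      by_cases h7 : (s : ZMod 4) + w k = c
      · simp only [if_pos h7]
        rw [sum_lam d hd s]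
        by_cases h8 : s = 0
        · subst h8
          rw [Nat.cast_zero, zero_add] at h7
          simp [h7]
        · simp [h8]
      · simp only [if_neg h7, Finset.sum_const_zero]
        by_cases h8 : s = 0
        · subst h8
          rw [Nat.cast_zero, zero_add] at h7
          simp [h7]
        · simp [h8]
    rw [Finset.sum_congr rfl h6, Finset.sum_ite_eq' (Finset.range N) 0, if_pos (Finset.mem_range.mpr hN)]
  rw [Finset.sum_congr rfl (fun k _ => h5 k), ← Finset.sum_filter, Finset.sum_const, nsmul_eq_mul,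
    mul_one, Finset.filter_filter]

end Pool.Agent.Helper12.BP
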