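import Pool.Agent.Helper12.BP.L2

/-!
PROJECT BP, block K, module K-12 (Cut): dependence of `dim VV` on the cut off.

PROOF. One index first: `i0 ∈ A0 \ D`, `i0 ∉ L`. The functional `φ : VV T A1 D → ℂ`, `v ↦ (T v)_(i0)` has kernel (isomorphic to) `VV T A1 (insert i0 D)`; it is nonzero:
`R = T(l²(D))` is closed (`T` is bounded below on `l²(D)`), `T e_(i0) ∉ R` (else `x = e_(i0) - u`, `u` supported in `D`, has `T x = 0` and vanishes on `L`, so `x = 0`, but its coordinate at `i0` is 1).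
Let `q ≠ 0` be the component of `T e_(i0)` orthogonal to `R`: it is supported in `A1` (both `T e_(i0)` and `R` are), `inner (T q) u = inner q (T u) = 0` for `u` supported in `D`, so `q ∈ VV T A1 D`, and
`(T q)_(i0) = inner e_(i0) (T q) = inner (T e_(i0)) q = ‖q‖² ≠ 0`. Rank-nullity: `finrank (VV T A1 D) = finrank (VV T A1 (insert i0 D)) + 1`.
Then induction on the finite set `F`. (Finite dimension goes down to submodules.)
-/

set_option autoImplicit false

namespace Pool.Agent.Helper12.BP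

variable {I : Type} [DecidableEq I]

private lemma cut_coord (i : I) (x : l2 I) : inner ℂ (lp.single 2 i (1 : ℂ)) x = x i := by
  rw [lp.inner_single_left]
  simp

private lemma cut_exists_q (T : l2 I →L[ℂ] l2 I) (sa : ∀ x y, inner ℂ (T x) y = inner ℂ x (T y)) (A0 A1 D L : Set I)
    (i0 : I) (hD : D ⊆ A0) (hi0 : i0 ∈ A0) (hiD : i0 ∉ D) (hDL : ∀ i ∈ D, i ∉ L) (hiL : i0 ∉ L)
    (m0 : ∀ x : l2 I, (∀ i, i ∉ A0 → x i = 0) → ∀ i, i ∉ A1 → T x i = 0)
    (c : ℝ) (hc : 0 < c) (low : ∀ x : l2 I, (∀ i ∈ L, x i = 0) → c * ‖x‖ ≤ ‖T x‖) :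
    ∃ q : l2 I, q ∈ VV T A1 D ∧ T q i0 ≠ 0 := by
  -- the space of vectors supported in `D`
  let W : Submodule ℂ (l2 I) := Submodule.span ℂ ((fun i => lp.single 2 i (1 : ℂ)) '' {i | i ∉ D})
  let K : Submodule ℂ (l2 I) := Wᗮ
  have hK : ∀ x : l2 I, x ∈ K ↔ ∀ i, i ∉ D → x i = 0 := by
    intro x
    constructor
    · intro hx i hi
      have h1 : (lp.single 2 i (1 : ℂ) : l2 I) ∈ W := Submodule.subset_span ⟨i, hi, rfl⟩
      have h2 := (Submodule.mem_orthogonal W x).1 hx _ h1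
      rwa [cut_coord] at h2
    · intro hx
      refine (Submodule.mem_orthogonal W x).2 fun u hu => ?_
      refine Submodule.span_induction (p := fun u _ => inner ℂ u x = 0) ?_ ?_ ?_ ?_ hu
      · rintro _ ⟨i, hi, rfl⟩
        show inner ℂ (lp.single 2 i (1 : ℂ)) x = 0
        rw [cut_coord]
        exact hx i hi
      · exact inner_zero_left _
      · intro a b _ _ ha hb
        rw [inner_add_left, ha, hb, add_zero]
      · intro a b _ hb
        rw [inner_smul_left, hb, mul_zero]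
  have hcK : CompleteSpace K := inferInstance
  let TK : K →L[ℂ] l2 I := T.comp K.subtypeL
  have hanti : AntilipschitzWith (Real.toNNReal c⁻¹) TK := by
    refine ContinuousLinearMap.antilipschitz_of_bound TK fun x => ?_
    have h1 : c * ‖(x : l2 I)‖ ≤ ‖T (x : l2 I)‖ := low _ fun i hi => (hK _).1 x.2 i fun h => hDL i h hi
    have h2 : (Real.toNNReal c⁻¹ : ℝ) = c⁻¹ := Real.coe_toNNReal _ (by positivity)
    rw [h2]
    show ‖(x : l2 I)‖ ≤ c⁻¹ * ‖T (x : l2 I)‖
    rw [inv_mul_eq_div, le_div_iff₀ hc]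
    linarith [mul_comm c ‖(x : l2 I)‖]
  have hclosed : IsClosed (Set.range TK) := hanti.isClosed_range TK.uniformContinuous
  let S : Submodule ℂ (l2 I) := LinearMap.range (TK : K →ₗ[ℂ] l2 I)
  have hSmem : ∀ y : l2 I, y ∈ S ↔ ∃ u : l2 I, u ∈ K ∧ T u = y := by
    intro y
    constructor
    · rintro ⟨u, hu⟩
      exact ⟨u, u.2, hu⟩
    · rintro ⟨u, hu, h⟩
      exact ⟨⟨u, hu⟩, h⟩
  have hSc : IsClosed (S : Set (l2 I)) := by
    have : (S : Set (l2 I)) = Set.range TK := by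
      ext y
      rw [SetLike.mem_coe, hSmem]
      constructor
      · rintro ⟨u, hu, h⟩
        exact ⟨⟨u, hu⟩, h⟩
      · rintro ⟨u, hu⟩
        exact ⟨u, u.2, hu⟩
    rw [this]
    exact hclosed
  have hScomp : CompleteSpace S := hSc.completeSpace_coe
  obtain ⟨y, hy, q, hq, hyq⟩ := S.exists_add_mem_mem_orthogonal (T (lp.single 2 i0 (1 : ℂ)))
  have he0 : ∀ i, i ∉ A0 → (lp.single 2 i0 (1 : ℂ) : l2 I) i = 0 := by
    intro i hi
    rw [lp.single_apply_ne]
    rintro rfl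
    exact hi hi0
  obtain ⟨u, huK, huy⟩ := (hSmem y).1 hy
  have hq0 : q ≠ 0 := by
    rintro rfl
    rw [add_zero] at hyq
    have hx := low (lp.single 2 i0 (1 : ℂ) - u) (fun i hi => by
      have h1 : (lp.single 2 i0 (1 : ℂ) : l2 I) i = 0 := by
        rw [lp.single_apply_ne]
        rintro rfl
        exact hiL hi
      have h2 : u i = 0 := (hK u).1 huK i fun h => hDL i h hi
      show (lp.single 2 i0 (1 : ℂ) : l2 I) i - u i = 0
      rw [h1, h2, sub_zero])
    rw [map_sub, huy, hyq, sub_self, norm_zero] at hx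
    have h3 : ‖(lp.single 2 i0 (1 : ℂ) - u : l2 I)‖ = 0 := by
      have := norm_nonneg (lp.single 2 i0 (1 : ℂ) - u : l2 I)
      nlinarith
    rw [norm_eq_zero, sub_eq_zero] at h3
    have h4 : u i0 = 0 := (hK u).1 huK i0 hiD
    rw [← h3, lp.single_apply_self] at h4
    exact one_ne_zero h4
  have hqsupp : ∀ i, i ∉ A1 → q i = 0 := by
    intro i hi
    have h1 : T (lp.single 2 i0 (1 : ℂ)) i = 0 := m0 _ he0 i hi
    have h2 : y i = 0 := by
      rw [← huy]
      exact m0 u (fun j hj => (hK u).1 huK j fun h => hj (hD h)) i hi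
    have h3 : T (lp.single 2 i0 (1 : ℂ)) i = y i + q i := by rw [hyq]; rfl
    rw [h1, h2, zero_add] at h3
    exact h3.symm
  have hqS : ∀ w ∈ S, inner ℂ w q = 0 := fun w hw => (Submodule.mem_orthogonal S q).1 hq w hw
  refine ⟨q, ⟨hqsupp, fun i hi => ?_⟩, ?_⟩
  · rw [← cut_coord i (T q), ← sa]
    refine hqS _ ((hSmem _).2 ⟨lp.single 2 i (1 : ℂ), (hK _).2 fun j hj => ?_, rfl⟩)
    rw [lp.single_apply_ne]
    rintro rfl
    exact hj hi
  · rw [← cut_coord i0 (T q), ← sa, hyq, inner_add_left, hqS y hy, zero_add]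
    exact inner_self_ne_zero.2 hq0

private lemma cut_one (T : l2 I →L[ℂ] l2 I) (sa : ∀ x y, inner ℂ (T x) y = inner ℂ x (T y)) (A0 A1 D L : Set I)
    (i0 : I) (hD : D ⊆ A0) (hi0 : i0 ∈ A0) (hiD : i0 ∉ D) (hDL : ∀ i ∈ D, i ∉ L) (hiL : i0 ∉ L)
    (m0 : ∀ x : l2 I, (∀ i, i ∉ A0 → x i = 0) → ∀ i, i ∉ A1 → T x i = 0)
    (c : ℝ) (hc : 0 < c) (low : ∀ x : l2 I, (∀ i ∈ L, x i = 0) → c * ‖x‖ ≤ ‖T x‖)
    (fd : FiniteDimensional ℂ (VV T A1 D)) :
    Module.finrank ℂ (VV T A1 D) = Module.finrank ℂ (VV T A1 (insert i0 D)) + 1 := by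
  obtain ⟨q, hq, hq0⟩ := cut_exists_q T sa A0 A1 D L i0 hD hi0 hiD hDL hiL m0 c hc low
  let φ : VV T A1 D →ₗ[ℂ] ℂ :=
    { toFun := fun v => T (v : l2 I) i0
      map_add' := by
        intro a b
        show T ((a : l2 I) + (b : l2 I)) i0 = _
        rw [map_add]
        rfl
      map_smul' := by
        intro a b
        show T (a • (b : l2 I)) i0 = _
        rw [map_smul]
        rfl }
  have hle : VV T A1 (insert i0 D) ≤ VV T A1 D := by
    intro v hv
    exact ⟨hv.1, fun i hi => hv.2 i (Set.mem_insert_of_mem _ hi)⟩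
  have hker : LinearMap.ker φ = (VV T A1 (insert i0 D)).comap (VV T A1 D).subtype := by
    ext v
    rw [LinearMap.mem_ker, Submodule.mem_comap]
    constructor
    · intro h
      refine ⟨v.2.1, fun i hi => ?_⟩
      rcases Set.mem_insert_iff.1 hi with rfl | h2
      · exact h
      · exact v.2.2 i h2
    · intro h
      exact h.2 i0 (Set.mem_insert _ _)
  have hrange : LinearMap.range φ = ⊤ := by
    refine LinearMap.range_eq_top.2 fun z => ?_
    refine ⟨(z / (T q i0)) • (⟨q, hq⟩ : VV T A1 D), ?_⟩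
    rw [map_smul]
    show z / (T q i0) * (T q i0) = z
    exact div_mul_cancel₀ z hq0
  have h1 := LinearMap.finrank_range_add_finrank_ker φ
  rw [hrange, finrank_top, Module.finrank_self, hker,
    LinearEquiv.finrank_eq (Submodule.comapSubtypeEquivOfLe hle)] at h1
  omega

theorem cut_dim (T : l2 I →L[ℂ] l2 I) (sa : ∀ x y, inner ℂ (T x) y = inner ℂ x (T y)) (A0 A1 D L : Set I) (F : Finset I)
    (hD : D ⊆ A0) (hF : (F : Set I) ⊆ A0) (hFD : ∀ i ∈ F, i ∉ D) (hDL : ∀ i ∈ D, i ∉ L) (hFL : ∀ i ∈ F, i ∉ L)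
    (m0 : ∀ x : l2 I, (∀ i, i ∉ A0 → x i = 0) → ∀ i, i ∉ A1 → T x i = 0)
    (c : ℝ) (hc : 0 < c) (low : ∀ x : l2 I, (∀ i ∈ L, x i = 0) → c * ‖x‖ ≤ ‖T x‖)
    (fd : FiniteDimensional ℂ (VV T A1 D)) :
    Module.finrank ℂ (VV T A1 D) = Module.finrank ℂ (VV T A1 (D ∪ (F : Set I))) + F.card := by
  induction F using Finset.induction_on with
  | empty => rw [Finset.coe_empty, Set.union_empty, Finset.card_empty, add_zero]
  | insert i0 F hi0 ih =>
    have ih' := ih (fun i hi => hF (Finset.mem_coe.2 (Finset.mem_insert_of_mem (Finset.mem_coe.1 hi))))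
      (fun i hi => hFD i (Finset.mem_insert_of_mem hi)) (fun i hi => hFL i (Finset.mem_insert_of_mem hi))
    have hle : VV T A1 (D ∪ (F : Set I)) ≤ VV T A1 D := by
      intro v hv
      exact ⟨hv.1, fun i hi => hv.2 i (Or.inl hi)⟩
    have fd2 : FiniteDimensional ℂ (VV T A1 (D ∪ (F : Set I))) := Submodule.finiteDimensional_of_le hle
    have h1 := cut_one T sa A0 A1 (D ∪ (F : Set I)) L i0
      (Set.union_subset hD fun i hi => hF (Finset.mem_coe.2 (Finset.mem_insert_of_mem (Finset.mem_coe.1 hi))))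
      (hF (Finset.mem_coe.2 (Finset.mem_insert_self _ _)))
      (by
        rintro (h | h)
        · exact hFD i0 (Finset.mem_insert_self _ _) h
        · exact hi0 (Finset.mem_coe.1 h))
      (by
        rintro i (h | h)
        · exact hDL i h
        · exact hFL i (Finset.mem_insert_of_mem (Finset.mem_coe.1 h)))
      (hFL i0 (Finset.mem_insert_self _ _)) m0 c hc low fd2
    have h2 : D ∪ ((insert i0 F : Finset I) : Set I) = insert i0 (D ∪ (F : Set I)) := by
      rw [Finset.coe_insert, Set.union_insert]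
    rw [h2, Finset.card_insert_of_notMem hi0]
    omega

end Pool.Agent.Helper12.BP
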