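import Mathlib

/-!
PROJECT BP (MP_1cfd37_ag), block K (owner helper12): definitions.

`C(Sp m, ℂ)` = continuous functions on the unit sphere of `C^m`; `sig m` = surface measure; `mono α` = the monomial `z^α`;
`nu α` = its `L²` norm; `tt f β α = ∫ f z^α conj(z^β) / (nu β nu α)` = the entries of the Toeplitz matrix of `f`.
`Hx m ι = (Fin m → ℕ) × ι` = index type of the basis `z^α e_k / nu α` of the Hardy space of `C^ι`-valued functions.
`l2 I` = square summable families. `mulM A` = multiplication by the matrix valued function `A` on `L²(sphere, C^ι)`.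
-/

set_option autoImplicit false

namespace Pool.Agent.Helper12.BP

open MeasureTheory

/-- The space `C^m`. -/
abbrev Cm (m : ℕ) : Type := EuclideanSpace ℂ (Fin m)

/-- The unit sphere of `C^m`. -/
abbrev Sp (m : ℕ) : Type := ↥(Metric.sphere (0 : Cm m) 1)

/-- The surface measure of the unit sphere. -/
noncomputable def sig (m : ℕ) : Measure (Sp m) :=
  (Measure.map (WithLp.toLp 2) (volume : Measure (Fin m → ℂ))).toSphere

instance instHaar (m : ℕ) :
    (Measure.map (WithLp.toLp 2) (volume : Measure (Fin m → ℂ)) : Measure (Cm m)).IsAddHaarMeasure :=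
  (PiLp.continuousLinearEquiv 2 ℝ (fun _ : Fin m => ℂ)).symm.isAddHaarMeasure_map
    (volume : Measure (Fin m → ℂ))

instance instFinSig (m : ℕ) : IsFiniteMeasure (sig m) := by
  unfold sig
  infer_instance

/-- The monomial `z^α` as a continuous function on the sphere. -/
noncomputable def mono {m : ℕ} (α : Fin m → ℕ) : C(Sp m, ℂ) where
  toFun z := ∏ j, (z : Cm m) j ^ α j
  continuous_toFun := by fun_prop

/-- The coordinate function `z_j`. -/
noncomputable def crd {m : ℕ} (j : Fin m) : C(Sp m, ℂ) where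
  toFun z := (z : Cm m) j
  continuous_toFun := by fun_prop

/-- The `L²` norm of the monomial `z^α`. -/
noncomputable def nu {m : ℕ} (α : Fin m → ℕ) : ℝ := Real.sqrt (∫ z, ‖mono α z‖ ^ 2 ∂(sig m))

/-- The total degree. -/
def deg {m : ℕ} (α : Fin m → ℕ) : ℕ := ∑ j, α j

/-- The Toeplitz matrix of `f`: entry at `(β, α)`. -/
noncomputable def tt {m : ℕ} (f : C(Sp m, ℂ)) (β α : Fin m → ℕ) : ℂ :=
  (∫ z, f z * (mono α z * (starRingEnd ℂ) (mono β z)) ∂(sig m)) / ((nu β : ℂ) * (nu α : ℂ))

/-- Square summable families. -/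
abbrev l2 (I : Type) : Type := ↥(lp (fun _ : I => ℂ) 2)

/-- Index type of the basis of the Hardy space. -/
abbrev Hx (m : ℕ) (ι : Type) : Type := (Fin m → ℕ) × ι

/-- The entries of a matrix valued function. -/
noncomputable def ent {m : ℕ} {ι : Type} (A : C(Sp m, Matrix ι ι ℂ)) (k l : ι) : C(Sp m, ℂ) where
  toFun z := A z k l
  continuous_toFun := A.continuous.matrix_elem k l

/-- `T` is the Toeplitz operator of the matrix valued function `A`. -/
def IsToep {m : ℕ} {ι : Type} [DecidableEq ι] (A : C(Sp m, Matrix ι ι ℂ)) (T : l2 (Hx m ι) →L[ℂ] l2 (Hx m ι)) : Prop :=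
  ∀ i j : Hx m ι, T (lp.single 2 j (1 : ℂ)) i = tt (ent A i.2 j.2) i.1 j.1

/-- Multiplication by `i` on the sphere. -/
noncomputable def rotI {m : ℕ} (z : Sp m) : Sp m :=
  ⟨Complex.I • (z : Cm m), by
    have h := z.2
    rw [mem_sphere_zero_iff_norm] at h ⊢
    rw [norm_smul, Complex.norm_I, one_mul, h]⟩

/-- `G ⊗ 1` on `ι × Λ`. -/
noncomputable def GI {m : ℕ} {ι : Type} (Λ : Type) [DecidableEq Λ] (G : C(Sp m, Matrix ι ι ℂ)) :
    C(Sp m, Matrix (ι × Λ) (ι × Λ) ℂ) where
  toFun z := Matrix.of fun x y => if x.2 = y.2 then G z x.1 y.1 else 0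
  continuous_toFun := by
    refine continuous_matrix fun x y => ?_
    simp only [Matrix.of_apply]
    split_ifs
    · exact G.continuous.matrix_elem _ _
    · exact continuous_const

/-- `(-1)^ε ⊗ κ` on `ι × Λ`. -/
noncomputable def EK {m : ℕ} {ι Λ : Type} [DecidableEq ι] (ε : ι → Bool) (κ : C(Sp m, Matrix Λ Λ ℂ)) :
    C(Sp m, Matrix (ι × Λ) (ι × Λ) ℂ) where
  toFun z := Matrix.of fun x y => if x.1 = y.1 then (if ε x.1 then (-1 : ℂ) else 1) * κ z x.2 y.2 else 0
  continuous_toFun := by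
    refine continuous_matrix fun x y => ?_
    simp only [Matrix.of_apply]
    split_ifs
    · exact continuous_const.mul (κ.continuous.matrix_elem _ _)
    · exact continuous_const.mul (κ.continuous.matrix_elem _ _)
    · exact continuous_const

/-- The space `V(T; A, D) = {v : v = 0 off A, T v = 0 on D}`. -/
def VV {I : Type} (T : l2 I →L[ℂ] l2 I) (A D : Set I) : Submodule ℂ (l2 I) where
  carrier := {v | (∀ i, i ∉ A → v i = 0) ∧ ∀ i ∈ D, T v i = 0}
  add_mem' := by
    rintro v w ⟨h1, h2⟩ ⟨h3, h4⟩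
    refine ⟨fun i hi => ?_, fun i hi => ?_⟩
    · simp [h1 i hi, h3 i hi]
    · simp [h2 i hi, h4 i hi]
  zero_mem' := by
    refine ⟨fun i _ => ?_, fun i _ => ?_⟩ <;> simp
  smul_mem' := by
    rintro c v ⟨h1, h2⟩
    refine ⟨fun i hi => ?_, fun i hi => ?_⟩
    · simp [h1 i hi]
    · simp [h2 i hi]

end Pool.Agent.Helper12.BP
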