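import Mathlib

/-!
PROJECT BP, block K, module K-1 (Gauss): one dimensional complex Gaussian moments.

PROOF. `gauss_int`: `‖w^a conj(w)^b exp(-‖w‖²)‖ = ‖w‖^(a+b) exp(-‖w‖²)`; integrable, e.g. from `Complex.integral_rpow_mul_exp_neg_rpow`
(its value is nonzero, so the function is integrable by `MeasureTheory.integral_undef`), or `integrable_fun_norm_addHaar`, or
bound `‖w‖^n exp(-‖w‖²)` by a constant times `exp(-‖w‖²/2)`.
`gauss_ne`: the map `w ↦ ζ w` with `ζ` on the unit circle, `ζ^a conj(ζ)^b ≠ 1` (`ζ = exp(i π/(b-a))`, or: `ζ = exp(i)` and `π` irrational), preserves the volume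
(`rotation`, `LinearIsometryEquiv.measurePreserving`), so `I = ζ^a conj(ζ)^b I`, `I = 0`.
`gauss_eq`: `w^a conj(w)^a = ‖w‖^(2a)`; `Complex.integral_rpow_mul_exp_neg_rpow` with `p = 2`, `q = 2a`: the value is `(2π/2) Γ((2a+2)/2) = π Γ(a+1) = π a!`.
-/

set_option autoImplicit false

namespace Pool.Agent.Helper12.BP

open MeasureTheory

theorem gauss_int (a b : ℕ) :
    Integrable (fun w : ℂ => w ^ a * (starRingEnd ℂ) w ^ b * ((Real.exp (-‖w‖ ^ 2) : ℝ) : ℂ)) := by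
  have hr : Integrable (fun w : ℂ => ‖w‖ ^ ((a + b : ℕ) : ℝ) * Real.exp (-‖w‖ ^ (2 : ℝ))) := by
    by_contra hn
    have h1 := Complex.integral_rpow_mul_exp_neg_rpow (p := 2) (q := ((a + b : ℕ) : ℝ)) (by norm_num)
      (by have : (0 : ℝ) ≤ ((a + b : ℕ) : ℝ) := Nat.cast_nonneg _
          linarith)
    rw [integral_undef hn] at h1
    have h2 : 0 < (2 * Real.pi / 2) * Real.Gamma ((((a + b : ℕ) : ℝ) + 2) / 2) := by
      have : (0 : ℝ) ≤ ((a + b : ℕ) : ℝ) := Nat.cast_nonneg _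
      have h3 := Real.Gamma_pos_of_pos (s := (((a + b : ℕ) : ℝ) + 2) / 2) (by linarith)
      have := Real.pi_pos
      positivity
    linarith
  refine hr.mono' ?_ (Filter.Eventually.of_forall fun w => ?_)
  · refine Continuous.aestronglyMeasurable ?_
    fun_prop
  · rw [norm_mul, norm_mul, norm_pow, norm_pow, RCLike.norm_conj, Complex.norm_real, Real.norm_eq_abs,
      abs_of_pos (Real.exp_pos _), Real.rpow_natCast, Real.rpow_two, pow_add]

theorem gauss_ne (a b : ℕ) (h : a ≠ b) :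
    ∫ w : ℂ, w ^ a * (starRingEnd ℂ) w ^ b * ((Real.exp (-‖w‖ ^ 2) : ℝ) : ℂ) = 0 := by
  have hab : (a : ℝ) - (b : ℝ) ≠ 0 := by
    intro h0
    exact h (by exact_mod_cast sub_eq_zero.1 h0)
  set θ : ℝ := Real.pi / ((a : ℝ) - (b : ℝ)) with hθ
  set ζ : Circle := Circle.exp θ with hζ
  have hmp : MeasurePreserving (rotation ζ) (volume : Measure ℂ) volume := (rotation ζ).measurePreserving
  have hcomp := hmp.integral_comp (rotation ζ).toHomeomorph.measurableEmbedding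
    (fun w : ℂ => w ^ a * (starRingEnd ℂ) w ^ b * ((Real.exp (-‖w‖ ^ 2) : ℝ) : ℂ))
  have hprod : (ζ : ℂ) ^ a * (starRingEnd ℂ) (ζ : ℂ) ^ b = -1 := by
    rw [hζ, Circle.coe_exp, ← Complex.exp_conj, ← Complex.exp_nat_mul, ← Complex.exp_nat_mul, ← Complex.exp_add,
      map_mul, Complex.conj_ofReal, Complex.conj_I, ← Complex.exp_pi_mul_I]
    congr 1
    have h1 : ((a : ℂ) - (b : ℂ)) * (θ : ℂ) = (Real.pi : ℂ) := by
      have : ((a : ℝ) - (b : ℝ)) * θ = Real.pi := by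
        rw [hθ]; field_simp
      exact_mod_cast this
    linear_combination Complex.I * h1
  have hfun : ∀ w : ℂ, (rotation ζ w) ^ a * (starRingEnd ℂ) (rotation ζ w) ^ b
      * ((Real.exp (-‖rotation ζ w‖ ^ 2) : ℝ) : ℂ)
      = (-1) * (w ^ a * (starRingEnd ℂ) w ^ b * ((Real.exp (-‖w‖ ^ 2) : ℝ) : ℂ)) := by
    intro w
    rw [LinearIsometryEquiv.norm_map, rotation_apply, ← hprod, map_mul, mul_pow, mul_pow]
    ring
  simp only [hfun] at hcomp
  rw [integral_const_mul] at hcomp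
  have h2 : (2 : ℂ) * ∫ w : ℂ, w ^ a * (starRingEnd ℂ) w ^ b * ((Real.exp (-‖w‖ ^ 2) : ℝ) : ℂ) = 0 := by
    linear_combination -hcomp
  simpa using h2

theorem gauss_eq (a : ℕ) :
    ∫ w : ℂ, w ^ a * (starRingEnd ℂ) w ^ a * ((Real.exp (-‖w‖ ^ 2) : ℝ) : ℂ) = ((Real.pi * a.factorial : ℝ) : ℂ) := by
  have h1 := Complex.integral_rpow_mul_exp_neg_rpow (p := 2) (q := ((2 * a : ℕ) : ℝ)) (by norm_num)
    (by have : (0 : ℝ) ≤ ((2 * a : ℕ) : ℝ) := Nat.cast_nonneg _
        linarith)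
  have h3 : (((2 * a : ℕ) : ℝ) + 2) / 2 = (a : ℝ) + 1 := by
    push_cast; ring
  rw [h3, Real.Gamma_nat_eq_factorial] at h1
  have h4 : (2 * Real.pi / 2) * (a.factorial : ℝ) = Real.pi * a.factorial := by ring
  rw [h4] at h1
  rw [← h1, ← integral_complex_ofReal]
  refine integral_congr_ae (Filter.Eventually.of_forall fun w => ?_)
  have h5 : w ^ a * (starRingEnd ℂ) w ^ a = ((‖w‖ ^ (2 * a) : ℝ) : ℂ) := by
    rw [← mul_pow, Complex.mul_conj, Complex.normSq_eq_norm_sq, pow_mul]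
    push_cast
    ring
  simp only [h5, Real.rpow_natCast, Real.rpow_two]
  push_cast
  ring

end Pool.Agent.Helper12.BP
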