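import Pool.Agent.Helper12.BP.L2

/-!
PROJECT BP, block K, module K-11 (Hom): homotopy invariance of the dimension of `VV`.

Let `T_s = (1-s) T0 + s T1`, `V_s = VV T_s A1 D`, `R_s = T_s(l²(D))`.
PROOF. (a) finite dimension: for `v ∈ V_s` the family `T_s v` is supported in the finite set `A0 \ D`; the linear map `v ↦ (T_s v restricted to A0 \ D, v restricted to L)` of `V_s` is injective: if both
 vanish, then `T_s v = 0` and `c ‖v‖ ≤ 0`. (`Module.Finite.of_injective`.)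
(b) `R_s` is closed (`T_s` is bounded below on the closed subspace `l²(D)`: `AntilipschitzWith.isClosed_range` or `LinearMap`/`ContinuousLinearMap.isClosed_range..`), `R_s ⊆ l²(A1)`,
 and for `v` supported in `A1`: `v ∈ V_s` iff `v ⟂ R_s` (`inner v (T_s u) = inner (T_s v) u`).
(c) Let `‖T_s - T_s'‖ < c`. The orthogonal projection onto `V_s` is injective on `V_s'`: let `v' ∈ V_s'`, `v' ⟂ V_s`. Write `v' = r + q`, `r ∈ R_s`, `q ⟂ R_s`; `q` is supported in `A1`, so `q ∈ V_s`,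
 `0 = inner q v' = ‖q‖²`, so `v' = T_s u`, `u` supported in `D`, `‖u‖ ≤ ‖v'‖/c`. `‖v'‖² = inner v' (T_s u) = inner v' ((T_s - T_s') u) + inner (T_s' v') u`, the last term is `0`
 (`T_s' v' = 0` on `D`, `u = 0` off `D`). So `‖v'‖² ≤ ‖T_s - T_s'‖ ‖v'‖²/c`, `v' = 0`. Hence `finrank V_s' ≤ finrank V_s`, and by symmetry equality.
(d) `‖T_s - T_s'‖ ≤ |s - s'| ‖T1 - T0‖`: finitely many steps `k/n` from `0` to `1`.
-/

set_option autoImplicit false

namespace Pool.Agent.Helper12.BP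

variable {I : Type} [DecidableEq I]

/-- The families supported in `D`. -/
private def supS (D : Set I) : Submodule ℂ (l2 I) where
  carrier := {x | ∀ i, i ∉ D → x i = 0}
  add_mem' := by
    intro v w h1 h2 i hi
    simp [h1 i hi, h2 i hi]
  zero_mem' := by
    intro i _
    simp
  smul_mem' := by
    intro c v h1 i hi
    simp [h1 i hi]

omit [DecidableEq I] in
private theorem continuous_coord (i : I) : Continuous fun x : l2 I => x i := by
  classical
  have h : (fun x : l2 I => x i) = fun x : l2 I => inner ℂ (lp.single 2 i (1 : ℂ)) x := by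
    funext x
    rw [lp.inner_single_left]
    simp
  rw [h]
  fun_prop

omit [DecidableEq I] in
private theorem isClosed_supS (D : Set I) : IsClosed (supS D : Set (l2 I)) := by
  have h : (supS D : Set (l2 I)) = ⋂ i ∈ Dᶜ, {x : l2 I | x i = 0} := by
    ext x
    simp [supS]
  rw [h]
  refine isClosed_biInter fun i _ => ?_
  exact isClosed_eq (continuous_coord i) continuous_const

omit [DecidableEq I] in
private theorem inner_zero_of (x y : l2 I) (h : ∀ i, x i = 0 ∨ y i = 0) : inner ℂ x y = (0 : ℂ) := by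
  rw [lp.inner_eq_tsum]
  have h2 : (fun i => inner ℂ (x i) (y i)) = fun _ => (0 : ℂ) := by
    funext i
    rcases h i with h1 | h1
    · rw [h1, inner_zero_left]
    · rw [h1, inner_zero_right]
  rw [h2, tsum_zero]

omit [DecidableEq I] in
/-- finite dimension. -/
private theorem findim (T : l2 I →L[ℂ] l2 I) (A0 A1 D L : Set I) (hL : L.Finite) (hAD : (A0 \ D).Finite)
    (m1 : ∀ x : l2 I, (∀ i, i ∉ A1 → x i = 0) → ∀ i, i ∉ A0 → T x i = 0)
    (c : ℝ) (hc : 0 < c) (low : ∀ x : l2 I, (∀ i ∈ L, x i = 0) → c * ‖x‖ ≤ ‖T x‖) :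
    FiniteDimensional ℂ (VV T A1 D) := by
  have : Finite L := hL
  have : Finite (A0 \ D : Set I) := hAD
  let f : VV T A1 D →ₗ[ℂ] ((A0 \ D : Set I) → ℂ) × (L → ℂ) :=
    { toFun := fun v => (fun i => T (v : l2 I) (i : I), fun i => (v : l2 I) (i : I))
      map_add' := by
        intro v w
        ext i <;> simp
      map_smul' := by
        intro a v
        ext i <;> simp }
  refine Module.Finite.of_injective f ?_
  rw [← LinearMap.ker_eq_bot, LinearMap.ker_eq_bot']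
  intro v hv
  have hv1 : ∀ i : (A0 \ D : Set I), T (v : l2 I) (i : I) = 0 := fun i => congrFun (congrArg Prod.fst hv) i
  have hv2 : ∀ i : L, (v : l2 I) (i : I) = 0 := fun i => congrFun (congrArg Prod.snd hv) i
  have hT : T (v : l2 I) = 0 := by
    ext i
    by_cases hi : i ∈ A0
    · by_cases hd : i ∈ D
      · simpa using v.2.2 i hd
      · simpa using hv1 ⟨i, hi, hd⟩
    · simpa using m1 (v : l2 I) v.2.1 i hi
  have h := low (v : l2 I) fun i hi => hv2 ⟨i, hi⟩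
  rw [hT, norm_zero] at h
  have h0 : ‖(v : l2 I)‖ = 0 := by
    have h1 := norm_nonneg (v : l2 I)
    nlinarith
  exact Subtype.ext (norm_eq_zero.mp h0)

/-- one step. -/
private theorem step (T T' : l2 I →L[ℂ] l2 I) (sa : ∀ x y, inner ℂ (T x) y = inner ℂ x (T y))
    (sa' : ∀ x y, inner ℂ (T' x) y = inner ℂ x (T' y)) (A0 A1 D L : Set I) (hD : D ⊆ A0)
    (hDL : ∀ i ∈ D, i ∉ L) (hfin : FiniteDimensional ℂ (VV T A1 D))
    (m0 : ∀ x : l2 I, (∀ i, i ∉ A0 → x i = 0) → ∀ i, i ∉ A1 → T x i = 0)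
    (c κ : ℝ) (hc : 0 < c) (hκ : κ < c) (low : ∀ x : l2 I, (∀ i ∈ L, x i = 0) → c * ‖x‖ ≤ ‖T x‖)
    (near : ∀ x : l2 I, ‖T x - T' x‖ ≤ κ * ‖x‖) :
    Module.finrank ℂ (VV T' A1 D) ≤ Module.finrank ℂ (VV T A1 D) := by
  classical
  have hlowD : ∀ x : l2 I, x ∈ supS D → c * ‖x‖ ≤ ‖T x‖ := by
    intro x hx
    exact low x fun i hi => hx i fun hd => hDL i hd hi
  -- the range of the families supported in `D` is complete
  let R : Submodule ℂ (l2 I) := (supS D).map (T : l2 I →ₗ[ℂ] l2 I)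
  have : CompleteSpace (supS D) := (isClosed_supS D).completeSpace_coe
  have hRc : IsComplete (R : Set (l2 I)) := by
    have hanti : AntilipschitzWith (Real.toNNReal c⁻¹) fun x : supS D => T (x : l2 I) := by
      refine AddMonoidHomClass.antilipschitz_of_bound ((T : l2 I →ₗ[ℂ] l2 I).comp (supS D).subtype) ?_
      intro x
      have h := hlowD x x.2
      rw [Real.coe_toNNReal _ (le_of_lt (inv_pos.mpr hc))]
      have h2 : ‖(x : l2 I)‖ ≤ c⁻¹ * ‖T (x : l2 I)‖ := by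
        rw [inv_mul_eq_div, le_div_iff₀ hc]
        linarith
      exact h2
    have huc : UniformContinuous fun x : supS D => T (x : l2 I) :=
      T.uniformContinuous.comp uniformContinuous_subtype_val
    have h := hanti.isComplete_range huc
    have he : Set.range (fun x : supS D => T (x : l2 I)) = (R : Set (l2 I)) := by
      ext y
      constructor
      · rintro ⟨x, rfl⟩
        exact Submodule.mem_map.mpr ⟨x, x.2, rfl⟩
      · intro hy
        obtain ⟨x, hx, rfl⟩ := Submodule.mem_map.mp hy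
        exact ⟨⟨x, hx⟩, rfl⟩
    rwa [he] at h
  have : CompleteSpace R := hRc.completeSpace_coe
  let f : VV T' A1 D →ₗ[ℂ] VV T A1 D :=
    ((VV T A1 D).orthogonalProjectionOnto : l2 I →ₗ[ℂ] VV T A1 D).comp (VV T' A1 D).subtype
  refine LinearMap.finrank_le_finrank_of_injective (f := f) ?_
  rw [← LinearMap.ker_eq_bot, LinearMap.ker_eq_bot']
  intro v' hv'
  have hperp : (v' : l2 I) ∈ (VV T A1 D)ᗮ := by
    have h : (VV T A1 D).orthogonalProjectionOnto (v' : l2 I) = 0 := hv'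
    rwa [Submodule.orthogonalProjectionOnto_eq_zero_iff] at h
  -- decompose
  have hr : R.starProjection (v' : l2 I) ∈ R := Submodule.starProjection_apply_mem R _
  obtain ⟨u, hu, hur⟩ := Submodule.mem_map.mp hr
  have hq : (v' : l2 I) - R.starProjection (v' : l2 I) ∈ Rᗮ := Submodule.sub_starProjection_mem_orthogonal _
  have hur' : T u = R.starProjection (v' : l2 I) := hur
  rw [← hur'] at hq
  have huA : ∀ i, i ∉ A1 → T u i = 0 := m0 u fun i hi => hu i fun hd => hi (hD hd)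
  have hqV : (v' : l2 I) - T u ∈ VV T A1 D := by
    refine ⟨fun i hi => ?_, fun i hi => ?_⟩
    · simp [v'.2.1 i hi, huA i hi]
    · have h1 : inner ℂ (T (lp.single 2 i (1 : ℂ))) ((v' : l2 I) - T u) = 0 := by
        refine (Submodule.mem_orthogonal _ _).mp hq _ ?_
        refine Submodule.mem_map.mpr ⟨lp.single 2 i (1 : ℂ), ?_, rfl⟩
        intro j hj
        have hji : j ≠ i := fun h => hj (h ▸ hi)
        simp [hji]
      rw [sa, lp.inner_single_left] at h1
      simpa using h1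
  have hqv : inner ℂ ((v' : l2 I) - T u) (v' : l2 I) = (0 : ℂ) := (Submodule.mem_orthogonal _ _).mp hperp _ hqV
  have hqT : inner ℂ ((v' : l2 I) - T u) (T u) = (0 : ℂ) := by
    have h := (Submodule.mem_orthogonal _ _).mp hq (T u) (Submodule.mem_map.mpr ⟨u, hu, rfl⟩)
    rw [← inner_conj_symm, h, map_zero]
  have hq0 : (v' : l2 I) - T u = 0 := by
    rw [← inner_self_eq_zero (𝕜 := ℂ), inner_sub_right, hqv, hqT, sub_zero]
  have hvu : (v' : l2 I) = T u := sub_eq_zero.mp hq0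
  have hcu : c * ‖u‖ ≤ ‖(v' : l2 I)‖ := by
    rw [hvu]
    exact hlowD u hu
  have hT' : inner ℂ (v' : l2 I) (T' u) = (0 : ℂ) := by
    rw [← sa']
    refine inner_zero_of _ _ fun i => ?_
    by_cases hi : i ∈ D
    · exact Or.inl (v'.2.2 i hi)
    · exact Or.inr (hu i hi)
  have hnorm : ‖(v' : l2 I)‖ ^ 2 ≤ ‖(v' : l2 I)‖ * (κ * ‖u‖) := by
    have h1 : inner ℂ (v' : l2 I) (v' : l2 I) = inner ℂ (v' : l2 I) (T u - T' u) := by
      rw [inner_sub_right, hT', sub_zero, ← hvu]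
    have h2 : ‖(v' : l2 I)‖ ^ 2 = ‖inner ℂ (v' : l2 I) (v' : l2 I)‖ := by
      rw [inner_self_eq_norm_sq_to_K]
      simp
    rw [h2, h1]
    exact (norm_inner_le_norm _ _).trans (mul_le_mul_of_nonneg_left (near u) (norm_nonneg _))
  have h0 : ‖(v' : l2 I)‖ = 0 := by
    by_contra hne
    have hpos : 0 < ‖(v' : l2 I)‖ := lt_of_le_of_ne (norm_nonneg _) (Ne.symm hne)
    have h3 : ‖(v' : l2 I)‖ ≤ κ * ‖u‖ := by
      have h4 : ‖(v' : l2 I)‖ * ‖(v' : l2 I)‖ ≤ ‖(v' : l2 I)‖ * (κ * ‖u‖) := by nlinarith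
      exact le_of_mul_le_mul_left h4 hpos
    have hu0 : 0 < ‖u‖ := by
      rcases (norm_nonneg u).lt_or_eq with h5 | h5
      · exact h5
      · rw [← h5, mul_zero] at h3
        linarith
    nlinarith
  exact Subtype.ext (norm_eq_zero.mp h0)

theorem hom_dim (T0 T1 : l2 I →L[ℂ] l2 I) (sa0 : ∀ x y, inner ℂ (T0 x) y = inner ℂ x (T0 y))
    (sa1 : ∀ x y, inner ℂ (T1 x) y = inner ℂ x (T1 y)) (A0 A1 D L : Set I) (hD : D ⊆ A0) (hL : L.Finite)
    (hAD : (A0 \ D).Finite) (hDL : ∀ i ∈ D, i ∉ L)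
    (m00 : ∀ x : l2 I, (∀ i, i ∉ A0 → x i = 0) → ∀ i, i ∉ A1 → T0 x i = 0)
    (m01 : ∀ x : l2 I, (∀ i, i ∉ A1 → x i = 0) → ∀ i, i ∉ A0 → T0 x i = 0)
    (m10 : ∀ x : l2 I, (∀ i, i ∉ A0 → x i = 0) → ∀ i, i ∉ A1 → T1 x i = 0)
    (m11 : ∀ x : l2 I, (∀ i, i ∉ A1 → x i = 0) → ∀ i, i ∉ A0 → T1 x i = 0)
    (c : ℝ) (hc : 0 < c)
    (low : ∀ s ∈ Set.Icc (0 : ℝ) 1, ∀ x : l2 I, (∀ i ∈ L, x i = 0) →
      c * ‖x‖ ≤ ‖((1 - s : ℝ) : ℂ) • T0 x + (s : ℂ) • T1 x‖) :
    FiniteDimensional ℂ (VV T0 A1 D) ∧ FiniteDimensional ℂ (VV T1 A1 D) ∧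
      Module.finrank ℂ (VV T0 A1 D) = Module.finrank ℂ (VV T1 A1 D) := by
  classical
  let F : ℝ → (l2 I →L[ℂ] l2 I) := fun s => ((1 - s : ℝ) : ℂ) • T0 + (s : ℂ) • T1
  have hF : ∀ s x, F s x = ((1 - s : ℝ) : ℂ) • T0 x + (s : ℂ) • T1 x := fun s x => rfl
  have hsa : ∀ s, ∀ x y, inner ℂ (F s x) y = inner ℂ x (F s y) := by
    intro s x y
    rw [hF, hF, inner_add_left, inner_add_right, inner_smul_left, inner_smul_left, inner_smul_right,
      inner_smul_right, sa0, sa1, Complex.conj_ofReal, Complex.conj_ofReal]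
  have hm0 : ∀ s, ∀ x : l2 I, (∀ i, i ∉ A0 → x i = 0) → ∀ i, i ∉ A1 → F s x i = 0 := by
    intro s x hx i hi
    rw [hF, lp.coeFn_add, Pi.add_apply, lp.coeFn_smul, lp.coeFn_smul, Pi.smul_apply, Pi.smul_apply,
      m00 x hx i hi, m10 x hx i hi, smul_zero, smul_zero, add_zero]
  have hm1 : ∀ s, ∀ x : l2 I, (∀ i, i ∉ A1 → x i = 0) → ∀ i, i ∉ A0 → F s x i = 0 := by
    intro s x hx i hi
    rw [hF, lp.coeFn_add, Pi.add_apply, lp.coeFn_smul, lp.coeFn_smul, Pi.smul_apply, Pi.smul_apply,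
      m01 x hx i hi, m11 x hx i hi, smul_zero, smul_zero, add_zero]
  have hfd : ∀ s ∈ Set.Icc (0 : ℝ) 1, FiniteDimensional ℂ (VV (F s) A1 D) := fun s hs =>
    findim (F s) A0 A1 D L hL hAD (hm1 s) c hc (fun x hx => low s hs x hx)
  have hF0 : F 0 = T0 := by
    ext1 x
    rw [hF]
    simp
  have hF1 : F 1 = T1 := by
    ext1 x
    rw [hF]
    simp
  obtain ⟨n, hn⟩ := exists_nat_gt (‖T1 - T0‖ / c)
  have hn0 : 0 < (n : ℝ) := lt_of_le_of_lt (div_nonneg (norm_nonneg _) hc.le) hn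
  have hnc : ‖T1 - T0‖ / n < c := by
    rw [div_lt_iff₀ hn0]
    rw [div_lt_iff₀ hc] at hn
    linarith
  have hdiff : ∀ s s' : ℝ, ∀ x, F s x - F s' x = ((s - s' : ℝ) : ℂ) • (T1 - T0) x := by
    intro s s' x
    rw [hF, hF]
    simp only [sub_apply]
    push_cast
    module
  have hnear : ∀ s s' : ℝ, |s - s'| = 1 / n → ∀ x, ‖F s x - F s' x‖ ≤ (‖T1 - T0‖ / n) * ‖x‖ := by
    intro s s' hss x
    rw [hdiff, norm_smul, Complex.norm_real, Real.norm_eq_abs, hss]
    have h := (T1 - T0).le_opNorm x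
    calc 1 / (n : ℝ) * ‖(T1 - T0) x‖ ≤ 1 / (n : ℝ) * (‖T1 - T0‖ * ‖x‖) :=
          mul_le_mul_of_nonneg_left h (by positivity)
      _ = (‖T1 - T0‖ / n) * ‖x‖ := by ring
  have hIcc : ∀ k : ℕ, k ≤ n → ((k : ℝ) / n) ∈ Set.Icc (0 : ℝ) 1 := by
    intro k hk
    refine ⟨by positivity, ?_⟩
    rw [div_le_one hn0]
    exact_mod_cast hk
  have hind : ∀ k : ℕ, k ≤ n → Module.finrank ℂ (VV (F ((k : ℝ) / n)) A1 D) = Module.finrank ℂ (VV T0 A1 D) := by
    intro k
    induction k with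
    | zero =>
      intro _
      have h0 : ((0 : ℕ) : ℝ) / (n : ℝ) = 0 := by simp
      rw [h0, hF0]
    | succ k ih =>
      intro hk
      have hk' : k ≤ n := by omega
      rw [← ih hk']
      have hab : |((k + 1 : ℕ) : ℝ) / n - (k : ℝ) / n| = 1 / n := by
        rw [← sub_div]
        push_cast
        rw [add_sub_cancel_left, abs_of_pos (by positivity)]
      have hab' : |(k : ℝ) / n - ((k + 1 : ℕ) : ℝ) / n| = 1 / n := by
        rw [abs_sub_comm]
        exact hab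
      refine le_antisymm ?_ ?_
      · exact step (F ((k : ℝ) / n)) (F (((k + 1 : ℕ) : ℝ) / n)) (hsa _) (hsa _) A0 A1 D L hD hDL
          (hfd _ (hIcc k hk')) (hm0 _) c _ hc hnc (fun x hx => low _ (hIcc k hk') x hx) (hnear _ _ hab')
      · exact step (F (((k + 1 : ℕ) : ℝ) / n)) (F ((k : ℝ) / n)) (hsa _) (hsa _) A0 A1 D L hD hDL
          (hfd _ (hIcc (k + 1) hk)) (hm0 _) c _ hc hnc (fun x hx => low _ (hIcc (k + 1) hk) x hx) (hnear _ _ hab)
  have hfin0 := hfd 0 (by simp)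
  have hfin1 := hfd 1 (by simp)
  rw [hF0] at hfin0
  rw [hF1] at hfin1
  refine ⟨hfin0, hfin1, ?_⟩
  have h := hind n le_rfl
  rw [div_self hn0.ne', hF1] at h
  exact h.symm

end Pool.Agent.Helper12.BP
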