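import Pool.Agent.Helper12.BP.HankAll

/-!
PROJECT BP, block K, module K-10 (Low): existence and lower bounds of Toeplitz operators.

PROOF. `toepEx`: `bL_orthonormal`, `TB_toep`.
`toepLow`: by `toep_unique` `TA = TB hb (symb A)`, `T_B = TB hb (symb B)`. Let `e = c/4`, `N` = maximum of the two numbers of `hankAll` for `symb A`, `symb B`. For `s` in `[0,1]` let
`C = (1-s) • symb A + s • symb B`; `mulB C = (1-s) mulB (symb A) + s mulB (symb B)`; `‖mulB C u‖ ≥ c ‖u‖` (`mulB_lower`);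
`‖mulB C (J x) - J ((1-s) TA x + s TB x)‖ ≤ (1-s) e ‖x‖ + s e ‖x‖ = e ‖x‖`; `J` is an isometry: `‖(1-s) TA x + s TB x‖ ≥ (c - c/4) ‖x‖ ≥ (c/2) ‖x‖`.
-/

set_option autoImplicit false

namespace Pool.Agent.Helper12.BP

open MeasureTheory

variable {m : ℕ} {ι : Type} [Fintype ι] [DecidableEq ι]

theorem toepEx (hm : 0 < m) (A : C(Sp m, Matrix ι ι ℂ)) : ∃ T : l2 (Hx m ι) →L[ℂ] l2 (Hx m ι), IsToep A T :=
  ⟨TB (bL_orthonormal hm) (symb A), TB_toep _ A⟩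

private theorem low_abs {E F : Type} [NormedAddCommGroup E] [NormedSpace ℂ E] [NormedAddCommGroup F]
    [NormedSpace ℂ F] (J : E →ₗᵢ[ℂ] F) (x a b : E) (u v : F) (c s : ℝ) (hc : 0 < c) (hs0 : 0 ≤ s)
    (hs1 : 0 ≤ 1 - s) (h3 : c * ‖J x‖ ≤ ‖((1 - s : ℝ) : ℂ) • u + (s : ℂ) • v‖)
    (hx1 : ‖u - J a‖ ≤ c / 4 * ‖x‖) (hx2 : ‖v - J b‖ ≤ c / 4 * ‖x‖) :
    c / 2 * ‖x‖ ≤ ‖((1 - s : ℝ) : ℂ) • a + (s : ℂ) • b‖ := by
  have h5 : J (((1 - s : ℝ) : ℂ) • a + (s : ℂ) • b) = ((1 - s : ℝ) : ℂ) • J a + (s : ℂ) • J b := by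
    rw [map_add, map_smul, map_smul]
  rw [← J.norm_map (((1 - s : ℝ) : ℂ) • a + (s : ℂ) • b), h5]
  rw [J.norm_map x] at h3
  have h7 : ((1 - s : ℝ) : ℂ) • u + (s : ℂ) • v = (((1 - s : ℝ) : ℂ) • J a + (s : ℂ) • J b) +
      (((1 - s : ℝ) : ℂ) • (u - J a) + (s : ℂ) • (v - J b)) := by
    rw [smul_sub, smul_sub]
    abel
  have h8 : ‖((1 - s : ℝ) : ℂ) • (u - J a)‖ ≤ (1 - s) * (c / 4 * ‖x‖) := by
    rw [norm_smul, Complex.norm_real, Real.norm_of_nonneg hs1]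
    exact mul_le_mul_of_nonneg_left hx1 hs1
  have h9 : ‖(s : ℂ) • (v - J b)‖ ≤ s * (c / 4 * ‖x‖) := by
    rw [norm_smul, Complex.norm_real, Real.norm_of_nonneg hs0]
    exact mul_le_mul_of_nonneg_left hx2 hs0
  have h10 := norm_add_le (((1 - s : ℝ) : ℂ) • J a + (s : ℂ) • J b)
    (((1 - s : ℝ) : ℂ) • (u - J a) + (s : ℂ) • (v - J b))
  have h11 := norm_add_le (((1 - s : ℝ) : ℂ) • (u - J a)) ((s : ℂ) • (v - J b))
  rw [h7] at h3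
  have h12 : 0 ≤ c * ‖x‖ := mul_nonneg hc.le (norm_nonneg x)
  linarith

omit [DecidableEq ι] in
private theorem low_seg (A B : C(Sp m, W ι →L[ℂ] W ι)) (s : ℝ) (z : Sp m) (v : W ι) :
    (((1 - s : ℝ) : ℂ) • A + (s : ℂ) • B) z v = ((1 - s : ℝ) : ℂ) • A z v + (s : ℂ) • B z v := by
  rw [ContinuousMap.add_apply, ContinuousMap.smul_apply, ContinuousMap.smul_apply,
    ContinuousLinearMap.add_apply, ContinuousLinearMap.smul_apply, ContinuousLinearMap.smul_apply]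

omit [DecidableEq ι] in
private theorem low_mul (A B : C(Sp m, W ι →L[ℂ] W ι)) (s : ℝ) (u : LL m ι) :
    mulB (((1 - s : ℝ) : ℂ) • A + (s : ℂ) • B) u = ((1 - s : ℝ) : ℂ) • mulB A u + (s : ℂ) • mulB B u := by
  rw [mulB_add, mulB_smul, mulB_smul, ContinuousLinearMap.add_apply, ContinuousLinearMap.smul_apply,
    ContinuousLinearMap.smul_apply]

omit [DecidableEq ι] in
private theorem low_bound (A B : C(Sp m, W ι →L[ℂ] W ι)) (s : ℝ) (c : ℝ) (hc : 0 < c)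
    (h : ∀ z (v : W ι), c * ‖v‖ ≤ ‖((1 - s : ℝ) : ℂ) • A z v + (s : ℂ) • B z v‖) (u : LL m ι) :
    c * ‖u‖ ≤ ‖((1 - s : ℝ) : ℂ) • mulB A u + (s : ℂ) • mulB B u‖ := by
  rw [← low_mul]
  apply mulB_lower _ c hc.le
  intro z v
  rw [low_seg]
  exact h z v

theorem toepLow (hm : 0 < m) (A B : C(Sp m, Matrix ι ι ℂ)) (TA TB' : l2 (Hx m ι) →L[ℂ] l2 (Hx m ι))
    (hA : IsToep A TA) (hB : IsToep B TB') (c : ℝ) (hc : 0 < c)
    (h : ∀ s ∈ Set.Icc (0 : ℝ) 1, ∀ z (v : W ι), c * ‖v‖ ≤ ‖((1 - s : ℝ) : ℂ) • symb A z v + (s : ℂ) • symb B z v‖) :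
    ∃ N : ℕ, ∃ c' : ℝ, 0 < c' ∧ ∀ s ∈ Set.Icc (0 : ℝ) 1, ∀ x : l2 (Hx m ι), (∀ i, deg i.1 < N → x i = 0) →
      c' * ‖x‖ ≤ ‖((1 - s : ℝ) : ℂ) • TA x + (s : ℂ) • TB' x‖ := by
  have hb : Orthonormal ℂ (bL : Hx m ι → LL m ι) := bL_orthonormal hm
  have h1 : TA = TB hb (symb A) := toep_unique A _ _ hA (TB_toep hb A)
  have h2 : TB' = TB hb (symb B) := toep_unique B _ _ hB (TB_toep hb B)
  obtain ⟨N1, hN1⟩ := hankAll hb hm (symb A) (c / 4) (by positivity)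
  obtain ⟨N2, hN2⟩ := hankAll hb hm (symb B) (c / 4) (by positivity)
  refine ⟨max N1 N2, c / 2, by positivity, ?_⟩
  intro s hs x hx
  have hx1 := hN1 x fun i hi => hx i (lt_of_lt_of_le hi (le_max_left _ _))
  have hx2 := hN2 x fun i hi => hx i (lt_of_lt_of_le hi (le_max_right _ _))
  rw [← h1] at hx1
  rw [← h2] at hx2
  exact low_abs (JJ hb) x (TA x) (TB' x) (mulB (symb A) (JJ hb x)) (mulB (symb B) (JJ hb x)) c s hc hs.1
    (by linarith [hs.2]) (low_bound (symb A) (symb B) s c hc (h s hs) (JJ hb x)) hx1 hx2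

end Pool.Agent.Helper12.BP
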