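import Pool.Agent.Helper12.BP.L2

/-!
PROJECT BP, block K, module K-13 (OneCnt): the dimension of `VV` for an operator that preserves the degree.

PROOF. `V = VV T A1 (A0 ∩ P)` consists exactly of the families supported in `A1 \ P` (then `finrank_supp`).
Let `v ∈ V`, `v = v1 + v2`, `v1` supported in `A1 ∩ P`, `v2` in `A1 \ P` (`exists_prA`). `T v2 = 0` on `P` (h2), `T v = 0` on `A0 ∩ P`, so `T v1 = 0` on `A0 ∩ P`, and `T v1` is supported in `A0 ∩ P` (h1): `T v1 = 0`, `v1 = 0` (low).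
Conversely `v` supported in `A1 \ P` has `T v = 0` on `P`.
-/

set_option autoImplicit false

namespace Pool.Agent.Helper12.BP

variable {I : Type} [DecidableEq I]

theorem one_cnt (T : l2 I →L[ℂ] l2 I) (A0 A1 P : Set I) (hfin : (A1 \ P).Finite)
    (h1 : ∀ x : l2 I, (∀ i, i ∉ A1 ∩ P → x i = 0) → ∀ i, i ∉ A0 ∩ P → T x i = 0)
    (h2 : ∀ x : l2 I, (∀ i, i ∉ A1 \ P → x i = 0) → ∀ i ∈ P, T x i = 0)
    (c : ℝ) (hc : 0 < c) (low : ∀ x : l2 I, (∀ i, i ∉ A1 ∩ P → x i = 0) → c * ‖x‖ ≤ ‖T x‖) :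
    Module.finrank ℂ (VV T A1 (A0 ∩ P)) = (A1 \ P).ncard := by
  refine (finrank_supp (A1 \ P) hfin (VV T A1 (A0 ∩ P)) (fun v => ⟨?_, ?_⟩)).2
  · rintro ⟨hv1, hv2⟩
    obtain ⟨Q, q1, q2, -⟩ := exists_prA (A1 ∩ P)
    have s1 : ∀ i, i ∉ A1 ∩ P → Q v i = 0 := fun i hi => q2 v i hi
    have s2 : ∀ i, i ∉ A1 \ P → (v - Q v) i = 0 := by
      intro i hi
      rw [lp.coeFn_sub, Pi.sub_apply]
      by_cases hP : i ∈ A1 ∩ P
      · rw [q1 v i hP, sub_self]
      · have hA : i ∉ A1 := by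
          intro hA
          by_cases hp : i ∈ P
          · exact hP ⟨hA, hp⟩
          · exact hi ⟨hA, hp⟩
        rw [hv1 i hA, q2 v i hP, sub_self]
    have t2 := h2 (v - Q v) s2
    have t1 := h1 (Q v) s1
    have hT : T (Q v) = 0 := by
      apply lp.ext
      funext i
      rw [lp.coeFn_zero, Pi.zero_apply]
      by_cases hi : i ∈ A0 ∩ P
      · have e := t2 i hi.2
        rw [map_sub, lp.coeFn_sub, Pi.sub_apply, hv2 i hi, zero_sub, neg_eq_zero] at e
        exact e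
      · exact t1 i hi
    have hQ : Q v = 0 := by
      have h3 := low (Q v) s1
      rw [hT, norm_zero] at h3
      have h4 : ‖Q v‖ ≤ 0 := by
        by_contra h5
        push Not at h5
        have := mul_pos hc h5
        linarith
      exact norm_le_zero_iff.mp h4
    intro i hi
    have h6 := s2 i hi
    rw [hQ, sub_zero] at h6
    exact h6
  · intro hv
    refine ⟨fun i hi => hv i (fun h => hi h.1), fun i hi => h2 v hv i hi.2⟩

end Pool.Agent.Helper12.BP
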