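import Pool.Agent.Helper12.BP.Mul

/-!
PROJECT BP, block K, module K-15 (Seg): the segment from `G ⊗ 1` to `(-1)^ε ⊗ κ` consists of invertible symbols.

PROOF. `low_of_inj`: the continuous function `(z, v) ↦ ‖symb A z v‖` has a positive minimum on the compact set `Sp m × unit sphere of W ι` (if it is empty any `c` works); homogeneity.
`seg_low`: fix `z`; `A = GI Λ G z`, `B = EK ε κ z` as operators of `W (ι × Λ)`: Hermitian, `A B + B A = 0` (entries: `G z k l ((-1)^ε(l) + (-1)^ε(k)) κ z μ λ`, zero since `G z k l = 0` when `ε k = ε l`), `B² = 1` (`κ² = 1`).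
So `‖((1-s) A + s B) v‖² = (1-s)² ‖A v‖² + s² ‖B v‖² + 2 s (1-s) Re inner (A v) (B v)`; the last term vanishes: `inner (A v) (B v) + inner (B v) (A v) = inner v ((A B + B A) v) = 0`; `‖B v‖ = ‖v‖`.
`‖A v‖² = ∑_λ ‖symb G z (v_λ)‖² ≥ cG² ‖v‖²` (`v_λ k = v (k, λ)`). With `c = min cG 1 / 2`: `(1-s)² cG² + s² ≥ min(cG,1)² ((1-s)² + s²) ≥ min(cG,1)²/2 ≥ c²`.
-/

set_option autoImplicit false

namespace Pool.Agent.Helper12.BP

private theorem GI_herm_aux {m : ℕ} {ι Λ : Type} [DecidableEq Λ] (G : C(Sp m, Matrix ι ι ℂ))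
    (hG : ∀ z, (G z).conjTranspose = G z) (z : Sp m) : (GI Λ G z).conjTranspose = GI Λ G z := by
  ext x y
  have h : star (G z y.1 x.1) = G z x.1 y.1 := by
    have := congrFun (congrFun (hG z) x.1) y.1
    simpa [Matrix.conjTranspose_apply] using this
  rw [Matrix.conjTranspose_apply]
  show star (if y.2 = x.2 then G z y.1 x.1 else 0) = (if x.2 = y.2 then G z x.1 y.1 else 0)
  by_cases hxy : x.2 = y.2
  · rw [if_pos hxy, if_pos hxy.symm, h]
  · rw [if_neg hxy, if_neg (fun h' => hxy h'.symm), star_zero]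

private theorem EK_herm_aux {m : ℕ} {ι Λ : Type} [DecidableEq ι] (ε : ι → Bool) (κ : C(Sp m, Matrix Λ Λ ℂ))
    (hκ : ∀ z, (κ z).conjTranspose = κ z) (z : Sp m) : (EK ε κ z).conjTranspose = EK ε κ z := by
  ext x y
  have h : star (κ z y.2 x.2) = κ z x.2 y.2 := by
    have := congrFun (congrFun (hκ z) x.2) y.2
    simpa [Matrix.conjTranspose_apply] using this
  rw [Matrix.conjTranspose_apply]
  show star (if y.1 = x.1 then (if ε y.1 then (-1 : ℂ) else 1) * κ z y.2 x.2 else 0) =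
    (if x.1 = y.1 then (if ε x.1 then (-1 : ℂ) else 1) * κ z x.2 y.2 else 0)
  by_cases hxy : x.1 = y.1
  · rw [if_pos hxy, if_pos hxy.symm, star_mul', h, hxy]
    congr 1
    split_ifs <;> simp
  · rw [if_neg hxy, if_neg (fun h' => hxy h'.symm), star_zero]

theorem low_of_inj {m : ℕ} {ι : Type} [Fintype ι] [DecidableEq ι] (A : C(Sp m, Matrix ι ι ℂ))
    (h : ∀ z, Function.Injective (symb A z)) : ∃ c : ℝ, 0 < c ∧ ∀ z (v : W ι), c * ‖v‖ ≤ ‖symb A z v‖ := by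
  let K : Set (Sp m × W ι) := Set.univ ×ˢ Metric.sphere (0 : W ι) 1
  have hK : IsCompact K := isCompact_univ.prod (isCompact_sphere _ _)
  have hcont : Continuous fun q : Sp m × W ι => ‖symb A q.1 q.2‖ := by
    have h1 : Continuous fun q : Sp m × W ι => symb A q.1 := (symb A).continuous.comp continuous_fst
    exact (h1.clm_apply continuous_snd).norm
  have hnorm : ∀ v : W ι, v ≠ 0 → ∃ u : W ι, ‖u‖ = 1 ∧ ∀ L : W ι →L[ℂ] W ι, ‖L v‖ = ‖L u‖ * ‖v‖ := by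
    intro v hv
    have hv' : 0 < ‖v‖ := norm_pos_iff.2 hv
    refine ⟨((‖v‖ : ℂ)⁻¹) • v, ?_, ?_⟩
    · rw [norm_smul, norm_inv, Complex.norm_real, norm_norm, inv_mul_cancel₀ hv'.ne']
    · intro L
      rw [L.map_smul, norm_smul, norm_inv, Complex.norm_real, norm_norm, mul_comm, ← mul_assoc,
        mul_inv_cancel₀ hv'.ne', one_mul]
  by_cases hne : K.Nonempty
  · obtain ⟨q, hq, hmin0⟩ := hK.exists_isMinOn hne hcont.continuousOn
    have hmin : ∀ q' ∈ K, ‖symb A q.1 q.2‖ ≤ ‖symb A q'.1 q'.2‖ := isMinOn_iff.1 hmin0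
    have hq1 : ‖q.2‖ = 1 := mem_sphere_zero_iff_norm.1 hq.2
    have hpos : 0 < ‖symb A q.1 q.2‖ := by
      rw [norm_pos_iff]
      intro h0
      have h1 : q.2 = 0 := h q.1 (by rw [h0, map_zero])
      rw [h1, norm_zero] at hq1
      exact zero_ne_one hq1
    refine ⟨‖symb A q.1 q.2‖, hpos, fun z v => ?_⟩
    by_cases hv : v = 0
    · rw [hv, norm_zero, mul_zero]
      exact norm_nonneg _
    · obtain ⟨u, hu, hL⟩ := hnorm v hv
      have hmem : (z, u) ∈ K := ⟨Set.mem_univ _, mem_sphere_zero_iff_norm.2 hu⟩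
      rw [hL (symb A z)]
      exact mul_le_mul_of_nonneg_right (hmin (z, u) hmem) (norm_nonneg _)
  · refine ⟨1, one_pos, fun z v => ?_⟩
    by_cases hv : v = 0
    · rw [hv, norm_zero, mul_zero]
      exact norm_nonneg _
    · obtain ⟨u, hu, hL⟩ := hnorm v hv
      exact (hne ⟨(z, u), Set.mem_univ _, mem_sphere_zero_iff_norm.2 hu⟩).elim

private theorem anti {m : ℕ} {ι Λ : Type} [Fintype ι] [DecidableEq ι] [Fintype Λ] [DecidableEq Λ] (ε : ι → Bool)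
    (G : C(Sp m, Matrix ι ι ℂ)) (hodd : ∀ z k l, ε k = ε l → G z k l = 0) (κ : C(Sp m, Matrix Λ Λ ℂ)) (z : Sp m) :
    GI Λ G z * EK ε κ z + EK ε κ z * GI Λ G z = 0 := by
  ext x y
  rw [Matrix.add_apply, Matrix.mul_apply, Matrix.mul_apply, Matrix.zero_apply]
  have h1 : ∑ w, GI Λ G z x w * EK ε κ z w y = G z x.1 y.1 * ((if ε y.1 then (-1 : ℂ) else 1) * κ z x.2 y.2) := by
    rw [Finset.sum_eq_single (y.1, x.2)]
    · show (if x.2 = x.2 then G z x.1 y.1 else 0) *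
        (if y.1 = y.1 then (if ε y.1 then (-1 : ℂ) else 1) * κ z x.2 y.2 else 0) = _
      rw [if_pos rfl, if_pos rfl]
    · rintro ⟨w1, w2⟩ _ hw
      show (if x.2 = w2 then G z x.1 w1 else 0) *
        (if w1 = y.1 then (if ε w1 then (-1 : ℂ) else 1) * κ z w2 y.2 else 0) = 0
      by_cases ha : x.2 = w2
      · by_cases hb : w1 = y.1
        · exact (hw (by rw [ha, hb])).elim
        · rw [if_neg hb, mul_zero]
      · rw [if_neg ha, zero_mul]
    · intro hh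
      exact (hh (Finset.mem_univ _)).elim
  have h2 : ∑ w, EK ε κ z x w * GI Λ G z w y = ((if ε x.1 then (-1 : ℂ) else 1) * κ z x.2 y.2) * G z x.1 y.1 := by
    rw [Finset.sum_eq_single (x.1, y.2)]
    · show (if x.1 = x.1 then (if ε x.1 then (-1 : ℂ) else 1) * κ z x.2 y.2 else 0) *
        (if y.2 = y.2 then G z x.1 y.1 else 0) = _
      rw [if_pos rfl, if_pos rfl]
    · rintro ⟨w1, w2⟩ _ hw
      show (if x.1 = w1 then (if ε x.1 then (-1 : ℂ) else 1) * κ z x.2 w2 else 0) *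
        (if w2 = y.2 then G z w1 y.1 else 0) = 0
      by_cases ha : x.1 = w1
      · by_cases hb : w2 = y.2
        · exact (hw (by rw [ha, hb])).elim
        · rw [if_neg hb, mul_zero]
      · rw [if_neg ha, zero_mul]
    · intro hh
      exact (hh (Finset.mem_univ _)).elim
  rw [h1, h2]
  by_cases he : ε x.1 = ε y.1
  · rw [hodd z _ _ he]
    ring
  · cases hx : ε x.1 <;> cases hy : ε y.1
    · exact (he (by rw [hx, hy])).elim
    · simp
      ring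
    · simp
      ring
    · exact (he (by rw [hx, hy])).elim

private theorem EK_sq {m : ℕ} {ι Λ : Type} [Fintype ι] [DecidableEq ι] [Fintype Λ] [DecidableEq Λ] (ε : ι → Bool)
    (κ : C(Sp m, Matrix Λ Λ ℂ)) (hκ1 : ∀ z, κ z * κ z = 1) (z : Sp m) : EK ε κ z * EK ε κ z = 1 := by
  ext x y
  rw [Matrix.mul_apply, Fintype.sum_prod_type]
  have h1 : ∀ w1, ∑ w2, EK ε κ z x (w1, w2) * EK ε κ z (w1, w2) y =
      if w1 = x.1 then (if x.1 = y.1 then ∑ w2, κ z x.2 w2 * κ z w2 y.2 else 0) else 0 := by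
    intro w1
    have h2 : ∀ w2, EK ε κ z x (w1, w2) * EK ε κ z (w1, w2) y =
        (if x.1 = w1 then (if ε x.1 then (-1 : ℂ) else 1) * κ z x.2 w2 else 0) *
        (if w1 = y.1 then (if ε w1 then (-1 : ℂ) else 1) * κ z w2 y.2 else 0) := fun w2 => rfl
    simp only [h2]
    by_cases ha : w1 = x.1
    · subst ha
      by_cases hb : x.1 = y.1
      · simp only [if_pos hb, if_true]
        refine Finset.sum_congr rfl fun w2 _ => ?_
        split_ifs <;> ring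
      · simp [hb]
    · rw [if_neg ha]
      refine Finset.sum_eq_zero fun w2 _ => ?_
      rw [if_neg (fun h => ha h.symm), zero_mul]
  simp only [h1]
  rw [Finset.sum_ite_eq' Finset.univ x.1]
  simp only [Finset.mem_univ, if_true]
  have h3 : ∑ w2, κ z x.2 w2 * κ z w2 y.2 = (1 : Matrix Λ Λ ℂ) x.2 y.2 := by
    rw [← hκ1 z, Matrix.mul_apply]
  rw [h3, Matrix.one_apply, Matrix.one_apply]
  by_cases ha : x.1 = y.1
  · by_cases hb : x.2 = y.2
    · rw [if_pos ha, if_pos hb, if_pos (Prod.ext ha hb)]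
    · rw [if_pos ha, if_neg hb, if_neg (fun h => hb (congrArg Prod.snd h))]
  · rw [if_neg ha, if_neg (fun h => ha (congrArg Prod.fst h))]

private theorem GI_low {m : ℕ} {ι Λ : Type} [Fintype ι] [DecidableEq ι] [Fintype Λ] [DecidableEq Λ]
    (G : C(Sp m, Matrix ι ι ℂ)) (cG : ℝ) (hcG : 0 < cG) (z : Sp m) (hlow : ∀ v : W ι, cG * ‖v‖ ≤ ‖symb G z v‖)
    (v : W (ι × Λ)) : cG ^ 2 * ‖v‖ ^ 2 ≤ ‖symb (GI Λ G) z v‖ ^ 2 := by
  let sl : Λ → W ι := fun l => WithLp.toLp 2 (fun k => v (k, l))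
  have h1 : ‖v‖ ^ 2 = ∑ l, ‖sl l‖ ^ 2 := by
    rw [EuclideanSpace.norm_sq_eq, Fintype.sum_prod_type_right]
    refine Finset.sum_congr rfl fun l _ => ?_
    rw [EuclideanSpace.norm_sq_eq]
  have h2 : ‖symb (GI Λ G) z v‖ ^ 2 = ∑ l, ‖symb G z (sl l)‖ ^ 2 := by
    rw [EuclideanSpace.norm_sq_eq, Fintype.sum_prod_type_right]
    refine Finset.sum_congr rfl fun l _ => ?_
    rw [EuclideanSpace.norm_sq_eq]
    refine Finset.sum_congr rfl fun k _ => ?_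
    congr 2
    rw [symb_apply, symb_apply, Fintype.sum_prod_type]
    refine Finset.sum_congr rfl fun k' _ => ?_
    have h3 : ∀ l', GI Λ G z (k, l) (k', l') * v (k', l') = if l = l' then G z k k' * v (k', l') else 0 := by
      intro l'
      show (if l = l' then G z k k' else 0) * v (k', l') = _
      by_cases h : l = l'
      · rw [if_pos h, if_pos h]
      · rw [if_neg h, if_neg h, zero_mul]
    simp only [h3]
    rw [Finset.sum_ite_eq Finset.univ l]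
    simp only [Finset.mem_univ, if_true]
    rfl
  rw [h1, h2, Finset.mul_sum]
  refine Finset.sum_le_sum fun l _ => ?_
  have h4 := hlow (sl l)
  have h5 : 0 ≤ cG * ‖sl l‖ := by positivity
  calc cG ^ 2 * ‖sl l‖ ^ 2 = (cG * ‖sl l‖) ^ 2 := by ring
    _ ≤ ‖symb G z (sl l)‖ ^ 2 := pow_le_pow_left₀ h5 h4 2

theorem seg_low {m : ℕ} {ι Λ : Type} [Fintype ι] [DecidableEq ι] [Fintype Λ] [DecidableEq Λ] (ε : ι → Bool)
    (G : C(Sp m, Matrix ι ι ℂ)) (hG : ∀ z, (G z).conjTranspose = G z) (hodd : ∀ z k l, ε k = ε l → G z k l = 0)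
    (cG : ℝ) (hcG : 0 < cG) (hlow : ∀ z (v : W ι), cG * ‖v‖ ≤ ‖symb G z v‖)
    (κ : C(Sp m, Matrix Λ Λ ℂ)) (hκ : ∀ z, (κ z).conjTranspose = κ z) (hκ1 : ∀ z, κ z * κ z = 1) :
    ∃ c : ℝ, 0 < c ∧ ∀ s ∈ Set.Icc (0 : ℝ) 1, ∀ z (v : W (ι × Λ)),
      c * ‖v‖ ≤ ‖((1 - s : ℝ) : ℂ) • symb (GI Λ G) z v + (s : ℂ) • symb (EK ε κ) z v‖ := by
  have hmin : 0 < min cG 1 := lt_min hcG one_pos
  refine ⟨min cG 1 / 2, by positivity, fun s hs z v => ?_⟩
  obtain ⟨hs0, hs1⟩ := hs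
  let TA : W (ι × Λ) →L[ℂ] W (ι × Λ) := Matrix.toEuclideanCLM (𝕜 := ℂ) (GI Λ G z)
  let TB : W (ι × Λ) →L[ℂ] W (ι × Λ) := Matrix.toEuclideanCLM (𝕜 := ℂ) (EK ε κ z)
  have hTA : star TA = TA := by
    show star (Matrix.toEuclideanCLM (𝕜 := ℂ) (GI Λ G z)) = _
    rw [← map_star, Matrix.star_eq_conjTranspose, GI_herm_aux G hG]
  have hTB : star TB = TB := by
    show star (Matrix.toEuclideanCLM (𝕜 := ℂ) (EK ε κ z)) = _
    rw [← map_star, Matrix.star_eq_conjTranspose, EK_herm_aux ε κ hκ]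
  have hAB : TA * TB + TB * TA = 0 := by
    show Matrix.toEuclideanCLM (𝕜 := ℂ) (GI Λ G z) * Matrix.toEuclideanCLM (𝕜 := ℂ) (EK ε κ z) +
      Matrix.toEuclideanCLM (𝕜 := ℂ) (EK ε κ z) * Matrix.toEuclideanCLM (𝕜 := ℂ) (GI Λ G z) = 0
    rw [← map_mul, ← map_mul, ← map_add, anti ε G hodd κ z, map_zero]
  have hBB : TB * TB = 1 := by
    show Matrix.toEuclideanCLM (𝕜 := ℂ) (EK ε κ z) * Matrix.toEuclideanCLM (𝕜 := ℂ) (EK ε κ z) = 1
    rw [← map_mul, EK_sq ε κ hκ1 z, map_one]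
  have hiA : ∀ x y : W (ι × Λ), inner ℂ (TA x) y = inner ℂ x (TA y) := by
    intro x y
    have h := ContinuousLinearMap.adjoint_inner_right TA x y
    rw [← ContinuousLinearMap.star_eq_adjoint, hTA] at h
    exact h.symm
  have hiB : ∀ x y : W (ι × Λ), inner ℂ (TB x) y = inner ℂ x (TB y) := by
    intro x y
    have h := ContinuousLinearMap.adjoint_inner_right TB x y
    rw [← ContinuousLinearMap.star_eq_adjoint, hTB] at h
    exact h.symm
  have hsum : inner ℂ (TA v) (TB v) + inner ℂ (TB v) (TA v) = 0 := by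
    rw [hiA, hiB, ← inner_add_right]
    have h1 : TA (TB v) + TB (TA v) = (TA * TB + TB * TA) v := rfl
    rw [h1, hAB]
    simp
  have hre : RCLike.re (inner ℂ (TA v) (TB v)) = 0 := by
    have h1 := congrArg RCLike.re hsum
    rw [map_add, inner_re_symm (𝕜 := ℂ) (TB v) (TA v), map_zero] at h1
    linarith
  have hb : ‖TB v‖ ^ 2 = ‖v‖ ^ 2 := by
    rw [@norm_sq_eq_re_inner ℂ, hiB]
    have h1 : TB (TB v) = (TB * TB) v := rfl
    rw [h1, hBB]
    exact (@norm_sq_eq_re_inner ℂ _ _ _ _ v).symm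
  have ha : cG ^ 2 * ‖v‖ ^ 2 ≤ ‖TA v‖ ^ 2 := GI_low G cG hcG z (hlow z) v
  have hn : ‖((1 - s : ℝ) : ℂ) • TA v + (s : ℂ) • TB v‖ ^ 2 = (1 - s) ^ 2 * ‖TA v‖ ^ 2 + s ^ 2 * ‖TB v‖ ^ 2 := by
    rw [@norm_add_sq ℂ, norm_smul, norm_smul, Complex.norm_real, Complex.norm_real, inner_smul_left, inner_smul_right]
    have h1 : RCLike.re ((starRingEnd ℂ) ((1 - s : ℝ) : ℂ) * ((s : ℂ) * inner ℂ (TA v) (TB v))) = 0 := by
      rw [Complex.conj_ofReal]
      have h2 : ((1 - s : ℝ) : ℂ) * ((s : ℂ) * inner ℂ (TA v) (TB v)) =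
          (((1 - s) * s : ℝ) : ℂ) * inner ℂ (TA v) (TB v) := by
        push_cast
        ring
      rw [h2]
      have h3 := RCLike.re_ofReal_mul (K := ℂ) ((1 - s) * s) (inner ℂ (TA v) (TB v))
      rw [hre, mul_zero] at h3
      exact h3
    rw [h1, mul_pow, mul_pow, Real.norm_eq_abs, Real.norm_eq_abs, sq_abs, sq_abs]
    ring
  show min cG 1 / 2 * ‖v‖ ≤ ‖((1 - s : ℝ) : ℂ) • TA v + (s : ℂ) • TB v‖
  have hnn : 0 ≤ min cG 1 / 2 * ‖v‖ := by positivity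
  rw [← sq_le_sq₀ hnn (norm_nonneg _), hn, hb]
  have h1 : (min cG 1) ^ 2 ≤ cG ^ 2 := pow_le_pow_left₀ hmin.le (min_le_left _ _) 2
  have h2 : (min cG 1) ^ 2 ≤ 1 := by
    have := pow_le_pow_left₀ hmin.le (min_le_right cG 1) 2
    simpa using this
  have hv : 0 ≤ ‖v‖ ^ 2 := by positivity
  have h3 : (min cG 1) ^ 2 * ‖v‖ ^ 2 ≤ ‖TA v‖ ^ 2 :=
    (mul_le_mul_of_nonneg_right h1 hv).trans ha
  have h4 : (min cG 1) ^ 2 * ‖v‖ ^ 2 ≤ ‖v‖ ^ 2 := by
    have := mul_le_mul_of_nonneg_right h2 hv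
    simpa using this
  have h5 : (1 - s) ^ 2 * ((min cG 1) ^ 2 * ‖v‖ ^ 2) ≤ (1 - s) ^ 2 * ‖TA v‖ ^ 2 :=
    mul_le_mul_of_nonneg_left h3 (sq_nonneg _)
  have h6 : s ^ 2 * ((min cG 1) ^ 2 * ‖v‖ ^ 2) ≤ s ^ 2 * ‖v‖ ^ 2 :=
    mul_le_mul_of_nonneg_left h4 (sq_nonneg _)
  have h7 : 0 ≤ (min cG 1) ^ 2 * ‖v‖ ^ 2 := by positivity
  have h8 : (1 / 4 : ℝ) ≤ (1 - s) ^ 2 + s ^ 2 := by nlinarith [sq_nonneg (2 * s - 1)]
  calc (min cG 1 / 2 * ‖v‖) ^ 2 = 1 / 4 * ((min cG 1) ^ 2 * ‖v‖ ^ 2) := by ring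
    _ ≤ ((1 - s) ^ 2 + s ^ 2) * ((min cG 1) ^ 2 * ‖v‖ ^ 2) := mul_le_mul_of_nonneg_right h8 h7
    _ ≤ (1 - s) ^ 2 * ‖TA v‖ ^ 2 + s ^ 2 * ‖v‖ ^ 2 := by linarith

theorem GI_herm {m : ℕ} {ι Λ : Type} [DecidableEq Λ] (G : C(Sp m, Matrix ι ι ℂ))
    (hG : ∀ z, (G z).conjTranspose = G z) (z : Sp m) : (GI Λ G z).conjTranspose = GI Λ G z :=
  GI_herm_aux G hG z

theorem EK_herm {m : ℕ} {ι Λ : Type} [DecidableEq ι] (ε : ι → Bool) (κ : C(Sp m, Matrix Λ Λ ℂ))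
    (hκ : ∀ z, (κ z).conjTranspose = κ z) (z : Sp m) : (EK ε κ z).conjTranspose = EK ε κ z :=
  EK_herm_aux ε κ hκ z

end Pool.Agent.Helper12.BP
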