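import Pool.Agent.Helper12.BP.L2

/-!
PROJECT BP, block K, module K-14 (Slice): `VV` for `G ⊗ 1`.

PROOF. Bounded operators `sl λ : l2 (Hx m (ι × Λ)) → l2 (Hx m ι)`, `(sl λ x) i = x (i.1, (i.2, λ))` and `ins λ` in the other direction (extension by zero to the other `λ`).
`T' (ins λ x) = ins λ (T x)` : `clm_ext`, entries: `(T' e_(α,(l,λ)))_(β,(k,μ)) = [μ = λ] tt (ent G k l) β α` (for `μ ≠ λ` the function `ent (GI Λ G) (k,μ) (l,λ)` is `0`, so `tt = 0`).
`x = ∑_λ ins λ (sl λ x)`, so `sl λ (T' x) = T (sl λ x)`. Hence `v ↦ (sl λ v)_λ` is a linear bijection of `VV T' A1 D` onto `∏_λ VV T (A1_λ) (D_λ)`;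
`Module.finrank_pi_fintype` (each factor is finite dimensional: it is the image of `VV T' A1 D` under `sl λ`).
-/

set_option autoImplicit false

namespace Pool.Agent.Helper12.BP

private theorem sli_coord {I J : Type} [DecidableEq I] [DecidableEq J] (T : l2 I →L[ℂ] l2 J)
    (x : l2 I) (i : J) : HasSum (fun j => x j * T (lp.single 2 j (1 : ℂ)) i) (T x i) := by
  have h := lp.hasSum_single (E := fun _ : I => ℂ) (p := 2) (by norm_num) x
  have h2 := h.mapL ((innerSL ℂ (lp.single 2 i (1 : ℂ) : l2 J)).comp T)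
  have h3 : ∀ y : l2 I, (innerSL ℂ (lp.single 2 i (1 : ℂ) : l2 J)).comp T y = T y i := by
    intro y
    rw [ContinuousLinearMap.comp_apply, innerSL_apply_apply, lp.inner_single_left]
    simp
  rw [h3] at h2
  have e : (fun j => x j * T (lp.single 2 j (1 : ℂ)) i) =
      fun b => ((innerSL ℂ (lp.single 2 i (1 : ℂ) : l2 J)).comp T) (lp.single 2 b (x b)) := by
    funext j
    rw [h3]
    have h4 : lp.single 2 j (x j) = x j • (lp.single 2 j (1 : ℂ) : l2 I) := by
      rw [← lp.single_smul, smul_eq_mul, mul_one]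
    rw [h4, map_smul]
    rfl
  rw [e]
  exact h2

/-- restriction of square summable families -/
private noncomputable def sliR {I J : Type} (e : I → J) (he : Function.Injective e) :
    l2 J →ₗ[ℂ] l2 I where
  toFun x := ⟨fun i => x (e i), by
    have h := (memℓp_gen_iff (by norm_num : 0 < (2 : ENNReal).toReal)).1 (lp.memℓp x)
    refine (memℓp_gen_iff (by norm_num)).2 ?_
    exact h.comp_injective he⟩
  map_add' x y := by
    ext i
    rfl
  map_smul' c x := by
    ext i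
    rfl

private theorem sliR_apply {I J : Type} (e : I → J) (he : Function.Injective e) (x : l2 J) (i : I) :
    sliR e he x i = x (e i) := rfl

private def sliE (m : ℕ) (ι Λ : Type) (l : Λ) (i : Hx m ι) : Hx m (ι × Λ) := (i.1, (i.2, l))

private theorem sliE_inj (m : ℕ) (ι Λ : Type) (l : Λ) : Function.Injective (sliE m ι Λ l) := by
  intro i j h
  have h1 : i.1 = j.1 := congrArg (fun q : Hx m (ι × Λ) => q.1) h
  have h2 : i.2 = j.2 := congrArg (fun q : Hx m (ι × Λ) => q.2.1) h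
  exact Prod.ext h1 h2

/-- a family of square summable families glued together -/
private theorem sli_glue {m : ℕ} {ι Λ : Type} [Fintype Λ] [DecidableEq Λ]
    (w : Λ → l2 (Hx m ι)) : ∃ v : l2 (Hx m (ι × Λ)), ∀ i, v i = w i.2.2 (i.1, i.2.1) := by
  have hm : Memℓp (E := fun _ : Hx m (ι × Λ) => ℂ) (fun i => w i.2.2 (i.1, i.2.1)) 2 := by
    refine (memℓp_gen_iff (by norm_num)).2 ?_
    have h1 : ∀ l : Λ, Summable fun i : Hx m (ι × Λ) =>
        if i.2.2 = l then ‖w l (i.1, i.2.1)‖ ^ (2 : ENNReal).toReal else 0 := by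
      intro l
      refine ((sliE_inj m ι Λ l).summable_iff ?_).1 ?_
      · intro i hi
        rw [if_neg]
        intro h
        apply hi
        exact ⟨(i.1, i.2.1), by rw [sliE, ← h]⟩
      · have h := (memℓp_gen_iff (by norm_num : 0 < (2 : ENNReal).toReal)).1 (lp.memℓp (w l))
        refine h.congr fun i => ?_
        show _ = if l = l then _ else _
        rw [if_pos rfl]
        rfl
    have h2 := summable_sum (s := Finset.univ) fun l _ => h1 l
    refine h2.congr fun i => ?_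
    rw [Finset.sum_ite_eq Finset.univ i.2.2]
    simp
  exact ⟨⟨_, hm⟩, fun i => rfl⟩

private theorem sli_key {m : ℕ} {ι Λ : Type} [DecidableEq ι] [DecidableEq Λ]
    (G : C(Sp m, Matrix ι ι ℂ)) (T : l2 (Hx m ι) →L[ℂ] l2 (Hx m ι)) (hT : IsToep G T)
    (T' : l2 (Hx m (ι × Λ)) →L[ℂ] l2 (Hx m (ι × Λ))) (hT' : IsToep (GI Λ G) T')
    (v : l2 (Hx m (ι × Λ))) (l : Λ) (i : Hx m ι) :
    T' v (sliE m ι Λ l i) = T (sliR (sliE m ι Λ l) (sliE_inj m ι Λ l) v) i := by
  have h1 := sli_coord T' v (sliE m ι Λ l i)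
  have h2 := sli_coord T (sliR (sliE m ι Λ l) (sliE_inj m ι Λ l) v) i
  have h3 : HasSum ((fun j => v j * T' (lp.single 2 j (1 : ℂ)) (sliE m ι Λ l i)) ∘
      sliE m ι Λ l) (T' v (sliE m ι Λ l i)) := by
    refine ((sliE_inj m ι Λ l).hasSum_iff ?_).2 h1
    intro j hj
    have hne : ¬ l = j.2.2 := by
      intro h
      apply hj
      exact ⟨(j.1, j.2.1), by rw [sliE, h]⟩
    rw [hT']
    have h4 : ent (GI Λ G) (sliE m ι Λ l i).2 j.2 = 0 := by
      ext z
      show (if l = j.2.2 then _ else (0 : ℂ)) = 0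
      rw [if_neg hne]
    rw [h4]
    unfold tt
    simp
  refine h3.unique ?_
  convert h2 using 2 with j
  show v (sliE m ι Λ l j) * T' (lp.single 2 (sliE m ι Λ l j) (1 : ℂ)) (sliE m ι Λ l i) =
    v (sliE m ι Λ l j) * T (lp.single 2 j (1 : ℂ)) i
  rw [hT', hT]
  have h4 : ent (GI Λ G) (sliE m ι Λ l i).2 (sliE m ι Λ l j).2 = ent G i.2 j.2 := by
    ext z
    show (if l = l then G z i.2 j.2 else (0 : ℂ)) = G z i.2 j.2
    rw [if_pos rfl]
  rw [h4]
  rfl

theorem slice_dim {m : ℕ} {ι Λ : Type} [Fintype ι] [DecidableEq ι] [Fintype Λ] [DecidableEq Λ]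
    (G : C(Sp m, Matrix ι ι ℂ)) (T : l2 (Hx m ι) →L[ℂ] l2 (Hx m ι)) (hT : IsToep G T)
    (T' : l2 (Hx m (ι × Λ)) →L[ℂ] l2 (Hx m (ι × Λ))) (hT' : IsToep (GI Λ G) T')
    (A1 D : Set (Hx m (ι × Λ))) (fd : FiniteDimensional ℂ (VV T' A1 D)) :
    Module.finrank ℂ (VV T' A1 D) =
      ∑ l : Λ, Module.finrank ℂ (VV T {i | (i.1, (i.2, l)) ∈ A1} {i | (i.1, (i.2, l)) ∈ D}) := by
  let F : VV T' A1 D →ₗ[ℂ] (∀ l : Λ, VV T {i | (i.1, (i.2, l)) ∈ A1} {i | (i.1, (i.2, l)) ∈ D}) :=
    LinearMap.pi fun l => LinearMap.codRestrict _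
      ((sliR (sliE m ι Λ l) (sliE_inj m ι Λ l)).comp (VV T' A1 D).subtype) (by
        intro v
        refine ⟨fun i hi => ?_, fun i hi => ?_⟩
        · show v.1 (sliE m ι Λ l i) = 0
          exact v.2.1 _ hi
        · show T (sliR (sliE m ι Λ l) (sliE_inj m ι Λ l) v.1) i = 0
          rw [← sli_key G T hT T' hT']
          exact v.2.2 _ hi)
  have hF : ∀ (v : VV T' A1 D) (l : Λ) (i : Hx m ι), ((F v l : _) : l2 (Hx m ι)) i =
      (v : l2 (Hx m (ι × Λ))) (sliE m ι Λ l i) := fun v l i => rfl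
  have hinj : Function.Injective F := by
    intro v v' h
    apply Subtype.ext
    ext i
    have h1 := hF v i.2.2 (i.1, i.2.1)
    have h2 := hF v' i.2.2 (i.1, i.2.1)
    rw [h] at h1
    have h3 : sliE m ι Λ i.2.2 (i.1, i.2.1) = i := rfl
    rw [h3] at h1 h2
    rw [← h1, ← h2]
  have hsurj : Function.Surjective F := by
    intro w
    obtain ⟨v, hv⟩ := sli_glue fun l => ((w l : _) : l2 (Hx m ι))
    have hv2 : ∀ l : Λ, sliR (sliE m ι Λ l) (sliE_inj m ι Λ l) v = ((w l : _) : l2 (Hx m ι)) := by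
      intro l
      ext i
      rw [sliR_apply, hv]
      rfl
    have hmem : v ∈ VV T' A1 D := by
      refine ⟨fun i hi => ?_, fun i hi => ?_⟩
      · rw [hv]
        exact (w i.2.2).2.1 _ hi
      · have h := sli_key G T hT T' hT' v i.2.2 (i.1, i.2.1)
        rw [hv2] at h
        have h3 : sliE m ι Λ i.2.2 (i.1, i.2.1) = i := rfl
        rw [h3] at h
        rw [h]
        exact (w i.2.2).2.2 _ hi
    refine ⟨⟨v, hmem⟩, ?_⟩
    funext l
    apply Subtype.ext
    exact hv2 l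
  let E := LinearEquiv.ofBijective F ⟨hinj, hsurj⟩
  have : FiniteDimensional ℂ
      (∀ l : Λ, VV T {i | (i.1, (i.2, l)) ∈ A1} {i | (i.1, (i.2, l)) ∈ D}) :=
    LinearEquiv.finiteDimensional E
  have : ∀ l : Λ, FiniteDimensional ℂ
      (VV T {i | (i.1, (i.2, l)) ∈ A1} {i | (i.1, (i.2, l)) ∈ D}) := by
    intro l
    exact Module.Finite.of_surjective
      (LinearMap.proj (R := ℂ) (φ := fun l : Λ =>
        VV T {i | (i.1, (i.2, l)) ∈ A1} {i | (i.1, (i.2, l)) ∈ D}) l)
      (Function.surjective_eval l)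
  rw [E.finrank_eq, Module.finrank_pi_fintype]

end Pool.Agent.Helper12.BP
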