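import Pool.Agent.Helper12.BP.Cnt
import Pool.Agent.Helper12.BP.Hom
import Pool.Agent.Helper12.BP.OneCnt
import Pool.Agent.Helper12.BP.Slice
import Pool.Agent.Helper12.BP.Seg
import Pool.Agent.Helper12.BP.Low

/-!
PROJECT BP, block K, module K-20 (Gen): the homotopy from `G ⊗ 1` to `(-1)^ε ⊗ κ`.

PROOF. Index type `X = Hx m (ι × Λ)`. `TA`, `TB'` Toeplitz operators of `GI Λ G`, `EK ε κ` (`toepEx`); self adjoint (`toep_sa`, `GI_herm`, `EK_herm`). `seg_low` and `toepLow` give `N1`, `c' > 0` with the lower bound for all `s` for families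
vanishing on `L = {deg < N1}`. Let `N0 = N1 + ∑ d`, `N ≥ N0`, `c` given.
`A0 = {x | ε x.2.1 = par x.2.2 ∧ deg x.1 + w x.2.1 + d x.2.2 = c}`, `A1` the same with `≠`, `P = {x | N ≤ deg x.1 + d x.2.2}`, `D = A0 ∩ P` (so `i ∈ D` implies `deg ≥ N1`: `i ∉ L`). `A0 \ D` is finite (`deg < N`).
Both operators map `l²(A0)` to `l²(A1)` and back (`toep_supp`): `GI`: entry zero unless `x.2.2 = y.2.2`, `ε` different and (hcl) equal class. `EK`: entry zero unless `x.2.1 = y.2.1`, `par` different (hκodd) and `deg β + d μ = deg α + d l` (hκ4; the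
sign factor: `ent (EK ε κ) (k,μ) (k,l) = ± ent κ μ l` pointwise, so its `tt` is `±` that of `κ`).
`hom_dim`: `finrank (VV TA A1 D) = finrank (VV TB' A1 D)`. Left side: `slice_dim`; the slices of `A1`, `D` are `SA ε w (!par l) (c - d l)` and `{i ∈ SA ε w (par l) (c - d l) | N - d l ≤ deg}`, so it is `∑_l DD T ε w (par l) (N - d l) (c - d l)`.
Right side: `one_cnt` with `P` (`EK` preserves `deg + d`): `(A1 \ P).ncard = ∑_l ee (!par l) (N - d l) (c - d l)` (fibres over `l`; `deg + d l < N` iff `deg < N - d l`).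
-/

set_option autoImplicit false

namespace Pool.Agent.Helper12.BP

/-- The Toeplitz matrix of the zero function is zero. -/
private theorem tt_zero' {m : ℕ} (f : C(Sp m, ℂ)) (h : ∀ z, f z = 0) (β α : Fin m → ℕ) : tt f β α = 0 := by
  unfold tt
  have : ∀ z, f z * (mono α z * (starRingEnd ℂ) (mono β z)) = 0 := fun z => by rw [h z, zero_mul]
  simp [this]

theorem gen {m : ℕ} (hm : 0 < m) {ι Λ : Type} [Fintype ι] [DecidableEq ι] [Fintype Λ] [DecidableEq Λ]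
    (ε : ι → Bool) (w : ι → ZMod 4)
    (G : C(Sp m, Matrix ι ι ℂ)) (hG : ∀ z, (G z).conjTranspose = G z) (hodd : ∀ z k l, ε k = ε l → G z k l = 0)
    (hcl : ∀ k l (β α : Fin m → ℕ), tt (ent G k l) β α ≠ 0 → ((deg β : ℕ) : ZMod 4) + w k = (deg α : ℕ) + w l)
    (cG : ℝ) (hcG : 0 < cG) (hlow : ∀ z (v : W ι), cG * ‖v‖ ≤ ‖symb G z v‖)
    (T : l2 (Hx m ι) →L[ℂ] l2 (Hx m ι)) (hT : IsToep G T)
    (par : Λ → Bool) (d : Λ → ℕ) (κ : C(Sp m, Matrix Λ Λ ℂ)) (hκ : ∀ z, (κ z).conjTranspose = κ z)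
    (hκ1 : ∀ z, κ z * κ z = 1) (hκ4 : ∀ u l (β α : Fin m → ℕ), tt (ent κ u l) β α ≠ 0 → deg β + d u = deg α + d l)
    (hκodd : ∀ z u l, par u = par l → κ z u l = 0) :
    ∃ N0 : ℕ, ∀ N c, N0 ≤ N → ∑ l : Λ, (DD T ε w (par l) (N - d l) (c - (d l : ℕ)) : ℤ) =
      ∑ l : Λ, (ee m ε w (!par l) (N - d l) (c - (d l : ℕ)) : ℤ) := by
  classical
  -- Toeplitz operators of the two ends
  obtain ⟨TA, hTA⟩ := toepEx (m := m) (ι := ι × Λ) hm (GI Λ G)
  obtain ⟨TE, hTE⟩ := toepEx (m := m) (ι := ι × Λ) hm (EK ε κ)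
  have saA := toep_sa (GI Λ G) (GI_herm G hG) TA hTA
  have saE := toep_sa (EK ε κ) (EK_herm ε κ hκ) TE hTE
  obtain ⟨c0, hc0, hseg⟩ := seg_low ε G hG hodd cG hcG hlow κ hκ hκ1
  obtain ⟨N1, c', hc', hN1⟩ := toepLow hm (GI Λ G) (EK ε κ) TA TE hTA hTE c0 hc0 hseg
  refine ⟨N1 + ∑ l, d l, fun N c hN => ?_⟩
  have hdN : ∀ l, N1 + d l ≤ N := by
    intro l
    have : d l ≤ ∑ l, d l := Finset.single_le_sum (fun _ _ => Nat.zero_le _) (Finset.mem_univ l)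
    omega
  -- the index sets
  set A0 : Set (Hx m (ι × Λ)) :=
    {x | ε x.2.1 = par x.2.2 ∧ ((deg x.1 : ℕ) : ZMod 4) + w x.2.1 + (d x.2.2 : ℕ) = c} with hA0
  set A1 : Set (Hx m (ι × Λ)) :=
    {x | ε x.2.1 ≠ par x.2.2 ∧ ((deg x.1 : ℕ) : ZMod 4) + w x.2.1 + (d x.2.2 : ℕ) = c} with hA1
  set P : Set (Hx m (ι × Λ)) := {x | N ≤ deg x.1 + d x.2.2} with hP
  set L : Set (Hx m (ι × Λ)) := {x | deg x.1 < N1} with hL
  have hfin : ∀ k, {i : Hx m (ι × Λ) | deg i.1 < k}.Finite := fun k => deg_finite k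
  -- entries of the two operators
  have entA : ∀ (i j : Hx m (ι × Λ)), tt (ent (GI Λ G) i.2 j.2) i.1 j.1 ≠ 0 →
      i.2.2 = j.2.2 ∧ ε i.2.1 ≠ ε j.2.1 ∧ ((deg i.1 : ℕ) : ZMod 4) + w i.2.1 = (deg j.1 : ℕ) + w j.2.1 := by
    intro i j hne
    have h1 : i.2.2 = j.2.2 := by
      by_contra h
      exact hne (tt_zero' _ (fun z => if_neg h) _ _)
    have h2 : ent (GI Λ G) i.2 j.2 = ent G i.2.1 j.2.1 := by
      ext z
      exact if_pos h1
    rw [h2] at hne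
    refine ⟨h1, ?_, hcl _ _ _ _ hne⟩
    intro h
    exact hne (tt_zero' _ (fun z => hodd z _ _ h) _ _)
  have entE : ∀ (i j : Hx m (ι × Λ)), tt (ent (EK ε κ) i.2 j.2) i.1 j.1 ≠ 0 →
      i.2.1 = j.2.1 ∧ par i.2.2 ≠ par j.2.2 ∧ deg i.1 + d i.2.2 = deg j.1 + d j.2.2 := by
    intro i j hne
    have h1 : i.2.1 = j.2.1 := by
      by_contra h
      exact hne (tt_zero' _ (fun z => if_neg h) _ _)
    have h3 : par i.2.2 ≠ par j.2.2 := by
      intro h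
      refine hne (tt_zero' _ (fun z => ?_) _ _)
      change (if i.2.1 = j.2.1 then (if ε i.2.1 then (-1 : ℂ) else 1) * κ z i.2.2 j.2.2 else 0) = 0
      rw [if_pos h1, hκodd z _ _ h, mul_zero]
    refine ⟨h1, h3, hκ4 _ _ _ _ ?_⟩
    intro h
    apply hne
    unfold tt at h ⊢
    have h4 : ∀ z, (ent (EK ε κ) i.2 j.2) z * (mono j.1 z * (starRingEnd ℂ) (mono i.1 z)) =
        (if ε i.2.1 then (-1 : ℂ) else 1) * ((ent κ i.2.2 j.2.2) z * (mono j.1 z * (starRingEnd ℂ) (mono i.1 z))) := by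
      intro z
      have h5 : (ent (EK ε κ) i.2 j.2) z = (if ε i.2.1 then (-1 : ℂ) else 1) * (ent κ i.2.2 j.2.2) z := by
        change (if i.2.1 = j.2.1 then (if ε i.2.1 then (-1 : ℂ) else 1) * κ z i.2.2 j.2.2 else 0) = _
        rw [if_pos h1]
        rfl
      rw [h5, mul_assoc]
    simp_rw [h4]
    rw [MeasureTheory.integral_const_mul, mul_div_assoc, h, mul_zero]
  -- mapping properties
  have mA : ∀ (S S' : Set (Hx m (ι × Λ))), (∀ i j : Hx m (ι × Λ), j ∈ S → tt (ent (GI Λ G) i.2 j.2) i.1 j.1 ≠ 0 → i ∈ S') →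
      ∀ x : l2 (Hx m (ι × Λ)), (∀ i, i ∉ S → x i = 0) → ∀ i, i ∉ S' → TA x i = 0 := by
    intro S S' h x hx
    refine toep_supp (GI Λ G) TA hTA S S' ?_ x hx
    intro j hj i hi
    by_contra hne
    exact hi (h i j hj hne)
  have mE : ∀ (S S' : Set (Hx m (ι × Λ))), (∀ i j : Hx m (ι × Λ), j ∈ S → tt (ent (EK ε κ) i.2 j.2) i.1 j.1 ≠ 0 → i ∈ S') →
      ∀ x : l2 (Hx m (ι × Λ)), (∀ i, i ∉ S → x i = 0) → ∀ i, i ∉ S' → TE x i = 0 := by
    intro S S' h x hx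
    refine toep_supp (EK ε κ) TE hTE S S' ?_ x hx
    intro j hj i hi
    by_contra hne
    exact hi (h i j hj hne)
  have boolne : ∀ p q r : Bool, p ≠ q → q = r → p ≠ r := by decide
  have boolne2 : ∀ p q r : Bool, p ≠ q → q ≠ r → p = r := by decide
  have A01 : ∀ i j : Hx m (ι × Λ), j ∈ A0 → tt (ent (GI Λ G) i.2 j.2) i.1 j.1 ≠ 0 → i ∈ A1 := by
    rintro i j ⟨hj1, hj2⟩ hne
    obtain ⟨h1, h2, h3⟩ := entA i j hne
    refine ⟨?_, ?_⟩
    · rw [h1]; exact boolne _ _ _ h2 hj1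
    · rw [h3, h1]; exact hj2
  have A10 : ∀ i j : Hx m (ι × Λ), j ∈ A1 → tt (ent (GI Λ G) i.2 j.2) i.1 j.1 ≠ 0 → i ∈ A0 := by
    rintro i j ⟨hj1, hj2⟩ hne
    obtain ⟨h1, h2, h3⟩ := entA i j hne
    refine ⟨?_, ?_⟩
    · rw [h1]; exact boolne2 _ _ _ h2 hj1
    · rw [h3, h1]; exact hj2
  have Ecls : ∀ i j : Hx m (ι × Λ), tt (ent (EK ε κ) i.2 j.2) i.1 j.1 ≠ 0 →
      ((deg i.1 : ℕ) : ZMod 4) + w i.2.1 + (d i.2.2 : ℕ) = ((deg j.1 : ℕ) : ZMod 4) + w j.2.1 + (d j.2.2 : ℕ) := by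
    intro i j hne
    obtain ⟨h1, h2, h3⟩ := entE i j hne
    have h4 : ((deg i.1 : ℕ) : ZMod 4) + (d i.2.2 : ℕ) = (deg j.1 : ℕ) + (d j.2.2 : ℕ) := by
      exact_mod_cast congrArg (Nat.cast : ℕ → ZMod 4) h3
    rw [h1]
    calc ((deg i.1 : ℕ) : ZMod 4) + w j.2.1 + (d i.2.2 : ℕ) = (((deg i.1 : ℕ) : ZMod 4) + (d i.2.2 : ℕ)) + w j.2.1 := by ring
      _ = _ := by rw [h4]; ring
  have E01 : ∀ i j : Hx m (ι × Λ), j ∈ A0 → tt (ent (EK ε κ) i.2 j.2) i.1 j.1 ≠ 0 → i ∈ A1 := by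
    rintro i j ⟨hj1, hj2⟩ hne
    obtain ⟨h1, h2, h3⟩ := entE i j hne
    refine ⟨?_, ?_⟩
    · rw [h1, hj1]; exact h2.symm
    · rw [Ecls i j hne]; exact hj2
  have E10 : ∀ i j : Hx m (ι × Λ), j ∈ A1 → tt (ent (EK ε κ) i.2 j.2) i.1 j.1 ≠ 0 → i ∈ A0 := by
    rintro i j ⟨hj1, hj2⟩ hne
    obtain ⟨h1, h2, h3⟩ := entE i j hne
    refine ⟨?_, ?_⟩
    · rw [h1]; exact boolne2 _ _ _ hj1 h2.symm
    · rw [Ecls i j hne]; exact hj2
  -- homotopy
  have hom := hom_dim TA TE saA saE A0 A1 (A0 ∩ P) L (fun i hi => hi.1) (hfin N1)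
    ((hfin N).subset (by
      rintro i ⟨h1, h2⟩
      by_contra h3
      have h4 : ¬ deg i.1 < N := h3
      refine h2 ⟨h1, ?_⟩
      change N ≤ deg i.1 + d i.2.2
      omega))
    (by
      rintro i ⟨_, h⟩ h2
      have h3 : deg i.1 < N1 := h2
      have h4 : N ≤ deg i.1 + d i.2.2 := h
      have := hdN i.2.2
      omega)
    (mA _ _ A01) (mA _ _ A10) (mE _ _ E01) (mE _ _ E10) c' hc' (by
      intro s hs x hx
      exact hN1 s hs x (fun i hi => hx i hi))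
  obtain ⟨fdA, fdE, heq⟩ := hom
  -- left side
  have hleft := slice_dim G T hT TA hTA A1 (A0 ∩ P) fdA
  have hleft2 : ∀ l : Λ, Module.finrank ℂ (VV T {i | (i.1, (i.2, l)) ∈ A1} {i | (i.1, (i.2, l)) ∈ A0 ∩ P}) =
      DD T ε w (par l) (N - d l) (c - (d l : ℕ)) := by
    intro l
    unfold DD
    have e1 : {i : Hx m ι | (i.1, (i.2, l)) ∈ A1} = SA ε w (!par l) (c - (d l : ℕ)) := by
      ext i
      change (ε i.2 ≠ par l ∧ ((deg i.1 : ℕ) : ZMod 4) + w i.2 + (d l : ℕ) = c) ↔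
        (ε i.2 = !par l ∧ ((deg i.1 : ℕ) : ZMod 4) + w i.2 = c - (d l : ℕ))
      rw [eq_sub_iff_add_eq]
      have : (ε i.2 ≠ par l) ↔ (ε i.2 = !par l) := by cases ε i.2 <;> cases par l <;> simp
      rw [this]
    have e2 : {i : Hx m ι | (i.1, (i.2, l)) ∈ A0 ∩ P} =
        {i | i ∈ SA ε w (par l) (c - (d l : ℕ)) ∧ N - d l ≤ deg i.1} := by
      ext i
      change ((ε i.2 = par l ∧ ((deg i.1 : ℕ) : ZMod 4) + w i.2 + (d l : ℕ) = c) ∧ N ≤ deg i.1 + d l) ↔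
        ((ε i.2 = par l ∧ ((deg i.1 : ℕ) : ZMod 4) + w i.2 = c - (d l : ℕ)) ∧ N - d l ≤ deg i.1)
      rw [eq_sub_iff_add_eq, Nat.sub_le_iff_le_add]
    rw [e1, e2]
  -- right side
  have hone := one_cnt TE A0 A1 P
    ((hfin N).subset (by
      rintro i ⟨h1, h2⟩
      by_contra h3
      have h4 : ¬ deg i.1 < N := h3
      refine h2 ?_
      change N ≤ deg i.1 + d i.2.2
      omega))
    (mE _ _ (by
      rintro i j ⟨hj1, hj2⟩ hne
      refine ⟨E10 i j hj1 hne, ?_⟩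
      obtain ⟨h1, h2, h3⟩ := entE i j hne
      have hj3 : N ≤ deg j.1 + d j.2.2 := hj2
      change N ≤ deg i.1 + d i.2.2
      omega))
    (by
      intro x hx i hi
      refine mE (A1 \ P) Pᶜ ?_ x hx i (fun h => h hi)
      rintro i j ⟨hj1, hj2⟩ hne h4
      obtain ⟨h1, h2, h3⟩ := entE i j hne
      apply hj2
      have h5 : N ≤ deg i.1 + d i.2.2 := h4
      change N ≤ deg j.1 + d j.2.2
      omega)
    c' hc' (by
      intro x hx
      have := hN1 1 ⟨zero_le_one, le_refl _⟩ x (fun i hi => hx i (by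
        rintro ⟨_, h⟩
        have h4 : N ≤ deg i.1 + d i.2.2 := h
        have := hdN i.2.2
        omega))
      simpa using this)
  have hright : (A1 \ P).ncard = ∑ l : Λ, ee m ε w (!par l) (N - d l) (c - (d l : ℕ)) := by
    have hfl : ∀ l, {i : Hx m ι | i ∈ SA ε w (!par l) (c - (d l : ℕ)) ∧ deg i.1 < N - d l}.Finite := fun l =>
      (deg_finite (N - d l)).subset (by rintro i ⟨_, h⟩; exact h)
    have h1 : (A1 \ P) = ⋃ l : Λ, (fun i : Hx m ι => ((i.1, (i.2, l)) : Hx m (ι × Λ))) ''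
        {i : Hx m ι | i ∈ SA ε w (!par l) (c - (d l : ℕ)) ∧ deg i.1 < N - d l} := by
      ext x
      rw [Set.mem_iUnion]
      constructor
      · rintro ⟨⟨h1, h2⟩, h3⟩
        refine ⟨x.2.2, (x.1, x.2.1), ⟨⟨?_, ?_⟩, ?_⟩, rfl⟩
        · change ε x.2.1 = !par x.2.2
          revert h1
          cases ε x.2.1 <;> cases par x.2.2 <;> simp
        · rw [eq_sub_iff_add_eq]
          exact h2
        · have h4 : ¬ (N ≤ deg x.1 + d x.2.2) := h3
          change deg x.1 < N - d x.2.2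
          omega
      · rintro ⟨l, i, ⟨⟨h1, h2⟩, h3⟩, rfl⟩
        refine ⟨⟨?_, ?_⟩, ?_⟩
        · change ε i.2 ≠ par l
          rw [h1]
          cases par l <;> simp
        · rw [eq_sub_iff_add_eq] at h2
          exact h2
        · intro h4
          have h5 : N ≤ deg i.1 + d l := h4
          omega
    rw [h1]
    have hinj : ∀ l : Λ, Function.Injective (fun i : Hx m ι => ((i.1, (i.2, l)) : Hx m (ι × Λ))) := by
      intro l i j h
      simp only [Prod.mk.injEq] at h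
      exact Prod.ext h.1 h.2.1
    have h2 : ∀ l : Λ, ((fun i : Hx m ι => ((i.1, (i.2, l)) : Hx m (ι × Λ))) ''
        {i : Hx m ι | i ∈ SA ε w (!par l) (c - (d l : ℕ)) ∧ deg i.1 < N - d l}).ncard =
        ee m ε w (!par l) (N - d l) (c - (d l : ℕ)) := by
      intro l
      rw [Set.ncard_image_of_injective _ (hinj l)]
      rfl
    rw [← Finset.sum_congr rfl (fun l _ => h2 l)]
    have h3 : ∀ l, ((fun i : Hx m ι => ((i.1, (i.2, l)) : Hx m (ι × Λ))) ''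
        {i : Hx m ι | i ∈ SA ε w (!par l) (c - (d l : ℕ)) ∧ deg i.1 < N - d l}).Finite := fun l => (hfl l).image _
    rw [Set.ncard_iUnion_of_finite h3]
    · rw [finsum_eq_sum_of_fintype]
    · intro l l' hne
      rw [Function.onFun, Set.disjoint_left]
      rintro x ⟨i, _, rfl⟩ ⟨j, _, h⟩
      simp only [Prod.mk.injEq] at h
      exact hne h.2.2.symm
  have key : ∑ l : Λ, DD T ε w (par l) (N - d l) (c - (d l : ℕ)) = ∑ l : Λ, ee m ε w (!par l) (N - d l) (c - (d l : ℕ)) := by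
    rw [← hright, ← hone, ← heq, hleft]
    exact Finset.sum_congr rfl (fun l _ => (hleft2 l).symm)
  exact_mod_cast key

end Pool.Agent.Helper12.BP
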