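import Pool.Agent.Helper12.BP.HankZ

/-!
PROJECT BP, block K, module K-9 (HankAll): the Hankel operator of every continuous function is small on high degrees.

Notation `J = JJ hb`, `P = J J^*`, `M_B = mulB B`, `T_B = TB hb B = J^* M_B J`; `HankSmall B` : `‖(1 - P) M_B J x‖` is small for `x` of high degree.
PROOF.
(1) sums and scalar multiples of HankSmall functions are HankSmall (`mulB_add`, `mulB_smul`); uniform limits as well: `‖(1-P) M_(B-B')‖ ≤ ‖B - B'‖` (`mulB_norm_le`, `‖1 - P‖ ≤ 1`).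
(2) call `C` banded with constant `K` if `T_C` maps families supported in `deg ≥ N + K` to families supported in `deg ≥ N`, for every `N`. If `B` is HankSmall, `C` is HankSmall and banded, then `B * C` is HankSmall:
    `(1-P) M_B M_C J x = (1-P) M_B J (T_C x) + (1-P) M_B ((1-P) M_C J x)`.
(3) `scal (crd j)` : HankSmall since `(1-P) M J x = 0` (`crd_J`); `scal (star (crd j))` : `hankZ`; constants `scal c`: trivial. All three are banded (K = 1): entries of `T` by `TB_toep`-like computation
    (`scal f = symb (f • 1)`, `TB_toep`, `toep_supp`, `tt_lin`, `tt_colin`, `tt_const`).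
(4) so `scal p` is HankSmall for every `p` in the subalgebra of `C(Sp m, ℂ)` generated by the `crd j` and `star (crd j)` (`Algebra.adjoin_induction` is not directly usable for products; use
    `Subalgebra`/`Submodule.span` of the submonoid closure: `Algebra.adjoin_eq_span`, `Submodule.span_induction`, and `Submonoid.closure_induction_right`), starting from `1` and multiplying on the right by generators.
(5) this subalgebra is a star subalgebra that separates points: dense by `ContinuousMap.starSubalgebra_topologicalClosure_eq_top_of_separatesPoints` (or `ContinuousMap.subalgebra...` with `star`), so `scal f` is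
    HankSmall for every `f` in `C(Sp m, ℂ)`.
(6) a constant operator `Q : W ι →L W ι` (constant function `B_Q`): `M_(B_Q) J = J T_(B_Q)` and `P M_(B_Q) = M_(B_Q) P` (the adjoint is again constant). So `(1-P) M_(f Q) J x = M_(B_Q) (1-P) M_(scal f) J x`: `z ↦ f z • Q` is HankSmall.
    A general `B` is the finite sum of `z ↦ b_kl(z) • E_kl` (`E_kl` matrix units, `b_kl(z) = inner (e_k) (B z e_l)`).
-/

set_option autoImplicit false

namespace Pool.Agent.Helper12.BP

open MeasureTheory

variable {m : ℕ} {ι : Type} [Fintype ι] [DecidableEq ι]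

section basic

variable (hb : Orthonormal ℂ (bL : Hx m ι → LL m ι))

/-- the projection onto the Hardy space -/
private noncomputable def haP : LL m ι →L[ℂ] LL m ι :=
  (JJ hb).toContinuousLinearMap.comp
    (ContinuousLinearMap.adjoint (JJ hb).toContinuousLinearMap)

/-- the complementary projection -/
private noncomputable def haQ : LL m ι →L[ℂ] LL m ι := ContinuousLinearMap.id ℂ _ - haP hb

private theorem ha_adj (x : l2 (Hx m ι)) :
    (ContinuousLinearMap.adjoint (JJ hb).toContinuousLinearMap) (JJ hb x) = x := by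
  have h := (ContinuousLinearMap.norm_map_iff_adjoint_comp_self
    (JJ hb).toContinuousLinearMap).1 (fun x => (JJ hb).norm_map x)
  have h2 := congrArg (fun T : l2 (Hx m ι) →L[ℂ] l2 (Hx m ι) => T x) h
  exact h2

private theorem haQ_apply (u : LL m ι) : haQ hb u = u - haP hb u := rfl

private theorem haP_J (x : l2 (Hx m ι)) : haP hb (JJ hb x) = JJ hb x := by
  show JJ hb ((ContinuousLinearMap.adjoint (JJ hb).toContinuousLinearMap) (JJ hb x)) = JJ hb x
  rw [ha_adj]

private theorem haQ_J (x : l2 (Hx m ι)) : haQ hb (JJ hb x) = 0 := by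
  rw [haQ_apply, haP_J, sub_self]

private theorem haQ_le (u : LL m ι) : ‖haQ hb u‖ ≤ ‖u‖ := by
  have h0 : (ContinuousLinearMap.adjoint (JJ hb).toContinuousLinearMap) (haQ hb u) = 0 := by
    rw [haQ_apply, map_sub]
    have h1 : (ContinuousLinearMap.adjoint (JJ hb).toContinuousLinearMap) (haP hb u) =
        (ContinuousLinearMap.adjoint (JJ hb).toContinuousLinearMap) u := ha_adj hb _
    rw [h1, sub_self]
  have h1 : inner ℂ (haQ hb u) (haP hb u) = 0 := by
    have h2 : inner ℂ (haQ hb u) (haP hb u) =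
        inner ℂ ((ContinuousLinearMap.adjoint (JJ hb).toContinuousLinearMap) (haQ hb u))
          ((ContinuousLinearMap.adjoint (JJ hb).toContinuousLinearMap) u) :=
      (ContinuousLinearMap.adjoint_inner_left (JJ hb).toContinuousLinearMap _ _).symm
    rw [h2, h0, inner_zero_left]
  have h2 := norm_add_sq_eq_norm_sq_add_norm_sq_of_inner_eq_zero (haQ hb u) (haP hb u) h1
  have h3 : haQ hb u + haP hb u = u := by
    rw [haQ_apply, sub_add_cancel]
  rw [h3] at h2
  nlinarith [norm_nonneg (haQ hb u), norm_nonneg (haP hb u), norm_nonneg u,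
    mul_nonneg (norm_nonneg (haP hb u)) (norm_nonneg (haP hb u))]

private theorem hs_iff (B : C(Sp m, W ι →L[ℂ] W ι)) : HankSmall hb B ↔
    ∀ e : ℝ, 0 < e → ∃ N : ℕ, ∀ x : l2 (Hx m ι), (∀ i, deg i.1 < N → x i = 0) →
      ‖haQ hb (mulB B (JJ hb x))‖ ≤ e * ‖x‖ := Iff.rfl

private theorem hs_of_zero (B : C(Sp m, W ι →L[ℂ] W ι))
    (h : ∀ x, haQ hb (mulB B (JJ hb x)) = 0) : HankSmall hb B := by
  rw [hs_iff]
  intro e he
  refine ⟨0, fun x _ => ?_⟩
  rw [h, norm_zero]
  positivity

private theorem hs_add {B C : C(Sp m, W ι →L[ℂ] W ι)} (hB : HankSmall hb B)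
    (hC : HankSmall hb C) : HankSmall hb (B + C) := by
  rw [hs_iff] at *
  intro e he
  obtain ⟨N1, h1⟩ := hB (e / 2) (by linarith)
  obtain ⟨N2, h2⟩ := hC (e / 2) (by linarith)
  refine ⟨max N1 N2, fun x hx => ?_⟩
  have a1 := h1 x fun i hi => hx i (lt_of_lt_of_le hi (le_max_left _ _))
  have a2 := h2 x fun i hi => hx i (lt_of_lt_of_le hi (le_max_right _ _))
  have h3 : mulB (B + C) (JJ hb x) = mulB B (JJ hb x) + mulB C (JJ hb x) := by
    rw [mulB_add]
    rfl
  rw [h3, map_add]
  refine (norm_add_le _ _).trans ?_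
  linarith

private theorem hs_smul {B : C(Sp m, W ι →L[ℂ] W ι)} (c : ℂ) (hB : HankSmall hb B) :
    HankSmall hb (c • B) := by
  rw [hs_iff] at *
  intro e he
  have hc : 0 < ‖c‖ + 1 := by positivity
  obtain ⟨N1, h1⟩ := hB (e / (‖c‖ + 1)) (by positivity)
  refine ⟨N1, fun x hx => ?_⟩
  have a1 := h1 x hx
  have h3 : mulB (c • B) (JJ hb x) = c • mulB B (JJ hb x) := by
    rw [mulB_smul]
    rfl
  rw [h3, map_smul, norm_smul]
  have h4 : ‖c‖ * ‖haQ hb (mulB B (JJ hb x))‖ ≤ (‖c‖ + 1) * (e / (‖c‖ + 1) * ‖x‖) :=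
    mul_le_mul (by linarith) a1 (norm_nonneg _) hc.le
  have h5 : (‖c‖ + 1) * (e / (‖c‖ + 1) * ‖x‖) = e * ‖x‖ := by
    field_simp
  linarith

private theorem hs_lim (B : C(Sp m, W ι →L[ℂ] W ι))
    (h : ∀ δ : ℝ, 0 < δ → ∃ B' : C(Sp m, W ι →L[ℂ] W ι), HankSmall hb B' ∧ ‖B - B'‖ ≤ δ) :
    HankSmall hb B := by
  rw [hs_iff]
  intro e he
  obtain ⟨B', hB', hd⟩ := h (e / 2) (by linarith)
  rw [hs_iff] at hB'
  obtain ⟨N, hN⟩ := hB' (e / 2) (by linarith)
  refine ⟨N, fun x hx => ?_⟩
  have a1 := hN x hx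
  have h3 : mulB B (JJ hb x) = mulB (B - B') (JJ hb x) + mulB B' (JJ hb x) := by
    have h4 : mulB B = mulB (B - B') + mulB B' := by
      rw [← mulB_add, sub_add_cancel]
    conv_lhs => rw [h4]
    rfl
  rw [h3, map_add]
  have a2 : ‖haQ hb (mulB (B - B') (JJ hb x))‖ ≤ e / 2 * ‖x‖ := by
    refine (haQ_le hb _).trans ?_
    refine ((mulB (B - B')).le_opNorm _).trans ?_
    rw [(JJ hb).norm_map]
    exact mul_le_mul_of_nonneg_right ((mulB_norm_le _).trans hd) (norm_nonneg _)
  refine (norm_add_le _ _).trans ?_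
  linarith

private theorem hs_mul {B C : C(Sp m, W ι →L[ℂ] W ι)} (hB : HankSmall hb B)
    (hC : HankSmall hb C) (K : ℕ)
    (hband : ∀ (N : ℕ) (x : l2 (Hx m ι)), (∀ i, deg i.1 < N + K → x i = 0) →
      ∀ i, deg i.1 < N → TB hb C x i = 0) : HankSmall hb (B * C) := by
  rw [hs_iff] at *
  intro e he
  have hc1 : 0 < ‖TB hb C‖ + 1 := by positivity
  have hc2 : 0 < ‖mulB B‖ + 1 := by positivity
  obtain ⟨N1, h1⟩ := hB (e / (2 * (‖TB hb C‖ + 1))) (by positivity)
  obtain ⟨N2, h2⟩ := hC (e / (2 * (‖mulB B‖ + 1))) (by positivity)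
  refine ⟨max (N1 + K) N2, fun x hx => ?_⟩
  have a1 := h1 (TB hb C x)
    (hband N1 x fun i hi => hx i (lt_of_lt_of_le hi (le_max_left _ _)))
  have a2 := h2 x fun i hi => hx i (lt_of_lt_of_le hi (le_max_right _ _))
  have h3 : mulB (B * C) (JJ hb x) = mulB B (JJ hb (TB hb C x)) +
      mulB B (haQ hb (mulB C (JJ hb x))) := by
    rw [mulB_mul, ← map_add]
    have h4 : JJ hb (TB hb C x) + haQ hb (mulB C (JJ hb x)) = mulB C (JJ hb x) := by
      have h5 : JJ hb (TB hb C x) = haP hb (mulB C (JJ hb x)) := rfl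
      rw [h5, haQ_apply]
      abel
    rw [h4]
    rfl
  rw [h3, map_add]
  have b1 : ‖haQ hb (mulB B (JJ hb (TB hb C x)))‖ ≤ e / 2 * ‖x‖ := by
    refine a1.trans ?_
    have h4 : ‖TB hb C x‖ ≤ (‖TB hb C‖ + 1) * ‖x‖ := by
      refine ((TB hb C).le_opNorm x).trans ?_
      exact mul_le_mul_of_nonneg_right (by linarith) (norm_nonneg _)
    have h5 : e / (2 * (‖TB hb C‖ + 1)) * ‖TB hb C x‖ ≤
        e / (2 * (‖TB hb C‖ + 1)) * ((‖TB hb C‖ + 1) * ‖x‖) :=
      mul_le_mul_of_nonneg_left h4 (by positivity)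
    refine h5.trans (le_of_eq ?_)
    field_simp
  have b2 : ‖haQ hb (mulB B (haQ hb (mulB C (JJ hb x))))‖ ≤ e / 2 * ‖x‖ := by
    refine (haQ_le hb _).trans ?_
    refine ((mulB B).le_opNorm _).trans ?_
    have h4 : ‖mulB B‖ * ‖haQ hb (mulB C (JJ hb x))‖ ≤
        (‖mulB B‖ + 1) * (e / (2 * (‖mulB B‖ + 1)) * ‖x‖) :=
      mul_le_mul (by linarith) a2 (norm_nonneg _) hc2.le
    refine h4.trans (le_of_eq ?_)
    field_simp
  refine (norm_add_le _ _).trans ?_
  linarith

/-- `f` times the unit matrix -/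
private noncomputable def haF (ι : Type) [Fintype ι] [DecidableEq ι] (f : C(Sp m, ℂ)) :
    C(Sp m, Matrix ι ι ℂ) where
  toFun z := f z • (1 : Matrix ι ι ℂ)
  continuous_toFun := f.continuous.smul continuous_const

private theorem symb_haF (f : C(Sp m, ℂ)) : symb (haF ι f) = scal f := by
  ext z v k
  rw [symb_apply]
  show ∑ l, (f z • (1 : Matrix ι ι ℂ)) k l * v l = f z * v k
  rw [Finset.sum_eq_single k]
  · simp
  · intro l _ hl
    simp [Matrix.one_apply_ne (Ne.symm hl)]
  · intro h
    exact absurd (Finset.mem_univ k) h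

private theorem ha_ent (f : C(Sp m, ℂ)) (k l : ι) :
    ent (haF ι f) k l = if k = l then f else 0 := by
  ext z
  show (f z • (1 : Matrix ι ι ℂ)) k l = _
  by_cases h : k = l
  · rw [if_pos h, h]
    simp
  · rw [if_neg h]
    simp [Matrix.one_apply_ne h]

private theorem ha_band (A : C(Sp m, Matrix ι ι ℂ)) (K : ℕ)
    (h : ∀ (k l : ι) (β α : Fin m → ℕ), tt (ent A k l) β α ≠ 0 → deg α ≤ deg β + K)
    (N : ℕ) (x : l2 (Hx m ι)) (hx : ∀ i, deg i.1 < N + K → x i = 0) :
    ∀ i, deg i.1 < N → TB hb (symb A) x i = 0 := by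
  have h1 := toep_supp A (TB hb (symb A)) (TB_toep hb A) {i | N + K ≤ deg i.1}
    {i | N ≤ deg i.1} (by
      intro j hj i hi
      by_contra hne
      have h2 := h _ _ _ _ hne
      have h3 : N + K ≤ deg j.1 := hj
      have h4 : ¬ N ≤ deg i.1 := hi
      omega) x (by
      intro i hi
      have h4 : ¬ N + K ≤ deg i.1 := hi
      exact hx i (by omega))
  intro i hi
  refine h1 i ?_
  show ¬ N ≤ deg i.1
  omega

private theorem ha_tt_zero (β α : Fin m → ℕ) : tt (0 : C(Sp m, ℂ)) β α = 0 := by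
  unfold tt
  simp

private theorem ha_band_crd (hm : 0 < m) (j : Fin m) (N : ℕ) (x : l2 (Hx m ι))
    (hx : ∀ i, deg i.1 < N + 1 → x i = 0) :
    ∀ i, deg i.1 < N → TB hb (scal (crd j)) x i = 0 := by
  rw [← symb_haF]
  refine ha_band hb (haF ι (crd j)) 1 ?_ N x hx
  intro k l β α hne
  rw [ha_ent] at hne
  by_cases h : k = l
  · rw [if_pos h] at hne
    have h1 := tt_lin hm (crd j) (Pi.single j 1) (by
      intro z
      rw [Finset.sum_eq_single j]
      · rw [Pi.single_eq_same, one_mul]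
        rfl
      · intro i _ hi
        rw [Pi.single_eq_of_ne hi, zero_mul]
      · intro h
        exact absurd (Finset.mem_univ j) h) β α hne
    omega
  · rw [if_neg h] at hne
    exact absurd (ha_tt_zero _ _) hne

private theorem ha_band_star (hm : 0 < m) (j : Fin m) (N : ℕ) (x : l2 (Hx m ι))
    (hx : ∀ i, deg i.1 < N + 1 → x i = 0) :
    ∀ i, deg i.1 < N → TB hb (scal (star (crd j))) x i = 0 := by
  rw [← symb_haF]
  refine ha_band hb (haF ι (star (crd j))) 1 ?_ N x hx
  intro k l β α hne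
  rw [ha_ent] at hne
  by_cases h : k = l
  · rw [if_pos h] at hne
    have h1 := tt_colin hm (star (crd j)) (Pi.single j 1) (by
      intro z
      rw [Finset.sum_eq_single j]
      · rw [Pi.single_eq_same, one_mul]
        rfl
      · intro i _ hi
        rw [Pi.single_eq_of_ne hi, zero_mul]
      · intro h
        exact absurd (Finset.mem_univ j) h) β α hne
    omega
  · rw [if_neg h] at hne
    exact absurd (ha_tt_zero _ _) hne

private theorem ha_band_const (hm : 0 < m) (A : Matrix ι ι ℂ) (N : ℕ) (x : l2 (Hx m ι))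
    (hx : ∀ i, deg i.1 < N + 0 → x i = 0) :
    ∀ i, deg i.1 < N → TB hb (symb (ContinuousMap.const (Sp m) A)) x i = 0 := by
  refine ha_band hb (ContinuousMap.const (Sp m) A) 0 ?_ N x hx
  intro k l β α hne
  have h1 := tt_const hm (ent (ContinuousMap.const (Sp m) A) k l) (A k l) (fun z => rfl) β α hne
  rw [h1]
  omega

private theorem ha_mul_toLp (B : C(Sp m, W ι →L[ℂ] W ι)) (g g' : C(Sp m, W ι))
    (h : ∀ z, g' z = B z (g z)) :
    mulB B (ContinuousMap.toLp 2 (sig m) ℂ g) = ContinuousMap.toLp 2 (sig m) ℂ g' := by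
  apply Lp.ext
  filter_upwards [mulB_coe B (ContinuousMap.toLp 2 (sig m) ℂ g),
    ContinuousMap.coeFn_toLp (p := 2) (𝕜 := ℂ) (sig m) g,
    ContinuousMap.coeFn_toLp (p := 2) (𝕜 := ℂ) (sig m) g'] with z h1 h2 h3
  rw [h1, h2, h3, h]

private theorem hs_const (A : Matrix ι ι ℂ) :
    HankSmall hb (symb (ContinuousMap.const (Sp m) A)) := by
  refine hs_of_zero hb _ ?_
  have h0 : ∀ i : Hx m ι, haQ hb (mulB (symb (ContinuousMap.const (Sp m) A)) (bL i)) = 0 := by
    intro i
    have h1 : mulB (symb (ContinuousMap.const (Sp m) A)) (bL i) =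
        ∑ k, A k i.2 • (bL (i.1, k) : LL m ι) := by
      have h2 : (∑ k, A k i.2 • (bL (i.1, k) : LL m ι)) =
          ContinuousMap.toLp 2 (sig m) ℂ (∑ k, A k i.2 • bas (i.1, k)) := by
        rw [map_sum]
        refine Finset.sum_congr rfl fun k _ => ?_
        rw [map_smul]
        rfl
      rw [h2]
      refine ha_mul_toLp _ _ _ ?_
      intro z
      ext k
      rw [symb_apply]
      have h3 : (∑ k, A k i.2 • bas (i.1, k) : C(Sp m, W ι)) z =
          ∑ k, A k i.2 • (bas (i.1, k) z) := by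
        rw [ContinuousMap.sum_apply]
        rfl
      rw [h3]
      have h4 : (∑ k', A k' i.2 • (bas (i.1, k') z)) k =
          ∑ k', A k' i.2 * ((bas (i.1, k') z) k) := by
        rw [WithLp.ofLp_sum, Finset.sum_apply]
        rfl
      rw [h4]
      have h5 : ∀ k' l : ι, (bas ((i.1, k') : Hx m ι) z) l =
          if l = k' then (nu i.1 : ℂ)⁻¹ * mono i.1 z else 0 := by
        intro k' l
        show (((nu i.1 : ℂ)⁻¹ * mono i.1 z) • EuclideanSpace.single k' (1 : ℂ) : W ι) l = _
        rw [PiLp.smul_apply, EuclideanSpace.single_apply, smul_eq_mul, mul_ite, mul_one, mul_zero]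
      have h6 : ∀ l : ι, (bas i z) l = if l = i.2 then (nu i.1 : ℂ)⁻¹ * mono i.1 z else 0 :=
        fun l => h5 i.2 l
      simp only [h5, h6, mul_ite, mul_zero, Finset.sum_ite_eq, Finset.sum_ite_eq',
        Finset.mem_univ, if_true]
      rfl
    rw [h1, map_sum]
    refine Finset.sum_eq_zero fun k _ => ?_
    rw [map_smul]
    have h7 : (bL (i.1, k) : LL m ι) = JJ hb (lp.single 2 (i.1, k) (1 : ℂ)) := by
      rw [JJ_single, one_smul]
    rw [h7, haQ_J, smul_zero]
  have h1 : (haQ hb).comp ((mulB (symb (ContinuousMap.const (Sp m) A))).comp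
      (JJ hb).toContinuousLinearMap) = 0 := by
    refine clm_ext _ _ fun j => ?_
    show haQ hb (mulB (symb (ContinuousMap.const (Sp m) A)) (JJ hb (lp.single 2 j (1 : ℂ)))) = 0
    rw [JJ_single, one_smul]
    exact h0 j
  intro x
  have h2 := congrArg (fun T : l2 (Hx m ι) →L[ℂ] LL m ι => T x) h1
  exact h2

omit [DecidableEq ι] in
private theorem scal_mul (f g : C(Sp m, ℂ)) :
    (scal (f * g) : C(Sp m, W ι →L[ℂ] W ι)) = scal f * scal g := by
  ext z v k
  show (f z * g z) * v k = f z * (g z * v k)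
  ring

omit [DecidableEq ι] in
private theorem scal_add (f g : C(Sp m, ℂ)) :
    (scal (f + g) : C(Sp m, W ι →L[ℂ] W ι)) = scal f + scal g := by
  ext z v k
  show (f z + g z) * v k = f z * v k + g z * v k
  ring

omit [DecidableEq ι] in
private theorem scal_smul (c : ℂ) (f : C(Sp m, ℂ)) :
    (scal (c • f) : C(Sp m, W ι →L[ℂ] W ι)) = c • scal f := by
  ext z v k
  show (c * f z) * v k = c * (f z * v k)
  ring

private theorem hs_zero : HankSmall hb (0 : C(Sp m, W ι →L[ℂ] W ι)) := by
  have h := hs_const hb (0 : Matrix ι ι ℂ)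
  have h1 : symb (ContinuousMap.const (Sp m) (0 : Matrix ι ι ℂ)) = 0 := by
    ext z v k
    rw [symb_apply]
    show ∑ l, (0 : ℂ) * v l = 0
    simp
  rwa [h1] at h

private theorem hs_one : HankSmall hb (scal 1) := by
  refine hs_of_zero hb _ fun x => ?_
  have h1 : (scal 1 : C(Sp m, W ι →L[ℂ] W ι)) = 1 := by
    ext z v k
    show (1 : ℂ) * v k = v k
    rw [one_mul]
  rw [h1, mulB_one]
  exact haQ_J hb x

private theorem hs_adjoin (hm : 0 < m) (f : C(Sp m, ℂ))
    (hf : f ∈ Algebra.adjoin ℂ (Set.range (crd : Fin m → C(Sp m, ℂ)) ∪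
      star (Set.range (crd : Fin m → C(Sp m, ℂ))))) : HankSmall hb (scal f) := by
  rw [← Subalgebra.mem_toSubmodule, Algebra.adjoin_eq_span] at hf
  refine Submodule.span_induction (p := fun g _ => HankSmall hb (scal g)) ?_ ?_ ?_ ?_ hf
  · intro g hg
    refine Submonoid.closure_induction_right (motive := fun g _ => HankSmall hb (scal g))
      (hs_one hb) ?_ hg
    intro x _ y hy hx
    rw [scal_mul]
    rcases hy with ⟨j, rfl⟩ | hy
    · refine hs_mul hb hx ?_ 1 (ha_band_crd hb hm j)
      refine hs_of_zero hb _ fun x => ?_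
      rw [crd_J hb hm j x, haQ_J]
    · obtain ⟨j, hj⟩ := Set.mem_star.1 hy
      have hy2 : y = star (crd j) := by
        rw [hj, star_star]
      rw [hy2]
      exact hs_mul hb hx (hankZ hb hm j) 1 (ha_band_star hb hm j)
  · have h1 : (scal 0 : C(Sp m, W ι →L[ℂ] W ι)) = 0 := by
      ext z v k
      show (0 : ℂ) * v k = 0
      rw [zero_mul]
    rw [h1]
    exact hs_zero hb
  · intro x y _ _ hx hy
    rw [scal_add]
    exact hs_add hb hx hy
  · intro c x _ hx
    rw [scal_smul]
    exact hs_smul hb c hx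

private theorem ha_sep : (StarAlgebra.adjoin ℂ
    (Set.range (crd : Fin m → C(Sp m, ℂ)))).SeparatesPoints := by
  intro z w hzw
  have h1 : ∃ j : Fin m, (z : Cm m) j ≠ (w : Cm m) j := by
    by_contra hno
    push Not at hno
    apply hzw
    apply Subtype.ext
    ext j
    exact hno j
  obtain ⟨j, hj⟩ := h1
  refine ⟨crd j, ⟨crd j, ?_, rfl⟩, hj⟩
  exact StarAlgebra.subset_adjoin ℂ _ ⟨j, rfl⟩

private theorem hs_scal (hm : 0 < m) (f : C(Sp m, ℂ)) : HankSmall hb (scal f) := by
  refine hs_lim hb _ fun δ hδ => ?_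
  have h1 := ContinuousMap.starSubalgebra_topologicalClosure_eq_top_of_separatesPoints
    (StarAlgebra.adjoin ℂ (Set.range (crd : Fin m → C(Sp m, ℂ)))) ha_sep
  have h2 : f ∈ (StarAlgebra.adjoin ℂ
      (Set.range (crd : Fin m → C(Sp m, ℂ)))).topologicalClosure := by
    rw [h1]
    exact trivial
  have h3 : f ∈ closure ((StarAlgebra.adjoin ℂ
      (Set.range (crd : Fin m → C(Sp m, ℂ))) : Set C(Sp m, ℂ))) := h2
  obtain ⟨g, hg, hd⟩ := Metric.mem_closure_iff.1 h3 δ hδ
  refine ⟨scal g, hs_adjoin hb hm g ?_, ?_⟩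
  · rw [← StarAlgebra.adjoin_toSubalgebra]
    exact hg
  · have h4 : (scal f : C(Sp m, W ι →L[ℂ] W ι)) - scal g = scal (f - g) := by
      ext z v k
      show f z * v k - g z * v k = (f z - g z) * v k
      ring
    rw [h4, ContinuousMap.norm_le _ hδ.le]
    intro z
    show ‖(f - g) z • (1 : W ι →L[ℂ] W ι)‖ ≤ δ
    rw [norm_smul]
    have h5 : ‖(f - g) z‖ ≤ ‖f - g‖ := (f - g).norm_coe_le_norm z
    have h6 : ‖(1 : W ι →L[ℂ] W ι)‖ ≤ 1 := ContinuousLinearMap.norm_id_le
    have h7 : ‖f - g‖ < δ := by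
      rw [← dist_eq_norm]
      exact hd
    have h8 : ‖(f - g) z‖ * ‖(1 : W ι →L[ℂ] W ι)‖ ≤ ‖(f - g) z‖ * 1 :=
      mul_le_mul_of_nonneg_left h6 (norm_nonneg _)
    linarith

end basic

theorem hankAll (hb : Orthonormal ℂ (bL : Hx m ι → LL m ι)) (hm : 0 < m) (B : C(Sp m, W ι →L[ℂ] W ι)) :
    HankSmall hb B := by
  let bb : ι → ι → C(Sp m, ℂ) := fun k l =>
    ⟨fun z => B z (EuclideanSpace.single l (1 : ℂ)) k, by fun_prop⟩
  have hdec : B = ∑ k, ∑ l, scal (bb k l) *
      symb (ContinuousMap.const (Sp m) (Matrix.single k l (1 : ℂ))) := by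
    ext z v i
    have h1 : (∑ k, ∑ l, scal (bb k l) *
        symb (ContinuousMap.const (Sp m) (Matrix.single k l (1 : ℂ))) :
          C(Sp m, W ι →L[ℂ] W ι)) z v i =
        ∑ k, ∑ l, bb k l z * (symb (ContinuousMap.const (Sp m) (Matrix.single k l (1 : ℂ))) z v i) := by
      rw [ContinuousMap.sum_apply, ContinuousLinearMap.sum_apply, WithLp.ofLp_sum,
        Finset.sum_apply]
      refine Finset.sum_congr rfl fun k _ => ?_
      rw [ContinuousMap.sum_apply, ContinuousLinearMap.sum_apply, WithLp.ofLp_sum,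
        Finset.sum_apply]
      rfl
    rw [h1]
    have h2 : ∀ k l, symb (ContinuousMap.const (Sp m) (Matrix.single k l (1 : ℂ))) z v i =
        if i = k then v l else 0 := by
      intro k l
      rw [symb_apply]
      show ∑ l', (Matrix.single k l (1 : ℂ)) i l' * v l' = _
      by_cases hik : i = k
      · rw [if_pos hik, hik, Finset.sum_eq_single l]
        · simp
        · intro l' _ hl'
          rw [Matrix.single_apply_of_ne _ _ _ _ _ (by
            intro h
            exact hl' h.2.symm), zero_mul]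
        · intro h
          exact absurd (Finset.mem_univ l) h
      · rw [if_neg hik]
        refine Finset.sum_eq_zero fun l' _ => ?_
        rw [Matrix.single_apply_of_ne _ _ _ _ _ (by
            intro h
            exact hik h.1.symm), zero_mul]
    simp only [h2]
    rw [Finset.sum_eq_single i]
    · simp only [if_true]
      have h3 : v = ∑ l, v l • (EuclideanSpace.single l (1 : ℂ) : W ι) := by
        ext j
        rw [WithLp.ofLp_sum, Finset.sum_apply]
        simp [EuclideanSpace.single_apply]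
      conv_lhs => rw [h3]
      rw [map_sum, WithLp.ofLp_sum, Finset.sum_apply]
      refine Finset.sum_congr rfl fun l _ => ?_
      rw [map_smul]
      show v l * (B z (EuclideanSpace.single l (1 : ℂ)) i) = _ * v l
      rw [mul_comm]
      rfl
    · intro k _ hk
      refine Finset.sum_eq_zero fun l _ => ?_
      rw [if_neg (Ne.symm hk), mul_zero]
    · intro h
      exact absurd (Finset.mem_univ i) h
  rw [hdec]
  have hsum : ∀ (s : Finset ι) (F : ι → C(Sp m, W ι →L[ℂ] W ι)), (∀ k, HankSmall hb (F k)) →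
      HankSmall hb (∑ k ∈ s, F k) := by
    intro s F hF
    induction s using Finset.induction_on with
    | empty => exact hs_zero hb
    | insert a s ha ih =>
      rw [Finset.sum_insert ha]
      exact hs_add hb (hF a) ih
  refine hsum _ _ fun k => hsum _ _ fun l => ?_
  exact hs_mul hb (hs_scal hb hm _) (hs_const hb _) 0 (ha_band_const hb hm _)

end Pool.Agent.Helper12.BP
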