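import Pool.Agent.Helper12.BP.Defs
import Pool.Agent.Helper12.BP.Gauss

/-!
PROJECT BP, block K, module K-2 (Moment): moments of the surface measure.

PROOF. Let `E = Cm m`, `μ = map toLp volume` (an additive Haar measure, instance `instHaar`), `F(z) = z^α conj(z^β) exp(-‖z‖²)` on `E`.
(1) `∫ F dμ = ∏_j ∫ w^(α_j) conj(w)^(β_j) exp(-‖w‖²) dw` (`integral_map`, `MeasurableEquiv`/`PiLp.continuousLinearEquiv`; `‖z‖² = ∑ ‖z_j‖²` `EuclideanSpace.norm_sq_eq`;
    `MeasureTheory.integral_fintype_prod_volume_eq_prod`); by Gauss this is `π^m ∏ α_j!` if `α = β`, else `0`.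
(2) polar coordinates: `μ.measurePreserving_homeomorphUnitSphereProd` exactly as in the proof of `MeasureTheory.integral_fun_norm_addHaar`
    (Mathlib/MeasureTheory/Constructions/HaarToSphere.lean):
    `∫ F dμ = ∫_(sphere × Ioi 0) F(r • ω) d(sig m × volumeIoiPow (2m-1)) = (∫ mono α ω conj(mono β ω) dsig) * ∫_0^∞ r^(|α|+|β|) exp(-r²) r^(2m-1) dr`
    (`integral_prod_mul`; `finrank ℝ E = 2m`).
(3) the radial integral is positive, so for `α ≠ β` the claim follows; for `α = β` it is `Γ(|α|+m)/2 = (|α|+m-1)!/2` (`integral_rpow_mul_exp_neg_rpow` of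
    Mathlib/MeasureTheory/Integral/Gamma.lean with `p = 2`, `q = 2(|α|+m)-1`).
-/

set_option autoImplicit false

namespace Pool.Agent.Helper12.BP

open MeasureTheory

/-- The Gaussian weighted monomial on `C^m`. -/
private noncomputable def GF {m : ℕ} (α β : Fin m → ℕ) (z : Cm m) : ℂ :=
  ((∏ j, z j ^ α j) * (starRingEnd ℂ) (∏ j, z j ^ β j)) * ((Real.exp (-‖z‖ ^ 2) : ℝ) : ℂ)

private theorem GF_cont {m : ℕ} (α β : Fin m → ℕ) : Continuous (GF α β) := by
  unfold GF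
  refine (Continuous.mul ?_ ?_).mul ?_
  · fun_prop
  · exact Complex.continuous_conj.comp (by fun_prop)
  · exact Complex.continuous_ofReal.comp (by fun_prop)

private theorem finrank_Cm (m : ℕ) : Module.finrank ℝ (Cm m) = 2 * m := by
  have h := (PiLp.continuousLinearEquiv 2 ℝ (fun _ : Fin m => ℂ)).toLinearEquiv.finrank_eq
  rw [h, Module.finrank_pi_fintype]
  simp [Complex.finrank_real_complex, mul_comm]

/-- The integral over the whole space as a product. -/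
private theorem int_prod {m : ℕ} (α β : Fin m → ℕ) :
    ∫ z, GF α β z ∂(Measure.map (WithLp.toLp 2) (volume : Measure (Fin m → ℂ)) : Measure (Cm m)) =
      ∏ j, ∫ w : ℂ, w ^ α j * (starRingEnd ℂ) w ^ β j * ((Real.exp (-‖w‖ ^ 2) : ℝ) : ℂ) := by
  rw [integral_map (WithLp.measurable_toLp 2 _).aemeasurable (GF_cont α β).aestronglyMeasurable]
  rw [← integral_fintype_prod_volume_eq_prod]
  congr 1
  ext x
  unfold GF
  rw [EuclideanSpace.norm_sq_eq, ← Finset.sum_neg_distrib, Real.exp_sum, map_prod, Complex.ofReal_prod,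
    ← Finset.prod_mul_distrib, ← Finset.prod_mul_distrib]
  refine Finset.prod_congr rfl fun j _ => ?_
  simp

/-- The radial integral. -/
private theorem radial (d N : ℕ) :
    ∫ r : Set.Ioi (0 : ℝ), ((r : ℝ) ^ N * Real.exp (-(r : ℝ) ^ 2)) ∂(Measure.volumeIoiPow d) =
      1 / 2 * Real.Gamma (((d + N + 1 : ℕ) : ℝ) / 2) := by
  have h1 : ∫ r : Set.Ioi (0 : ℝ), ((r : ℝ) ^ N * Real.exp (-(r : ℝ) ^ 2)) ∂(Measure.volumeIoiPow d) =
      ∫ y in Set.Ioi (0 : ℝ), y ^ d * (y ^ N * Real.exp (-y ^ 2)) := by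
    simp only [Measure.volumeIoiPow, ENNReal.ofReal]
    rw [integral_withDensity_eq_integral_smul,
      integral_subtype_comap measurableSet_Ioi fun a => Real.toNNReal (a ^ d) • (a ^ N * Real.exp (-a ^ 2)),
      setIntegral_congr_fun measurableSet_Ioi fun x hx => ?_]
    · rw [NNReal.smul_def, Real.coe_toNNReal _ (pow_nonneg hx.out.le _)]
      rfl
    · exact (measurable_subtype_coe.pow_const _).real_toNNReal
  rw [h1]
  have h2 := integral_rpow_mul_exp_neg_rpow (p := 2) (q := ((d + N : ℕ) : ℝ)) (by norm_num)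
    (lt_of_lt_of_le (by norm_num) (Nat.cast_nonneg _))
  rw [show (((d + N + 1 : ℕ) : ℝ) / 2) = (((d + N : ℕ) : ℝ) + 1) / 2 by push_cast; ring, ← h2]
  refine setIntegral_congr_fun measurableSet_Ioi fun x _ => ?_
  simp only [Real.rpow_natCast, Real.rpow_two]
  rw [pow_add]
  ring_nf

/-- Polar coordinates. -/
private theorem polar {m : ℕ} (hm : 0 < m) (α β : Fin m → ℕ) :
    ∫ z, GF α β z ∂(Measure.map (WithLp.toLp 2) (volume : Measure (Fin m → ℂ)) : Measure (Cm m)) =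
      (∫ z, mono α z * (starRingEnd ℂ) (mono β z) ∂(sig m)) *
        ((1 / 2 * Real.Gamma (((2 * m - 1 + (deg α + deg β) + 1 : ℕ) : ℝ) / 2) : ℝ) : ℂ) := by
  haveI : Nonempty (Fin m) := ⟨⟨0, hm⟩⟩
  haveI : Nontrivial (Cm m) := inferInstance
  set μ : Measure (Cm m) := Measure.map (WithLp.toLp 2) (volume : Measure (Fin m → ℂ)) with hμ
  have h1 : ∫ z, GF α β z ∂μ = ∫ x : ({(0 : Cm m)}ᶜ : Set (Cm m)), GF α β x ∂(μ.comap (↑)) := by
    rw [integral_subtype_comap (measurableSet_singleton _).compl fun x => GF α β x, restrict_compl_singleton]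
  have h2 : ∫ x : ({(0 : Cm m)}ᶜ : Set (Cm m)), GF α β x ∂(μ.comap (↑)) =
      ∫ x, GF α β ((homeomorphUnitSphereProd (Cm m)).symm x : Cm m)
        ∂μ.toSphere.prod (.volumeIoiPow (Module.finrank ℝ (Cm m) - 1)) := by
    rw [← μ.measurePreserving_homeomorphUnitSphereProd.integral_comp (Homeomorph.measurableEmbedding _)]
    simp
  have h3 : ∀ x : Sp m × Set.Ioi (0 : ℝ), GF α β ((homeomorphUnitSphereProd (Cm m)).symm x : Cm m) =
      (mono α x.1 * (starRingEnd ℂ) (mono β x.1)) *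
        (((x.2 : ℝ) ^ (deg α + deg β) * Real.exp (-(x.2 : ℝ) ^ 2) : ℝ) : ℂ) := by
    rintro ⟨ω, r⟩
    have hω : ‖(ω : Cm m)‖ = 1 := mem_sphere_zero_iff_norm.1 ω.2
    have hr : 0 < (r : ℝ) := r.2
    rw [homeomorphUnitSphereProd_symm_apply_coe]
    unfold GF
    have e1 : ‖((r : ℝ) • (ω : Cm m))‖ = (r : ℝ) := by
      rw [norm_smul, hω, Real.norm_of_nonneg hr.le, mul_one]
    have e2 : ∀ γ : Fin m → ℕ, ∏ j, (((r : ℝ) • (ω : Cm m)) j) ^ γ j = ((r : ℝ) : ℂ) ^ deg γ * mono γ ω := by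
      intro γ
      have : ∀ j, (((r : ℝ) • (ω : Cm m)) j) ^ γ j = ((r : ℝ) : ℂ) ^ γ j * (ω : Cm m) j ^ γ j := by
        intro j
        rw [PiLp.smul_apply, Complex.real_smul, mul_pow]
      rw [Finset.prod_congr rfl fun j _ => this j, Finset.prod_mul_distrib, Finset.prod_pow_eq_pow_sum]
      rfl
    show (∏ j, (((r : ℝ) • (ω : Cm m)) j) ^ α j) * (starRingEnd ℂ) (∏ j, (((r : ℝ) • (ω : Cm m)) j) ^ β j) *
      ((Real.exp (-‖((r : ℝ) • (ω : Cm m))‖ ^ 2) : ℝ) : ℂ) = _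
    rw [e1, e2, e2, map_mul, map_pow, Complex.conj_ofReal]
    push_cast
    rw [pow_add]
    ring
  rw [h1, h2]
  simp only [h3]
  have h4 : ∫ r : Set.Ioi (0 : ℝ), (((r : ℝ) ^ (deg α + deg β) * Real.exp (-(r : ℝ) ^ 2) : ℝ) : ℂ)
      ∂(Measure.volumeIoiPow (Module.finrank ℝ (Cm m) - 1)) =
      ((1 / 2 * Real.Gamma (((2 * m - 1 + (deg α + deg β) + 1 : ℕ) : ℝ) / 2) : ℝ) : ℂ) := by
    have h5 := integral_ofReal (𝕜 := ℂ) (μ := Measure.volumeIoiPow (Module.finrank ℝ (Cm m) - 1))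
      (f := fun r : Set.Ioi (0 : ℝ) => (r : ℝ) ^ (deg α + deg β) * Real.exp (-(r : ℝ) ^ 2))
    refine Eq.trans h5 ?_
    rw [radial, finrank_Cm]
    rfl
  rw [integral_prod_mul (μ := μ.toSphere)
    (f := fun ω : Sp m => mono α ω * (starRingEnd ℂ) (mono β ω))
    (g := fun r : Set.Ioi (0 : ℝ) => (((r : ℝ) ^ (deg α + deg β) * Real.exp (-(r : ℝ) ^ 2) : ℝ) : ℂ)),
    h4]
  rfl

theorem moment (m : ℕ) (hm : 0 < m) (α β : Fin m → ℕ) :
    ∫ z, mono α z * (starRingEnd ℂ) (mono β z) ∂(sig m) =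
      if α = β then
        ((2 * Real.pi ^ m * (∏ j, ((α j).factorial : ℝ)) / ((deg α + m - 1).factorial : ℝ) : ℝ) : ℂ)
      else 0 := by
  have h := (int_prod α β).symm.trans (polar hm α β)
  have hpos : 0 < Real.Gamma (((2 * m - 1 + (deg α + deg β) + 1 : ℕ) : ℝ) / 2) :=
    Real.Gamma_pos_of_pos (by positivity)
  split_ifs with hab
  · subst hab
    have e1 : (((2 * m - 1 + (deg α + deg α) + 1 : ℕ) : ℝ) / 2) = ((deg α + m - 1 : ℕ) : ℝ) + 1 := by
      have : 2 * m - 1 + (deg α + deg α) + 1 = 2 * (deg α + m - 1 + 1) := by omega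
      rw [this]
      push_cast
      ring
    rw [e1, Real.Gamma_nat_eq_factorial] at h
    have e2 : ∏ j, ∫ w : ℂ, w ^ α j * (starRingEnd ℂ) w ^ α j * ((Real.exp (-‖w‖ ^ 2) : ℝ) : ℂ) =
        ((Real.pi ^ m * ∏ j, ((α j).factorial : ℝ) : ℝ) : ℂ) := by
      simp only [gauss_eq]
      rw [← Complex.ofReal_prod, Finset.prod_mul_distrib]
      simp
    rw [e2] at h
    have hf : (((deg α + m - 1).factorial : ℝ) : ℂ) ≠ 0 := by
      exact_mod_cast (Nat.factorial_pos _).ne'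
    have h5 : ∫ z, mono α z * (starRingEnd ℂ) (mono α z) ∂(sig m) =
        ((Real.pi ^ m * ∏ j, ((α j).factorial : ℝ) : ℝ) : ℂ) / ((1 / 2 * ((deg α + m - 1).factorial : ℝ) : ℝ) : ℂ) := by
      have hne : ((1 / 2 * ((deg α + m - 1).factorial : ℝ) : ℝ) : ℂ) ≠ 0 := by
        rw [Complex.ofReal_ne_zero]
        positivity
      rw [eq_div_iff hne]
      exact h.symm
    rw [h5, ← Complex.ofReal_div]
    congr 1
    field_simp
  · have hj : ∃ j, α j ≠ β j := by
      by_contra hcon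
      push Not at hcon
      exact hab (funext hcon)
    obtain ⟨j, hj⟩ := hj
    have e2 : ∏ j, ∫ w : ℂ, w ^ α j * (starRingEnd ℂ) w ^ β j * ((Real.exp (-‖w‖ ^ 2) : ℝ) : ℂ) = 0 :=
      Finset.prod_eq_zero (Finset.mem_univ j) (gauss_ne _ _ hj)
    rw [e2] at h
    rcases mul_eq_zero.1 h.symm with h6 | h6
    · exact h6
    · exfalso
      have h7 : (1 / 2 * Real.Gamma (((2 * m - 1 + (deg α + deg β) + 1 : ℕ) : ℝ) / 2) : ℝ) = 0 := by
        exact_mod_cast h6
      linarith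

end Pool.Agent.Helper12.BP
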