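import Pool.Agent.Helper12.BP.Mul
import Pool.Agent.Helper12.BP.Moment

/-!
PROJECT BP, block K, module K-4 (Nrm): norms of monomials; the basis of the Hardy space is orthonormal.

PROOF. `nu α ^ 2 = ∫ ‖mono α‖²`, and `‖w‖² = w conj w` as complex numbers (`Complex.mul_conj`, `integral_ofReal`), so `nu_sq` is `moment` with `α = β`.
`nu_step`: `(|α|+1+m-1)! = (|α|+m) (|α|+m-1)!`, `(α_j+1)! = (α_j+1) α_j!` (`Finset.prod_update_of_mem`).
`bL_orthonormal`: `inner (bL i) (bL j) = ∫ inner (bas i z) (bas j z)` (`L2.inner_def`, `ContinuousMap.coeFn_toLp`, `integral_congr_ae`);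
pointwise it is `(nu i.1)⁻¹ (nu j.1)⁻¹ conj(mono i.1 z) (mono j.1 z)` times `[i.2 = j.2]`.
-/

set_option autoImplicit false

namespace Pool.Agent.Helper12.BP

open MeasureTheory

private theorem nu_sq_int {m : ℕ} (α : Fin m → ℕ) :
    nu α ^ 2 = ∫ z, ‖mono α z‖ ^ 2 ∂(sig m) := by
  unfold nu
  rw [Real.sq_sqrt]
  exact integral_nonneg fun z => by positivity

private theorem nu_sq_intC {m : ℕ} (α : Fin m → ℕ) :
    ((nu α ^ 2 : ℝ) : ℂ) = ∫ z, mono α z * (starRingEnd ℂ) (mono α z) ∂(sig m) := by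
  rw [nu_sq_int, ← integral_complex_ofReal]
  congr 1
  funext z
  rw [Complex.mul_conj, Complex.normSq_eq_norm_sq]

theorem nu_sq {m : ℕ} (hm : 0 < m) (α : Fin m → ℕ) :
    nu α ^ 2 = 2 * Real.pi ^ m * (∏ j, ((α j).factorial : ℝ)) / ((deg α + m - 1).factorial : ℝ) := by
  have h := nu_sq_intC α
  rw [moment m hm α α, if_pos rfl] at h
  exact_mod_cast h

theorem nu_pos {m : ℕ} (hm : 0 < m) (α : Fin m → ℕ) : 0 < nu α := by
  have h := nu_sq hm α
  have h1 : 0 < nu α ^ 2 := by
    rw [h]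
    have h2 : 0 < ∏ j, ((α j).factorial : ℝ) := Finset.prod_pos fun j _ => by positivity
    have := Real.pi_pos
    positivity
  have h0 : 0 ≤ nu α := Real.sqrt_nonneg _
  rcases h0.eq_or_lt with h3 | h3
  · rw [← h3] at h1
    norm_num at h1
  · exact h3

theorem nu_step {m : ℕ} (hm : 0 < m) (α : Fin m → ℕ) (j : Fin m) :
    nu (Function.update α j (α j + 1)) ^ 2 * ((deg α : ℝ) + m) = nu α ^ 2 * ((α j : ℝ) + 1) := by
  rw [nu_sq hm, nu_sq hm]
  have hdeg : deg (Function.update α j (α j + 1)) = deg α + 1 := by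
    unfold deg
    rw [Finset.sum_update_of_mem (Finset.mem_univ j),
      ← Finset.add_sum_erase Finset.univ α (Finset.mem_univ j), Finset.sdiff_singleton_eq_erase]
    ring
  have hprod : (∏ i, ((Function.update α j (α j + 1) i).factorial : ℝ)) =
      ((α j : ℝ) + 1) * ∏ i, ((α i).factorial : ℝ) := by
    rw [← Finset.mul_prod_erase Finset.univ (fun i => ((α i).factorial : ℝ)) (Finset.mem_univ j),
      ← Finset.mul_prod_erase Finset.univ
        (fun i => ((Function.update α j (α j + 1) i).factorial : ℝ)) (Finset.mem_univ j)]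
    have h1 : (∏ x ∈ Finset.univ.erase j, ((Function.update α j (α j + 1) x).factorial : ℝ)) =
        ∏ x ∈ Finset.univ.erase j, ((α x).factorial : ℝ) := by
      apply Finset.prod_congr rfl
      intro x hx
      rw [Function.update_of_ne (Finset.ne_of_mem_erase hx)]
    rw [h1, Function.update_self, Nat.factorial_succ]
    push_cast
    ring
  rw [hdeg, hprod]
  obtain ⟨k, rfl⟩ : ∃ k, m = k + 1 := ⟨m - 1, by omega⟩
  have e1 : deg α + 1 + (k + 1) - 1 = (deg α + k) + 1 := by omega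
  have e2 : deg α + (k + 1) - 1 = deg α + k := by omega
  rw [e1, e2, Nat.factorial_succ]
  have h3 : (((deg α + k).factorial : ℕ) : ℝ) ≠ 0 := by positivity
  have h4 : ((deg α : ℝ) + (k : ℝ) + 1) ≠ 0 := by positivity
  push_cast
  field_simp
  ring

theorem bL_orthonormal {m : ℕ} (hm : 0 < m) {ι : Type} [Fintype ι] [DecidableEq ι] :
    Orthonormal ℂ (bL : Hx m ι → LL m ι) := by
  rw [orthonormal_iff_ite]
  intro i j
  rw [L2.inner_def]
  have h1 : ∫ a, inner ℂ ((bL i : LL m ι) a) ((bL j : LL m ι) a) ∂(sig m) =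
      ∫ z, ((nu i.1 : ℂ)⁻¹ * (nu j.1 : ℂ)⁻¹ * (if i.2 = j.2 then 1 else 0)) *
        (mono j.1 z * (starRingEnd ℂ) (mono i.1 z)) ∂(sig m) := by
    apply integral_congr_ae
    filter_upwards [ContinuousMap.coeFn_toLp (𝕜 := ℂ) (p := 2) (sig m) (bas i : C(Sp m, W ι)),
      ContinuousMap.coeFn_toLp (𝕜 := ℂ) (p := 2) (sig m) (bas j : C(Sp m, W ι))] with z h1 h2
    unfold bL
    rw [h1, h2]
    have e : ∀ i : Hx m ι, (bas i : C(Sp m, W ι)) z =
      ((nu i.1 : ℂ)⁻¹ * mono i.1 z) • EuclideanSpace.single i.2 (1 : ℂ) := fun i => rfl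
    rw [e i, e j, inner_smul_left, inner_smul_right, EuclideanSpace.inner_single_left,
      map_mul, map_inv₀, Complex.conj_ofReal]
    by_cases h : i.2 = j.2
    · rw [h]
      simp
      ring
    · simp [h]
  rw [h1, integral_const_mul, moment m hm]
  have hn := nu_pos hm i.1
  have hn' : (nu i.1 : ℂ) ≠ 0 := by exact_mod_cast hn.ne'
  by_cases h : i = j
  · subst h
    rw [if_pos rfl, if_pos rfl, if_pos rfl, ← nu_sq hm]
    push_cast
    field_simp
  · rw [if_neg h]
    by_cases h2 : i.2 = j.2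
    · have h3 : j.1 ≠ i.1 := fun h3 => h (Prod.ext h3.symm h2)
      rw [if_neg h3, mul_zero]
    · rw [if_neg h2]
      simp

end Pool.Agent.Helper12.BP
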