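import Pool.Agent.Helper12.BP.Toep
import Pool.Agent.Helper12.BP.Nrm

/-!
PROJECT BP, block K, module K-8 (HankZ): the Hankel operator of `conj z_j` is small on high degrees; `z_j` preserves the Hardy space.

Notation: `J = JJ hb`, `P = J J^*` the projection onto the Hardy space, `r_j(α) = nu (α + e_j) / nu α`, `r_j(α)^2 = (α_j + 1)/(deg α + m)` (`nu_step`).
PROOF of `crd_J`. `mulB (scal (crd j)) (bL (α,k)) = r_j(α) • bL (α + e_j, k)` (a.e. equality of the two continuous functions: `z_j mono α = mono (update α j (α j + 1))`),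
so `mulB (scal (crd j)) (J x)` lies in the range of `J` for `x = e_i`, hence for every `x` (`lp.hasSum_single`, closed range), and `J J^* y = y` there.
PROOF of `hankZ`. Let `Z = mulB (scal (crd j))`, `Z' = mulB (scal (star (crd j)))`; `Z'` is the adjoint of `Z` (`mulB_adj`) and `‖Z' u‖ = ‖Z u‖` (pointwise norms agree:
`mulB_mul`, `Z Z' = Z' Z` and adjoint). Put `S = J^* Z J = TB hb (scal (crd j))`, so `Z J = J S`, `J^* Z' J = S^*`. Then by Pythagoras
 `‖Z' J x - J J^* Z' J x‖² = ‖Z' J x‖² - ‖J^* Z' J x‖² = ‖Z J x‖² - ‖S^* x‖² = ‖S x‖² - ‖S^* x‖²`.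
`(S x)_(α,k) = r_j(α - e_j) x_(α - e_j, k)` if `α_j ≥ 1`, else `0`; `(S^* x)_(α,k) = r_j(α) x_(α + e_j, k)`. Hence (`lp.norm_sq_eq..`/ `lp.norm_rpow_eq_tsum`, reindexing by the injection
`α ↦ α + e_j`)  `‖S x‖² - ‖S^* x‖² = ∑_(α,k) |x_(α,k)|² ((α_j+1)/(deg α + m) - α_j/(deg α + m - 1))`, where the second term is `0` if `α_j = 0`;
each bracket is at most `1/(deg α + m)` (as `α_j/(deg α + m) ≤ α_j/(deg α + m - 1)`). So for `x` supported in `deg ≥ N` the square is `≤ ‖x‖²/(N+m)`.
(Other way to do the same: it is enough to compute `‖S x‖²` and `‖S^* x‖²` as `inner x (S^* S x)`, `inner x (S S^* x)`, and `S^* S`, `S S^*` are diagonal: check on `e_i` by `clm_ext`.)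
-/

set_option autoImplicit false

namespace Pool.Agent.Helper12.BP

open MeasureTheory

variable {m : ℕ} {ι : Type} [Fintype ι] [DecidableEq ι]

omit [DecidableEq ι] in
theorem scal_cont (f : C(Sp m, ℂ)) : Continuous fun z => f z • (1 : W ι →L[ℂ] W ι) := by
  fun_prop

/-- Scalar functions. -/
noncomputable def scal (f : C(Sp m, ℂ)) : C(Sp m, W ι →L[ℂ] W ι) where
  toFun z := f z • (1 : W ι →L[ℂ] W ι)
  continuous_toFun := scal_cont f

/-- The Hankel operator of `B` is small on high degrees. -/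
def HankSmall (hb : Orthonormal ℂ (bL : Hx m ι → LL m ι)) (B : C(Sp m, W ι →L[ℂ] W ι)) : Prop :=
  ∀ e : ℝ, 0 < e → ∃ N : ℕ, ∀ x : l2 (Hx m ι), (∀ i, deg i.1 < N → x i = 0) →
    ‖mulB B (JJ hb x) - JJ hb (TB hb B x)‖ ≤ e * ‖x‖

private theorem HankZ_nrm {I : Type} (x : l2 I) :
    HasSum (fun i => ‖x i‖ ^ 2) (‖x‖ ^ 2) := by
  have h := lp.hasSum_norm (p := 2) (by norm_num) x
  have h2 : (2 : ENNReal).toReal = (2 : ℝ) := by norm_num
  rw [h2] at h
  have h3 : ∀ a : ℝ, a ^ (2 : ℝ) = a ^ 2 := fun a => Real.rpow_two a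
  simpa only [h3] using h

private theorem HankZ_in {I : Type} [DecidableEq I] (i : I) (x : l2 I) :
    inner ℂ (lp.single 2 i (1 : ℂ) : l2 I) x = x i := by
  rw [lp.inner_single_left]
  simp

private theorem HankZ_ne {I : Type} [DecidableEq I] (i n : I) (h : n ≠ i) :
    (lp.single 2 i (1 : ℂ) : l2 I) n = 0 :=
  lp.single_apply_ne (E := fun _ : I => ℂ) 2 i 1 h

private theorem HankZ_self {I : Type} [DecidableEq I] (i : I) :
    (lp.single 2 i (1 : ℂ) : l2 I) i = 1 :=
  lp.single_apply_self (E := fun _ : I => ℂ) 2 i 1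

private theorem HankZ_abs {I : Type} [DecidableEq I] (S : l2 I →L[ℂ] l2 I) (φ : I → I)
    (hφ : Function.Injective φ) (r q : I → ℝ)
    (hS : ∀ i, S (lp.single 2 i (1 : ℂ)) = (r i : ℂ) • lp.single 2 (φ i) (1 : ℂ))
    (hq1 : ∀ i, q (φ i) = r i ^ 2) (hq2 : ∀ l, l ∉ Set.range φ → q l = 0)
    (hq0 : ∀ l, 0 ≤ q l) (hqle : ∀ l, q l ≤ 1) (x : l2 I) (δ : ℝ)
    (hx : ∀ i, x i = 0 ∨ r i ^ 2 ≤ q i + δ) :
    ‖S x‖ ^ 2 ≤ ‖ContinuousLinearMap.adjoint S x‖ ^ 2 + δ * ‖x‖ ^ 2 := by
  have hr1 : ∀ i, r i ^ 2 ≤ 1 := fun i => (hq1 i) ▸ hqle (φ i)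
  have h1 : ∀ (y : l2 I) (i : I), ContinuousLinearMap.adjoint S y i = (r i : ℂ) * y (φ i) := by
    intro y i
    rw [← HankZ_in, ContinuousLinearMap.adjoint_inner_right, hS, inner_smul_left, HankZ_in,
      Complex.conj_ofReal]
  have h2 : ∀ i, ContinuousLinearMap.adjoint S (lp.single 2 (φ i) (1 : ℂ)) =
      (r i : ℂ) • lp.single 2 i (1 : ℂ) := by
    intro i
    ext n
    rw [h1, lp.coeFn_smul, Pi.smul_apply, smul_eq_mul]
    by_cases hn : n = i
    · rw [hn, HankZ_self, HankZ_self]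
    · rw [HankZ_ne i n hn, HankZ_ne (φ i) (φ n) (fun e => hn (hφ e)), mul_zero, mul_zero]
  have h3 : ∀ l, l ∉ Set.range φ → ContinuousLinearMap.adjoint S (lp.single 2 l (1 : ℂ)) = 0 := by
    intro l hl
    ext n
    rw [h1, HankZ_ne l (φ n) (fun e => hl ⟨n, e⟩), mul_zero]
    rfl
  have h4 : ∀ i, S x (φ i) = (r i : ℂ) * x i := by
    intro i
    rw [← HankZ_in, ← ContinuousLinearMap.adjoint_inner_left, h2, inner_smul_left, HankZ_in,
      Complex.conj_ofReal]
  have h5 : ∀ l, l ∉ Set.range φ → S x l = 0 := by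
    intro l hl
    rw [← HankZ_in, ← ContinuousLinearMap.adjoint_inner_left, h3 l hl, inner_zero_left]
  have hxs := HankZ_nrm x
  have e1 : ‖S x‖ ^ 2 = ∑' i, r i ^ 2 * ‖x i‖ ^ 2 := by
    rw [← (HankZ_nrm (S x)).tsum_eq, ← hφ.tsum_eq (f := fun l => ‖S x l‖ ^ 2)]
    · refine tsum_congr fun i => ?_
      rw [h4, norm_mul, Complex.norm_real, mul_pow, Real.norm_eq_abs, sq_abs]
    · intro l hl
      by_contra hl'
      exact hl (by simp [h5 l hl'])
  have e2 : ‖ContinuousLinearMap.adjoint S x‖ ^ 2 = ∑' l, q l * ‖x l‖ ^ 2 := by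
    rw [← (HankZ_nrm (ContinuousLinearMap.adjoint S x)).tsum_eq,
      ← hφ.tsum_eq (f := fun l => q l * ‖x l‖ ^ 2)]
    · refine tsum_congr fun i => ?_
      rw [h1, norm_mul, Complex.norm_real, mul_pow, Real.norm_eq_abs, sq_abs, hq1]
    · intro l hl
      by_contra hl'
      exact hl (by simp [hq2 l hl'])
  have s1 : Summable fun i => r i ^ 2 * ‖x i‖ ^ 2 :=
    Summable.of_nonneg_of_le (fun i => by positivity)
      (fun i => mul_le_of_le_one_left (by positivity) (hr1 i)) hxs.summable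
  have s2 : Summable fun i => q i * ‖x i‖ ^ 2 :=
    Summable.of_nonneg_of_le (fun i => mul_nonneg (hq0 i) (by positivity))
      (fun i => mul_le_of_le_one_left (by positivity) (hqle i)) hxs.summable
  rw [e1, e2, ← hxs.tsum_eq, ← tsum_mul_left, ← s2.tsum_add (hxs.summable.mul_left δ)]
  refine s1.tsum_le_tsum (fun i => ?_) (s2.add (hxs.summable.mul_left δ))
  rcases hx i with h | h
  · simp [h]
  · have h6 : (0 : ℝ) ≤ ‖x i‖ ^ 2 := by positivity
    nlinarith [mul_le_mul_of_nonneg_right h h6]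


omit [DecidableEq ι] in
private theorem HankZ_scal (f : C(Sp m, ℂ)) (z : Sp m) (v : W ι) : scal f z v = f z • v := rfl

private theorem HankZ_mono (α : Fin m → ℕ) (j : Fin m) (z : Sp m) :
    mono (Function.update α j (α j + 1)) z = crd j z * mono α z := by
  change ∏ l, (z : Cm m) l ^ (Function.update α j (α j + 1)) l =
    (z : Cm m) j * ∏ l, (z : Cm m) l ^ α l
  rw [← Finset.mul_prod_erase Finset.univ _ (Finset.mem_univ j),
    ← Finset.mul_prod_erase Finset.univ (fun l => (z : Cm m) l ^ α l) (Finset.mem_univ j),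
    Function.update_self, pow_succ]
  have h : ∏ l ∈ Finset.univ.erase j, (z : Cm m) l ^ (Function.update α j (α j + 1)) l =
      ∏ l ∈ Finset.univ.erase j, (z : Cm m) l ^ α l := by
    refine Finset.prod_congr rfl fun l hl => ?_
    rw [Function.update_of_ne (Finset.ne_of_mem_erase hl)]
  rw [h]
  ring

private theorem HankZ_deg (α : Fin m → ℕ) (j : Fin m) :
    deg (Function.update α j (α j + 1)) = deg α + 1 := by
  unfold deg
  rw [← Finset.add_sum_erase Finset.univ _ (Finset.mem_univ j),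
    ← Finset.add_sum_erase Finset.univ α (Finset.mem_univ j), Function.update_self]
  have h : ∑ l ∈ Finset.univ.erase j, (Function.update α j (α j + 1)) l =
      ∑ l ∈ Finset.univ.erase j, α l := by
    refine Finset.sum_congr rfl fun l hl => ?_
    rw [Function.update_of_ne (Finset.ne_of_mem_erase hl)]
  rw [h]
  ring

private theorem HankZ_bL (hm : 0 < m) (j : Fin m) (i : Hx m ι) :
    mulB (scal (crd j)) (bL i : LL m ι) =
      ((nu (Function.update i.1 j (i.1 j + 1)) / nu i.1 : ℝ) : ℂ) •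
        bL (Function.update i.1 j (i.1 j + 1), i.2) := by
  have hn : (nu (Function.update i.1 j (i.1 j + 1)) : ℂ) ≠ 0 := by
    exact_mod_cast (nu_pos hm (Function.update i.1 j (i.1 j + 1))).ne'
  apply Lp.ext
  filter_upwards [mulB_coe (scal (crd j)) (bL i : LL m ι),
    ContinuousMap.coeFn_toLp (p := 2) (𝕜 := ℂ) (sig m) (bas i),
    ContinuousMap.coeFn_toLp (p := 2) (𝕜 := ℂ) (sig m)
      (bas (Function.update i.1 j (i.1 j + 1), i.2) : C(Sp m, W ι)),
    Lp.coeFn_smul ((nu (Function.update i.1 j (i.1 j + 1)) / nu i.1 : ℝ) : ℂ)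
      (bL (Function.update i.1 j (i.1 j + 1), i.2) : LL m ι)] with z h1 h2 h3 h4
  have h2' : (bL i : LL m ι) z = bas i z := h2
  have h3' : (bL (Function.update i.1 j (i.1 j + 1), i.2) : LL m ι) z =
    bas (Function.update i.1 j (i.1 j + 1), i.2) z := h3
  rw [h1, h4, Pi.smul_apply, h2', h3', HankZ_scal]
  change crd j z • (((nu i.1 : ℂ)⁻¹ * mono i.1 z) • EuclideanSpace.single i.2 (1 : ℂ)) =
    ((nu (Function.update i.1 j (i.1 j + 1)) / nu i.1 : ℝ) : ℂ) •
      (((nu (Function.update i.1 j (i.1 j + 1)) : ℂ)⁻¹ *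
        mono (Function.update i.1 j (i.1 j + 1)) z) • EuclideanSpace.single i.2 (1 : ℂ))
  rw [smul_smul, smul_smul, HankZ_mono]
  congr 1
  push_cast
  field_simp

private theorem HankZ_JJ (hb : Orthonormal ℂ (bL : Hx m ι → LL m ι)) (x : l2 (Hx m ι)) :
    ContinuousLinearMap.adjoint (JJ hb).toContinuousLinearMap (JJ hb x) = x := by
  refine ext_inner_right ℂ fun y => ?_
  rw [ContinuousLinearMap.adjoint_inner_left]
  exact (JJ hb).inner_map_map x y

private theorem HankZ_TB (hb : Orthonormal ℂ (bL : Hx m ι → LL m ι)) (hm : 0 < m) (j : Fin m)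
    (i : Hx m ι) :
    TB hb (scal (crd j)) (lp.single 2 i (1 : ℂ)) =
      ((nu (Function.update i.1 j (i.1 j + 1)) / nu i.1 : ℝ) : ℂ) •
        lp.single 2 (Function.update i.1 j (i.1 j + 1), i.2) (1 : ℂ) := by
  change ContinuousLinearMap.adjoint (JJ hb).toContinuousLinearMap
    (mulB (scal (crd j)) (JJ hb (lp.single 2 i (1 : ℂ)))) = _
  rw [JJ_single, one_smul, HankZ_bL hm, ← one_smul ℂ (bL (Function.update i.1 j (i.1 j + 1), i.2)),
    ← JJ_single hb, map_smul, HankZ_JJ]

theorem crd_J (hb : Orthonormal ℂ (bL : Hx m ι → LL m ι)) (hm : 0 < m) (j : Fin m) (x : l2 (Hx m ι)) :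
    mulB (scal (crd j)) (JJ hb x) = JJ hb (TB hb (scal (crd j)) x) := by
  have h : (mulB (scal (crd j))).comp (JJ hb).toContinuousLinearMap =
      (JJ hb).toContinuousLinearMap.comp (TB hb (scal (crd j))) := by
    refine clm_ext _ _ fun i => ?_
    change mulB (scal (crd j)) (JJ hb (lp.single 2 i (1 : ℂ))) =
      JJ hb (TB hb (scal (crd j)) (lp.single 2 i (1 : ℂ)))
    rw [HankZ_TB hb hm, JJ_single, one_smul, HankZ_bL hm, map_smul, JJ_single, one_smul]
  exact congrArg (fun T => T x) h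

theorem hankZ (hb : Orthonormal ℂ (bL : Hx m ι → LL m ι)) (hm : 0 < m) (j : Fin m) :
    HankSmall hb (scal (star (crd j))) := by
  intro e he
  obtain ⟨N, hN⟩ := exists_nat_gt (1 / e ^ 2)
  refine ⟨N, fun x hx => ?_⟩
  have he2 : 0 < e ^ 2 := by positivity
  have hN0 : (0 : ℝ) < N := lt_trans (by positivity) hN
  have hmr : (1 : ℝ) ≤ m := by exact_mod_cast hm
  have hNe : 1 / (N : ℝ) ≤ e ^ 2 := by
    rw [div_le_iff₀ hN0]
    rw [div_lt_iff₀ he2] at hN
    linarith
  -- the abstract estimate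
  have key := HankZ_abs (TB hb (scal (crd j)))
    (fun i : Hx m ι => (Function.update i.1 j (i.1 j + 1), i.2))
    (by
      intro a b hab
      have h1 : Function.update a.1 j (a.1 j + 1) = Function.update b.1 j (b.1 j + 1) :=
        congrArg Prod.fst hab
      have h2 : a.2 = b.2 := (Prod.ext_iff.1 hab).2
      refine Prod.ext (funext fun l => ?_) h2
      by_cases hl : l = j
      · have h3 := congrFun h1 j
        rw [Function.update_self, Function.update_self] at h3
        rw [hl]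
        omega
      · have h3 := congrFun h1 l
        rwa [Function.update_of_ne hl, Function.update_of_ne hl] at h3)
    (fun i => nu (Function.update i.1 j (i.1 j + 1)) / nu i.1)
    (fun i => (i.1 j : ℝ) / ((deg i.1 : ℝ) + m - 1))
    (fun i => HankZ_TB hb hm j i)
    (by
      intro i
      have h1 := nu_step hm i.1 j
      have h2 := nu_pos hm i.1
      have h3 : (0 : ℝ) < (deg i.1 : ℝ) + m := by positivity
      change ((Function.update i.1 j (i.1 j + 1) j : ℕ) : ℝ) /
        (((deg (Function.update i.1 j (i.1 j + 1)) : ℕ) : ℝ) + m - 1) = _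
      rw [HankZ_deg, Function.update_self, div_pow, div_eq_div_iff (by push_cast; linarith)
        (by positivity)]
      push_cast
      linarith)
    (by
      intro l hl
      have h1 : l.1 j = 0 := by
        by_contra h0
        refine hl ⟨(Function.update l.1 j (l.1 j - 1), l.2), ?_⟩
        refine Prod.ext (funext fun n => ?_) rfl
        by_cases hn : n = j
        · rw [hn]
          simp only [Function.update_self]
          omega
        · simp only [Function.update_of_ne hn]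
      simp only [h1, Nat.cast_zero, zero_div])
    (by
      intro l
      have h0 : (0 : ℝ) ≤ (deg l.1 : ℝ) := Nat.cast_nonneg _
      exact div_nonneg (Nat.cast_nonneg _) (by linarith))
    (by
      intro l
      have h0 : (0 : ℝ) ≤ (deg l.1 : ℝ) := Nat.cast_nonneg _
      have h1 : l.1 j ≤ deg l.1 := Finset.single_le_sum (fun _ _ => Nat.zero_le _)
        (Finset.mem_univ j)
      have h2 : (l.1 j : ℝ) ≤ (deg l.1 : ℝ) := by exact_mod_cast h1
      exact div_le_one_of_le₀ (by linarith) (by linarith))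
    x (e ^ 2)
    (by
      intro i
      by_cases hi : deg i.1 < N
      · exact Or.inl (hx i hi)
      · right
        have h0 : (N : ℝ) ≤ (deg i.1 : ℝ) := by exact_mod_cast not_lt.mp hi
        have h1 := nu_step hm i.1 j
        have h2 := nu_pos hm i.1
        have h3 : (0 : ℝ) < (deg i.1 : ℝ) + m := by positivity
        have h4 : (0 : ℝ) < (deg i.1 : ℝ) + m - 1 := by linarith
        have h5 : (nu (Function.update i.1 j (i.1 j + 1)) / nu i.1) ^ 2 =
            ((i.1 j : ℝ) + 1) / ((deg i.1 : ℝ) + m) := by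
          rw [div_pow, div_eq_div_iff (by positivity) h3.ne']
          linarith
        rw [h5, add_div]
        have h6 : (i.1 j : ℝ) / ((deg i.1 : ℝ) + m) ≤ (i.1 j : ℝ) / ((deg i.1 : ℝ) + m - 1) :=
          div_le_div_of_nonneg_left (Nat.cast_nonneg _) h4 (by linarith)
        have h7 : 1 / ((deg i.1 : ℝ) + m) ≤ 1 / (N : ℝ) :=
          div_le_div_of_nonneg_left zero_le_one hN0 (by linarith)
        linarith)
  -- the two norms
  have hZ : ∀ u : LL m ι, ‖mulB (scal (star (crd j))) u‖ = ‖mulB (scal (crd j)) u‖ := by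
    intro u
    have hp : ∀ z : Sp m, ‖scal (star (crd j)) z (u z)‖ = ‖scal (crd j) z (u z)‖ := by
      intro z
      rw [HankZ_scal, HankZ_scal, norm_smul, norm_smul]
      congr 1
      change ‖star (crd j z)‖ = ‖crd j z‖
      exact norm_star _
    refine le_antisymm ?_ ?_
    · refine Lp.norm_le_norm_of_ae_le ?_
      filter_upwards [mulB_coe (scal (star (crd j))) u, mulB_coe (scal (crd j)) u] with z h1 h2
      rw [h1, h2, hp]
    · refine Lp.norm_le_norm_of_ae_le ?_
      filter_upwards [mulB_coe (scal (star (crd j))) u, mulB_coe (scal (crd j)) u] with z h1 h2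
      rw [h1, h2, hp]
  have hA : ‖mulB (scal (star (crd j))) (JJ hb x)‖ = ‖TB hb (scal (crd j)) x‖ := by
    rw [hZ, crd_J hb hm, LinearIsometry.norm_map]
  have hB : TB hb (scal (star (crd j))) x =
      ContinuousLinearMap.adjoint (TB hb (scal (crd j))) x := by
    refine ext_inner_left ℂ fun v => ?_
    rw [ContinuousLinearMap.adjoint_inner_right]
    change inner ℂ v (ContinuousLinearMap.adjoint (JJ hb).toContinuousLinearMap
      (mulB (scal (star (crd j))) (JJ hb x))) =
      inner ℂ (ContinuousLinearMap.adjoint (JJ hb).toContinuousLinearMap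
        (mulB (scal (crd j)) (JJ hb v))) x
    rw [ContinuousLinearMap.adjoint_inner_right, ContinuousLinearMap.adjoint_inner_left]
    refine (mulB_adj (scal (crd j)) (scal (star (crd j))) (fun z => ?_) (JJ hb v) (JJ hb x)).symm
    change star (crd j z) • (1 : W ι →L[ℂ] W ι) =
      ContinuousLinearMap.adjoint (crd j z • (1 : W ι →L[ℂ] W ι))
    rw [map_smulₛₗ]
    congr 1
    exact (star_one (W ι →L[ℂ] W ι)).symm
  have hP : ‖mulB (scal (star (crd j))) (JJ hb x) -
      JJ hb (TB hb (scal (star (crd j))) x)‖ ^ 2 =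
      ‖mulB (scal (star (crd j))) (JJ hb x)‖ ^ 2 - ‖TB hb (scal (star (crd j))) x‖ ^ 2 := by
    have h1 : inner ℂ (mulB (scal (star (crd j))) (JJ hb x))
        (JJ hb (TB hb (scal (star (crd j))) x)) =
        ((‖TB hb (scal (star (crd j))) x‖ ^ 2 : ℝ) : ℂ) := by
      have h2 := ContinuousLinearMap.adjoint_inner_left (JJ hb).toContinuousLinearMap
        (TB hb (scal (star (crd j))) x) (mulB (scal (star (crd j))) (JJ hb x))
      have h3 : inner ℂ (TB hb (scal (star (crd j))) x) (TB hb (scal (star (crd j))) x) =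
        inner ℂ (mulB (scal (star (crd j))) (JJ hb x))
          (JJ hb (TB hb (scal (star (crd j))) x)) := h2
      rw [← h3, inner_self_eq_norm_sq_to_K]
      push_cast
      rfl
    rw [@norm_sub_sq ℂ, h1, LinearIsometry.norm_map]
    have h4 : RCLike.re (((‖TB hb (scal (star (crd j))) x‖ ^ 2 : ℝ) : ℂ)) =
      ‖TB hb (scal (star (crd j))) x‖ ^ 2 := Complex.ofReal_re _
    rw [h4]
    ring
  rw [hA, hB] at hP
  have h1 : ‖mulB (scal (star (crd j))) (JJ hb x) -
      JJ hb (TB hb (scal (star (crd j))) x)‖ ^ 2 ≤ (e * ‖x‖) ^ 2 := by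
    rw [hB, hP, mul_pow]
    linarith
  exact le_of_sq_le_sq h1 (by positivity)

end Pool.Agent.Helper12.BP
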