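import Pool.Agent.Helper12.BP.Tt

/-!
PROJECT BP, block K, module K-16 (Kap): the Koszul matrix.

PROOF. By induction on `m` (statement over all `z : Fin m → ℂ`): a finite type `Λ`, `d : Λ → ℕ`, `K : (Fin m → ℂ) → Matrix Λ Λ ℂ` with `(K z)^H = K z`, `K z * K z = (∑ ‖z j‖²) • 1`,
each entry `K z μ λ` of the form `∑ a_j z_j` (and then `d λ = d μ + 1`), or `∑ a_j conj z_j` (and then `d μ = d λ + 1`), or identically zero, and `card {λ | d λ = k} = choose m k`.
`m = 0`: `Λ = Unit`, `d = 0`, `K = 0`. Step: `Λ' = Λ ⊕ Λ`, `d' = Sum.elim d (d + 1)`, `K'(z) = fromBlocks (K (tail z)) (z_0 • 1) (conj z_0 • 1) (- K (tail z))` (with `Fin.tail`, `z 0`):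
`K'² = fromBlocks (K² + |z_0|²) (z_0 K - z_0 K) (conj z_0 K - conj z_0 K) (|z_0|² + K²)`, and `card` by Pascal's rule (`Nat.choose_succ_succ`).
On the sphere `∑ ‖z j‖² = ‖z‖² = 1` (`EuclideanSpace.norm_sq_eq`). Continuity: every entry is continuous. The entries statement `tt ≠ 0 → ...` is `tt_lin`, `tt_colin` (zero function: `tt = 0`).
The last clause of the theorem: `d` has the parity `par`: `κ z μ λ ≠ 0` only if `d λ = d μ ± 1`.
-/

set_option autoImplicit false

namespace Pool.Agent.Helper12.BP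

private theorem kap_core (m : ℕ) : ∃ (Λ : Type) (_ : Fintype Λ) (_ : DecidableEq Λ) (d : Λ → ℕ)
    (K : (Fin m → ℂ) → Matrix Λ Λ ℂ),
    (∀ z, (K z).conjTranspose = K z) ∧
    (∀ z, K z * K z = (∑ j, z j * (starRingEnd ℂ) (z j)) • (1 : Matrix Λ Λ ℂ)) ∧
    (∀ k, (Finset.univ.filter fun l : Λ => d l = k).card = m.choose k) ∧
    (∀ u l, ((∃ a : Fin m → ℂ, ∀ z, K z u l = ∑ j, a j * z j) ∧ d l = d u + 1) ∨
      ((∃ a : Fin m → ℂ, ∀ z, K z u l = ∑ j, a j * (starRingEnd ℂ) (z j)) ∧ d u = d l + 1) ∨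
      (∀ z, K z u l = 0)) := by
  induction m with
  | zero =>
    refine ⟨Unit, inferInstance, inferInstance, fun _ => 0, fun _ => 0, ?_, ?_, ?_, ?_⟩
    · intro z
      simp
    · intro z
      simp
    · intro k
      cases k with
      | zero => simp
      | succ k => simp
    · intro u l
      exact Or.inr (Or.inr fun _ => rfl)
  | succ m ih =>
    obtain ⟨Λ, hF, hD, d, K, h1, h2, h3, h4⟩ := ih
    refine ⟨Λ ⊕ Λ, inferInstance, inferInstance, Sum.elim d (fun l => d l + 1),
      fun z => Matrix.fromBlocks (K (Fin.tail z)) (z 0 • (1 : Matrix Λ Λ ℂ))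
        ((starRingEnd ℂ) (z 0) • (1 : Matrix Λ Λ ℂ)) (-K (Fin.tail z)), ?_, ?_, ?_, ?_⟩
    · intro z
      rw [Matrix.fromBlocks_conjTranspose, Matrix.conjTranspose_smul, Matrix.conjTranspose_smul,
        Matrix.conjTranspose_one, Matrix.conjTranspose_neg, h1]
      simp
    · intro z
      rw [Matrix.fromBlocks_multiply, ← Matrix.fromBlocks_one, Matrix.fromBlocks_smul, Fin.sum_univ_succ]
      have h5 := h2 (Fin.tail z)
      have h6 : (∑ j, Fin.tail z j * (starRingEnd ℂ) (Fin.tail z j)) =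
          ∑ j : Fin m, z j.succ * (starRingEnd ℂ) (z j.succ) := rfl
      rw [h6] at h5
      congr 1
      · rw [h5, smul_mul_smul_comm, Matrix.one_mul, ← add_smul, add_comm]
      · simp
      · simp
      · rw [neg_mul_neg, h5, smul_mul_smul_comm, Matrix.one_mul, ← add_smul, mul_comm]
    · intro k
      have h5 : (Finset.univ.filter fun l : Λ ⊕ Λ => Sum.elim d (fun l => d l + 1) l = k) =
          ((Finset.univ.filter fun l : Λ => d l = k).disjSum
            (Finset.univ.filter fun l : Λ => d l + 1 = k)) := by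
        ext l
        rcases l with l | l <;> simp
      rw [h5, Finset.card_disjSum, h3]
      cases k with
      | zero => simp
      | succ k =>
        have h6 : (Finset.univ.filter fun l : Λ => d l + 1 = k + 1) =
            (Finset.univ.filter fun l : Λ => d l = k) := by
          ext l
          simp
        rw [h6, h3, Nat.choose_succ_succ, add_comm]
    · intro u l
      rcases u with u | u <;> rcases l with l | l
      · simp only [Matrix.fromBlocks_apply₁₁, Sum.elim_inl]
        rcases h4 u l with ⟨⟨a, ha⟩, hd⟩ | ⟨⟨a, ha⟩, hd⟩ | ha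
        · refine Or.inl ⟨⟨Fin.cons 0 a, fun z => ?_⟩, hd⟩
          rw [ha, Fin.sum_univ_succ, Fin.cons_zero, zero_mul, zero_add]
          simp only [Fin.cons_succ]
          rfl
        · refine Or.inr (Or.inl ⟨⟨Fin.cons 0 a, fun z => ?_⟩, hd⟩)
          rw [ha, Fin.sum_univ_succ, Fin.cons_zero, zero_mul, zero_add]
          simp only [Fin.cons_succ]
          rfl
        · exact Or.inr (Or.inr fun z => ha _)
      · simp only [Matrix.fromBlocks_apply₁₂, Sum.elim_inl, Sum.elim_inr, Matrix.smul_apply]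
        by_cases hul : u = l
        · subst hul
          refine Or.inl ⟨⟨Fin.cons 1 0, fun z => ?_⟩, rfl⟩
          rw [Fin.sum_univ_succ]
          simp
        · refine Or.inr (Or.inr fun z => ?_)
          rw [Matrix.one_apply_ne hul, smul_zero]
      · simp only [Matrix.fromBlocks_apply₂₁, Sum.elim_inl, Sum.elim_inr, Matrix.smul_apply]
        by_cases hul : u = l
        · subst hul
          refine Or.inr (Or.inl ⟨⟨Fin.cons 1 0, fun z => ?_⟩, rfl⟩)
          rw [Fin.sum_univ_succ]
          simp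
        · refine Or.inr (Or.inr fun z => ?_)
          rw [Matrix.one_apply_ne hul, smul_zero]
      · simp only [Matrix.fromBlocks_apply₂₂, Sum.elim_inr, Matrix.neg_apply]
        rcases h4 u l with ⟨⟨a, ha⟩, hd⟩ | ⟨⟨a, ha⟩, hd⟩ | ha
        · refine Or.inl ⟨⟨Fin.cons 0 (-a), fun z => ?_⟩, by omega⟩
          rw [ha, Fin.sum_univ_succ, Fin.cons_zero, zero_mul, zero_add, ← Finset.sum_neg_distrib]
          refine Finset.sum_congr rfl fun j _ => ?_
          rw [Fin.cons_succ, Pi.neg_apply, neg_mul]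
          rfl
        · refine Or.inr (Or.inl ⟨⟨Fin.cons 0 (-a), fun z => ?_⟩, by omega⟩)
          rw [ha, Fin.sum_univ_succ, Fin.cons_zero, zero_mul, zero_add, ← Finset.sum_neg_distrib]
          refine Finset.sum_congr rfl fun j _ => ?_
          rw [Fin.cons_succ, Pi.neg_apply, neg_mul]
          rfl
        · exact Or.inr (Or.inr fun z => by rw [ha, neg_zero])

theorem kapEx {m : ℕ} (hm : 0 < m) : ∃ (Λ : Type) (_ : Fintype Λ) (_ : DecidableEq Λ) (d : Λ → ℕ)
    (κ : C(Sp m, Matrix Λ Λ ℂ)),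
    (∀ z, (κ z).conjTranspose = κ z) ∧ (∀ z, κ z * κ z = 1) ∧
    (∀ k, (Finset.univ.filter fun l : Λ => d l = k).card = m.choose k) ∧
    (∀ u l (β α : Fin m → ℕ), tt (ent κ u l) β α ≠ 0 → deg β + d u = deg α + d l) ∧
    (∀ z u l, decide (Odd (d u)) = decide (Odd (d l)) → κ z u l = 0) := by
  obtain ⟨Λ, hF, hD, d, K, h1, h2, h3, h4⟩ := kap_core m
  have hcont : Continuous fun z : Sp m => K (fun j => (z : Cm m) j) := by
    refine continuous_matrix fun u l => ?_
    rcases h4 u l with ⟨⟨a, ha⟩, -⟩ | ⟨⟨a, ha⟩, -⟩ | ha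
    · simp only [ha]
      fun_prop
    · simp only [ha]
      refine continuous_finsetSum _ fun j _ => continuous_const.mul ?_
      exact Complex.continuous_conj.comp (by fun_prop)
    · simp only [ha]
      exact continuous_const
  refine ⟨Λ, hF, hD, d, ⟨fun z => K (fun j => (z : Cm m) j), hcont⟩, ?_, ?_, h3, ?_, ?_⟩
  · intro z
    exact h1 _
  · intro z
    change K _ * K _ = 1
    rw [h2]
    have h5 : (∑ j, (z : Cm m) j * (starRingEnd ℂ) ((z : Cm m) j)) = 1 := by
      have h6 := z.2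
      rw [mem_sphere_zero_iff_norm] at h6
      have h7 := EuclideanSpace.norm_sq_eq (z : Cm m)
      rw [h6] at h7
      have h8 : (((1 : ℝ) ^ 2 : ℝ) : ℂ) = ((∑ j, ‖(z : Cm m) j‖ ^ 2 : ℝ) : ℂ) := by rw [h7]
      rw [Complex.ofReal_sum] at h8
      rw [one_pow, Complex.ofReal_one] at h8
      rw [h8]
      refine Finset.sum_congr rfl fun j _ => ?_
      rw [Complex.mul_conj, Complex.normSq_eq_norm_sq]
    rw [h5, one_smul]
  · intro u l β α hne
    rcases h4 u l with ⟨⟨a, ha⟩, hd⟩ | ⟨⟨a, ha⟩, hd⟩ | ha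
    · have h5 := tt_lin hm _ a (fun z => ha (fun j => (z : Cm m) j)) β α hne
      omega
    · have h5 := tt_colin hm _ a (fun z => ha (fun j => (z : Cm m) j)) β α hne
      omega
    · exfalso
      apply hne
      have h6 : ∀ f : C(Sp m, ℂ), (∀ z, f z = 0) → tt f β α = 0 := by
        intro f hf
        unfold tt
        simp only [hf, zero_mul, MeasureTheory.integral_zero, zero_div]
      exact h6 _ fun z => ha (fun j => (z : Cm m) j)
  · intro z u l hpar
    change K _ u l = 0
    rcases h4 u l with ⟨-, hd⟩ | ⟨-, hd⟩ | ha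
    · exfalso
      rw [decide_eq_decide, hd, Nat.odd_add_one] at hpar
      tauto
    · exfalso
      rw [decide_eq_decide, hd, Nat.odd_add_one] at hpar
      tauto
    · exact ha _

end Pool.Agent.Helper12.BP
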