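import Pool.Agent.Helper12.BP.Defs

/-!
PROJECT BP, block K, module K-6 (L2): general lemmas on bounded operators of `l²(I)`.

PROOF. `clm_ext`: `lp.hasSum_single` and `lp.single 2 i c = c • lp.single 2 i 1`, continuity (`HasSum.mapL`), uniqueness of sums.
`supp_map`: `x = ∑ x_j e_j` (`lp.hasSum_single`), `T x i = ∑ x_j (T e_j)_i` (the coordinate is continuous: it is `inner (single i 1) ·`, `lp.inner_single_left`), every term is zero.
`sa_of_entries`: `inner (T x) y` and `inner x (T y)`: for fixed `x = e_j` both sides are continuous linear in `y`; `clm_ext` twice (or: the adjoint of `T` has the same entries as `T`).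
`prA A` = restriction to `A` extended by zero: norm at most 1 (`lp.norm_rpow_eq_tsum` / `lp.norm_eq_tsum_rpow`, termwise comparison), membership by `Memℓp` comparison.
-/

set_option autoImplicit false

namespace Pool.Agent.Helper12.BP

variable {I : Type} [DecidableEq I]

private theorem hasSum_e (x : l2 I) :
    HasSum (fun i : I => x i • (lp.single 2 i (1 : ℂ) : l2 I)) x := by
  have h : HasSum (fun i : I => (lp.single 2 i (x i) : l2 I)) x :=
    lp.hasSum_single ENNReal.ofNat_ne_top x
  have h2 : (fun i : I => (lp.single 2 i (x i) : l2 I)) = fun i : I => x i • (lp.single 2 i (1 : ℂ) : l2 I) := by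
    funext i
    have h3 : (lp.single (E := (fun _ : I => ℂ)) 2 i (x i * 1)) = x i • lp.single 2 i 1 :=
      lp.single_smul (E := (fun _ : I => ℂ)) 2 i (x i) (1 : ℂ)
    rw [mul_one] at h3
    exact h3
  rw [h2] at h
  exact h

theorem clm_ext {X : Type} [NormedAddCommGroup X] [NormedSpace ℂ X] (S S' : l2 I →L[ℂ] X)
    (h : ∀ j, S (lp.single 2 j (1 : ℂ)) = S' (lp.single 2 j (1 : ℂ))) : S = S' := by
  ext x
  have h1 := (hasSum_e x).mapL S
  have h2 := (hasSum_e x).mapL S'
  have h3 : (fun i : I => S (x i • (lp.single 2 i (1 : ℂ) : l2 I))) =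
      fun i : I => S' (x i • (lp.single 2 i (1 : ℂ) : l2 I)) := by
    funext i
    rw [map_smul, map_smul, h i]
  rw [h3] at h1
  exact h1.unique h2

private theorem eval_clm (i : I) (x : l2 I) : lp.evalCLM ℂ (fun _ : I => ℂ) 2 i x = x i := rfl

theorem supp_map (T : l2 I →L[ℂ] l2 I) (A B : Set I)
    (h : ∀ j ∈ A, ∀ i, i ∉ B → T (lp.single 2 j (1 : ℂ)) i = 0) (x : l2 I) (hx : ∀ i, i ∉ A → x i = 0) :
    ∀ i, i ∉ B → T x i = 0 := by
  intro i hi
  have h1 := (hasSum_e x).mapL ((lp.evalCLM ℂ (fun _ : I => ℂ) 2 i).comp T)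
  have h3 : (fun j : I => ((lp.evalCLM ℂ (fun _ : I => ℂ) 2 i).comp T) (x j • (lp.single 2 j (1 : ℂ) : l2 I))) =
      fun _ : I => (0 : ℂ) := by
    funext j
    by_cases hj : j ∈ A
    · rw [map_smul, ContinuousLinearMap.comp_apply, eval_clm, h j hj i hi, smul_zero]
    · rw [hx j hj, zero_smul, map_zero]
  rw [h3] at h1
  have h4 := h1.unique hasSum_zero
  rw [ContinuousLinearMap.comp_apply, eval_clm] at h4
  exact h4

theorem sa_of_entries (T : l2 I →L[ℂ] l2 I)
    (h : ∀ i j, T (lp.single 2 j (1 : ℂ)) i = (starRingEnd ℂ) (T (lp.single 2 i (1 : ℂ)) j)) (x y : l2 I) :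
    inner ℂ (T x) y = inner ℂ x (T y) := by
  have hT : ContinuousLinearMap.adjoint T = T := by
    apply clm_ext
    intro j
    apply lp.ext
    funext i
    have h1 : inner ℂ (lp.single 2 i (1 : ℂ) : l2 I) ((ContinuousLinearMap.adjoint T) (lp.single 2 j (1 : ℂ))) =
        (ContinuousLinearMap.adjoint T) (lp.single 2 j (1 : ℂ)) i := by
      rw [lp.inner_single_left]
      simp
    rw [← h1, ContinuousLinearMap.adjoint_inner_right, lp.inner_single_right, h i j]
    simp
  rw [← ContinuousLinearMap.adjoint_inner_right, hT]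

omit [DecidableEq I] in
private theorem memlp_of_le (x : l2 I) (f : I → ℂ) (hf : ∀ i, ‖f i‖ ≤ ‖x i‖) : Memℓp f 2 := by
  have hx : Memℓp (fun i => x i) 2 := lp.memℓp x
  have h2 : (0 : ℝ) < (2 : ENNReal).toReal := by norm_num
  rw [memℓp_gen_iff h2] at hx ⊢
  refine Summable.of_nonneg_of_le (fun i => by positivity) (fun i => ?_) hx
  exact Real.rpow_le_rpow (norm_nonneg _) (hf i) h2.le

omit [DecidableEq I] in
private theorem norm_le_of_le (x y : l2 I) (h : ∀ i, ‖y i‖ ≤ ‖x i‖) : ‖y‖ ≤ ‖x‖ := by
  have h2 : (0 : ℝ) < (2 : ENNReal).toReal := by norm_num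
  rw [← Real.rpow_le_rpow_iff (norm_nonneg _) (norm_nonneg _) h2]
  exact hasSum_le (fun i => Real.rpow_le_rpow (norm_nonneg _) (h i) h2.le)
    (lp.hasSum_norm h2 y) (lp.hasSum_norm h2 x)

omit [DecidableEq I] in
/-- The coordinate projection onto `l²(A)`. -/
theorem exists_prA (A : Set I) : ∃ P : l2 I →L[ℂ] l2 I,
    (∀ x i, i ∈ A → P x i = x i) ∧ (∀ x i, i ∉ A → P x i = 0) ∧ ∀ x, ‖P x‖ ≤ ‖x‖ := by
  classical
  have hle : ∀ (x : l2 I) (i : I), ‖(if i ∈ A then x i else 0 : ℂ)‖ ≤ ‖x i‖ := by
    intro x i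
    split_ifs
    · exact le_refl _
    · rw [norm_zero]
      exact norm_nonneg _
  let F : l2 I →ₗ[ℂ] l2 I :=
    { toFun := fun x => ⟨fun i => if i ∈ A then x i else 0, memlp_of_le x _ (hle x)⟩
      map_add' := by
        intro x y
        apply lp.ext
        funext i
        change (if i ∈ A then (x + y) i else 0) = (if i ∈ A then x i else 0) + (if i ∈ A then y i else 0)
        split_ifs
        · rfl
        · rw [add_zero]
      map_smul' := by
        intro c x
        apply lp.ext
        funext i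
        change (if i ∈ A then (c • x) i else 0) = c • (if i ∈ A then x i else 0)
        split_ifs
        · rfl
        · rw [smul_zero] }
  have hF : ∀ x i, F x i = if i ∈ A then x i else 0 := fun x i => rfl
  have hn : ∀ x, ‖F x‖ ≤ 1 * ‖x‖ := by
    intro x
    rw [one_mul]
    apply norm_le_of_le
    intro i
    rw [hF]
    exact hle x i
  refine ⟨F.mkContinuous 1 hn, ?_, ?_, ?_⟩
  · intro x i hi
    rw [LinearMap.mkContinuous_apply, hF, if_pos hi]
  · intro x i hi
    rw [LinearMap.mkContinuous_apply, hF, if_neg hi]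
  · intro x
    rw [LinearMap.mkContinuous_apply]
    have h := hn x
    rwa [one_mul] at h

omit [DecidableEq I] in
/-- `l²(A)` for finite `A` has dimension `card A`. -/
theorem finrank_supp (A : Set I) (hA : A.Finite) (V : Submodule ℂ (l2 I)) (hV : ∀ x : l2 I, x ∈ V ↔ ∀ i, i ∉ A → x i = 0) :
    FiniteDimensional ℂ V ∧ Module.finrank ℂ V = A.ncard := by
  classical
  haveI : Fintype A := hA.fintype
  -- the linear equivalence with `A → ℂ`
  have hmem : ∀ c : A → ℂ, Memℓp (fun i : I => if h : i ∈ A then c ⟨i, h⟩ else 0) 2 := by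
    intro c
    refine (memℓp_zero ?_).of_exponent_ge zero_le
    refine hA.subset ?_
    intro i hi
    by_contra h
    apply hi
    simp only [h, dif_neg, not_false_iff]
  let e : V ≃ₗ[ℂ] (A → ℂ) :=
    { toFun := fun x a => (x : l2 I) a
      map_add' := fun x y => rfl
      map_smul' := fun c x => rfl
      invFun := fun c => ⟨⟨fun i : I => if h : i ∈ A then c ⟨i, h⟩ else 0, hmem c⟩, by
        rw [hV]
        intro i hi
        change (if h : i ∈ A then c ⟨i, h⟩ else 0) = 0
        rw [dif_neg hi]⟩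
      left_inv := by
        intro x
        apply Subtype.ext
        apply lp.ext
        funext i
        change (if h : i ∈ A then (x : l2 I) i else 0) = (x : l2 I) i
        by_cases hi : i ∈ A
        · rw [dif_pos hi]
        · rw [dif_neg hi, (hV x).1 x.2 i hi]
      right_inv := by
        intro c
        funext a
        change (if h : (a : I) ∈ A then c ⟨a, h⟩ else 0) = c a
        rw [dif_pos a.2] }
  refine ⟨FiniteDimensional.of_injective e.toLinearMap e.injective, ?_⟩
  rw [LinearEquiv.finrank_eq e, Module.finrank_fintype_fun_eq_card, Set.ncard_eq_toFinset_card', Set.toFinset_card]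

end Pool.Agent.Helper12.BP
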