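import Pool.Agent.Helper12.BP.Cnt
import Pool.Agent.Helper12.BP.Hom
import Pool.Agent.Helper12.BP.Cut
import Pool.Agent.Helper12.BP.Low

/-!
PROJECT BP, block K, module K-19 (StepN): the dimension `DD` grows with the cut off like the number `ee` of basis elements.

PROOF. `toepLow` with `A = B = G` (`TA = TB' = T`): `N`, `c' > 0` with `c' ‖x‖ ≤ ‖T x‖` for `x` vanishing on `L = {deg < N}` (`s = 0`). Let `n ≥ N`, `A0 = SA ε w q c`, `A1 = SA ε w (!q) c`.
`T` maps `l²(A0)` to `l²(A1)` and back: `toep_supp`; the entry `tt (ent G k l) β α` is zero if `ε k = ε l` (the function is `0`) or if the classes differ (hcl).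
`D = {i ∈ A0, n+1 ≤ deg}`, `F = {i ∈ A0, deg = n}` (finite, `deg_finite`, `Set.Finite.toFinset`). `hom_dim` with `T0 = T1 = T` gives finite dimension of `VV T A1 D`; `cut_dim` gives
`DD (n+1) = DD n + card F`, and `ee (n+1) = ee n + card F` (disjoint union).
-/

set_option autoImplicit false

namespace Pool.Agent.Helper12.BP

/-- The Toeplitz matrix of the zero function is zero. -/
theorem tt_zero' {m : ℕ} (f : C(Sp m, ℂ)) (h : ∀ z, f z = 0) (β α : Fin m → ℕ) : tt f β α = 0 := by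
  unfold tt
  have : ∀ z, f z * (mono α z * (starRingEnd ℂ) (mono β z)) = 0 := fun z => by rw [h z, zero_mul]
  simp [this]

theorem step_n {m : ℕ} (hm : 0 < m) {ι : Type} [Fintype ι] [DecidableEq ι] (ε : ι → Bool) (w : ι → ZMod 4)
    (G : C(Sp m, Matrix ι ι ℂ)) (hG : ∀ z, (G z).conjTranspose = G z) (hodd : ∀ z k l, ε k = ε l → G z k l = 0)
    (hcl : ∀ k l (β α : Fin m → ℕ), tt (ent G k l) β α ≠ 0 → ((deg β : ℕ) : ZMod 4) + w k = (deg α : ℕ) + w l)
    (cG : ℝ) (hcG : 0 < cG) (hlow : ∀ z (v : W ι), cG * ‖v‖ ≤ ‖symb G z v‖)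
    (T : l2 (Hx m ι) →L[ℂ] l2 (Hx m ι)) (hT : IsToep G T) :
    ∃ n0 : ℕ, ∀ q n c, n0 ≤ n → (DD T ε w q (n + 1) c : ℤ) - DD T ε w q n c = (ee m ε w q (n + 1) c : ℤ) - ee m ε w q n c := by
  classical
  obtain ⟨N, c', hc', hN⟩ := toepLow hm G G T T hT hT cG hcG (by
    intro s hs z v
    have : ((1 - s : ℝ) : ℂ) • symb G z v + (s : ℂ) • symb G z v = symb G z v := by
      rw [← add_smul]
      push_cast
      rw [sub_add_cancel, one_smul]
    rw [this]
    exact hlow z v)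
  have sa := toep_sa G hG T hT
  have hmap : ∀ (q : Bool) (c : ZMod 4) (x : l2 (Hx m ι)), (∀ i, i ∉ (SA ε w q c : Set (Hx m ι)) → x i = 0) →
      ∀ i, i ∉ (SA ε w (!q) c : Set (Hx m ι)) → T x i = 0 := by
    intro q c x hx
    refine toep_supp G T hT _ _ ?_ x hx
    rintro j ⟨hj1, hj2⟩ i hi
    by_contra hne
    apply hi
    refine ⟨?_, ?_⟩
    · by_contra h
      apply hne
      refine tt_zero' _ (fun z => hodd z i.2 j.2 ?_) _ _
      rw [hj1]
      cases hq : q <;> cases he : ε i.2 <;> simp_all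
    · rw [hcl _ _ _ _ hne]
      exact hj2
  refine ⟨N, fun q n c hn => ?_⟩
  set A0 : Set (Hx m ι) := SA ε w q c with hA0
  set A1 : Set (Hx m ι) := SA ε w (!q) c with hA1
  set D : Set (Hx m ι) := {i | i ∈ A0 ∧ n + 1 ≤ deg i.1} with hD
  set L : Set (Hx m ι) := {i | deg i.1 < N} with hL
  have hfin : ∀ k, {i : Hx m ι | deg i.1 < k}.Finite := fun k => deg_finite k
  have hFfin : {i : Hx m ι | i ∈ A0 ∧ deg i.1 = n}.Finite :=
    (hfin (n + 1)).subset (by rintro i ⟨_, h⟩; simp only [Set.mem_setOf_eq]; omega)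
  set F : Finset (Hx m ι) := hFfin.toFinset with hF
  have hFmem : ∀ i, i ∈ F ↔ i ∈ A0 ∧ deg i.1 = n := by
    intro i; rw [hF, Set.Finite.mem_toFinset]; rfl
  have m01 : ∀ x : l2 (Hx m ι), (∀ i, i ∉ A1 → x i = 0) → ∀ i, i ∉ A0 → T x i = 0 := by
    intro x hx i hi
    refine hmap (!q) c x hx i ?_
    rw [Bool.not_not]
    exact hi
  have hlow1 : ∀ x : l2 (Hx m ι), (∀ i ∈ L, x i = 0) → c' * ‖x‖ ≤ ‖T x‖ := by
    intro x hx
    have := hN 0 ⟨le_refl _, zero_le_one⟩ x (fun i hi => hx i hi)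
    simpa using this
  have fd := (hom_dim T T sa sa A0 A1 D L (fun i hi => hi.1) (hfin N)
    ((hfin (n + 1)).subset (by
      rintro i ⟨h1, h2⟩
      simp only [Set.mem_setOf_eq]
      by_contra h3
      exact h2 ⟨h1, by omega⟩))
    (by
      rintro i ⟨_, h⟩ h2
      have h3 : deg i.1 < N := h2
      omega)
    (hmap q c) m01 (hmap q c) m01 c' hc' (by
      intro s hs x hx
      exact hN s hs x (fun i hi => hx i hi))).1
  have hcut := cut_dim T sa A0 A1 D L F (fun i hi => hi.1)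
    (by
      intro i hi
      exact ((hFmem i).1 (Finset.mem_coe.1 hi)).1)
    (by
      intro i hi h2
      have h3 := ((hFmem i).1 hi).2
      have h4 : n + 1 ≤ deg i.1 := h2.2
      omega)
    (by
      rintro i ⟨_, h⟩ h2
      have h3 : deg i.1 < N := h2
      omega)
    (by
      intro i hi h2
      have h3 := ((hFmem i).1 hi).2
      have h4 : deg i.1 < N := h2
      omega)
    (hmap q c) c' hc' hlow1 fd
  have hDF : D ∪ (F : Set (Hx m ι)) = {i | i ∈ A0 ∧ n ≤ deg i.1} := by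
    ext i
    rw [Set.mem_union, Finset.mem_coe, hFmem]
    simp only [hD, Set.mem_setOf_eq]
    constructor
    · rintro (⟨h1, h2⟩ | ⟨h1, h2⟩)
      · exact ⟨h1, by omega⟩
      · exact ⟨h1, by omega⟩
    · rintro ⟨h1, h2⟩
      rcases Nat.lt_or_ge n (deg i.1) with h3 | h3
      · exact Or.inl ⟨h1, h3⟩
      · exact Or.inr ⟨h1, by omega⟩
  rw [hDF] at hcut
  have hee : ee m ε w q (n + 1) c = ee m ε w q n c + F.card := by
    unfold ee
    have h1 : {i : Hx m ι | i ∈ SA ε w q c ∧ deg i.1 < n + 1} =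
        {i : Hx m ι | i ∈ SA ε w q c ∧ deg i.1 < n} ∪ (F : Set (Hx m ι)) := by
      ext i
      rw [Set.mem_union, Finset.mem_coe, hFmem]
      simp only [Set.mem_setOf_eq]
      constructor
      · rintro ⟨h1, h2⟩
        rcases Nat.lt_or_ge (deg i.1) n with h3 | h3
        · exact Or.inl ⟨h1, h3⟩
        · exact Or.inr ⟨h1, by omega⟩
      · rintro (⟨h1, h2⟩ | ⟨h1, h2⟩)
        · exact ⟨h1, by omega⟩
        · exact ⟨h1, by omega⟩
    rw [h1, Set.ncard_union_eq ?_ ?_ ?_, Set.ncard_coe_finset]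
    · rw [Set.disjoint_left]
      rintro i ⟨_, h2⟩ h3
      have h4 := ((hFmem i).1 (Finset.mem_coe.1 h3)).2
      omega
    · exact (hfin n).subset (by rintro i ⟨_, h⟩; exact h)
    · exact F.finite_toSet
  have h5 : DD T ε w q (n + 1) c = DD T ε w q n c + F.card := hcut
  rw [h5, hee]
  push_cast
  ring

end Pool.Agent.Helper12.BP
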