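import Pool.Agent.Helper12.BP.Gen
import Pool.Agent.Helper12.BP.StepN
import Pool.Agent.Helper12.BP.Kap
import Pool.Agent.Helper12.BP.Alg

/-!
PROJECT BP, block K, main file: corollary K (statement of `Pool.Agent.Helper72.BP.corK`).
-/

set_option autoImplicit false

namespace Pool.Agent.Helper12.BP

section

variable {m : ℕ} {a b : Type}

private theorem sph (z : Sp m) : ∑ i, ‖(z : Cm m) i‖ ^ 2 = 1 := by
  have h := z.2
  rw [mem_sphere_zero_iff_norm] at h
  rw [← EuclideanSpace.norm_sq_eq, h, one_pow]

/-- The function on the sphere as a bundled continuous map. -/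
private noncomputable def gS (g : (Fin m → ℂ) → Matrix b a ℂ) (hg : ContinuousOn g {z | ∑ i, ‖z i‖ ^ 2 = 1}) :
    C(Sp m, Matrix b a ℂ) where
  toFun z := g (fun i => (z : Cm m) i)
  continuous_toFun := by
    refine hg.comp_continuous (f := fun z : Sp m => fun i => (z : Cm m) i) (by fun_prop) ?_
    intro z
    exact sph z

/-- The graded self adjoint symbol. -/
private noncomputable def GG (g : C(Sp m, Matrix b a ℂ)) : C(Sp m, Matrix (a ⊕ b) (a ⊕ b) ℂ) where
  toFun z := Matrix.fromBlocks 0 (g z).conjTranspose (g z) 0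
  continuous_toFun := by
    refine continuous_matrix fun x y => ?_
    rcases x with x | x <;> rcases y with y | y
    · simpa using continuous_const
    · exact (Complex.continuous_conj.comp (g.continuous.matrix_elem y x))
    · simpa using g.continuous.matrix_elem x y
    · simpa using continuous_const

private def wt (s : ℤ) : ZMod 4 := if s = 1 then 0 else 2

private theorem wt_add (s : ℤ) : wt s + wt s = 0 := by
  unfold wt; split_ifs <;> decide

private theorem wt_pow (s : ℤ) (h : s = 1 ∨ s = -1) : Complex.I ^ (wt s).val = (s : ℂ) := by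
  rcases h with h | h
  · subst h
    simp [wt]
  · subst h
    have : wt (-1) = 2 := by unfold wt; simp
    rw [this]
    have h2 : (2 : ZMod 4).val = 2 := rfl
    rw [h2, Complex.I_sq]; simp

private theorem pow_val (n : ℕ) : Complex.I ^ ((n : ZMod 4)).val = Complex.I ^ n := by
  rw [ZMod.val_natCast, ← Complex.I_pow_eq_pow_mod]

/-- `I ^ (c + c') = I ^ c * I ^ c'` for classes modulo 4. -/
private theorem pow_val_add (x y : ZMod 4) : Complex.I ^ (x + y).val = Complex.I ^ x.val * Complex.I ^ y.val := by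
  rw [ZMod.val_add, ← Complex.I_pow_eq_pow_mod, pow_add]

private theorem pow_val_inj (x : ZMod 4) (h : Complex.I ^ x.val = 1) : x = 0 := by
  have : ∀ x : ZMod 4, x = 0 ∨ x = 1 ∨ x = 2 ∨ x = 3 := by decide
  rcases this x with rfl | rfl | rfl | rfl
  · rfl
  · exfalso
    have h2 : (1 : ZMod 4).val = 1 := rfl
    rw [h2, pow_one] at h
    have := congrArg Complex.re h; simp at this
  · exfalso
    have h2 : (2 : ZMod 4).val = 2 := rfl
    rw [h2, Complex.I_sq] at h
    have := congrArg Complex.re h; norm_num at this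
  · exfalso
    have h2 : (3 : ZMod 4).val = 3 := rfl
    rw [h2, Complex.I_pow_three] at h
    have := congrArg Complex.re h; simp at this

/-- From a root of unity relation to the classes. -/
private theorem cls_of (s t : ℤ) (hs : s = 1 ∨ s = -1) (ht : t = 1 ∨ t = -1) (x y : ℕ)
    (h : ((s : ℂ) * (t : ℂ)) * Complex.I ^ x * (starRingEnd ℂ) Complex.I ^ y = 1) :
    ((y : ℕ) : ZMod 4) + wt s = (x : ℕ) + wt t := by
  have h1 : Complex.I ^ y * (starRingEnd ℂ) Complex.I ^ y = 1 := by
    rw [← mul_pow, Complex.conj_I]; simp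
  have h2 : (s : ℂ) * (t : ℂ) * Complex.I ^ x = Complex.I ^ y := by
    calc (s : ℂ) * (t : ℂ) * Complex.I ^ x
        = ((s : ℂ) * (t : ℂ) * Complex.I ^ x * (starRingEnd ℂ) Complex.I ^ y) * Complex.I ^ y := by
          rw [mul_assoc _ ((starRingEnd ℂ) Complex.I ^ y), mul_comm ((starRingEnd ℂ) Complex.I ^ y), h1, mul_one]
      _ = Complex.I ^ y := by rw [h, one_mul]
  rw [← wt_pow s hs, ← wt_pow t ht, ← pow_val x, ← pow_val y, ← pow_val_add, ← pow_val_add] at h2
  have h3 : Complex.I ^ ((wt s + wt t + (x : ZMod 4)) + (-(y : ZMod 4))).val = 1 := by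
    rw [pow_val_add, h2, ← pow_val_add, add_neg_cancel]; simp
  have h4 := pow_val_inj _ h3
  have h5 := wt_add s
  have h6 : (y : ZMod 4) = wt s + wt t + x := by
    have := eq_neg_of_add_eq_zero_left h4
    rw [neg_neg] at this
    exact this.symm
  rw [h6]
  calc wt s + wt t + (x : ZMod 4) + wt s = (wt s + wt s) + (x + wt t) := by ring
    _ = (x : ZMod 4) + wt t := by rw [h5, zero_add]

end

theorem corK (m p : ℕ) {a b : Type} [Fintype a] [Fintype b] [DecidableEq a] [DecidableEq b] (sa : a → ℤ) (sb : b → ℤ)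
    (ha : ∀ i, sa i = 1 ∨ sa i = -1) (hb : ∀ i, sb i = 1 ∨ sb i = -1)
    (g : (Fin m → ℂ) → Matrix b a ℂ) (hg : ContinuousOn g {z | ∑ i, ‖z i‖ ^ 2 = 1})
    (hinv : ∀ z, ∑ i, ‖z i‖ ^ 2 = 1 → Function.Bijective (g z).mulVec)
    (heq : ∀ z, ∑ i, ‖z i‖ ^ 2 = 1 → ∀ j i, g (fun a => Complex.I * z a) j i * (sa i : ℂ) = (sb j : ℂ) * g z j i)
    (c : ℤ) (hc : Odd c) (hsum : (∑ i, sa i) - ∑ j, sb j = 2 ^ p * c) : m ≤ 2 * p := by
  rcases Nat.eq_zero_or_pos m with hm | hm
  · omega
  set gz := gS g hg with hgz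
  set G := GG gz with hGdef
  set ε : a ⊕ b → Bool := Sum.elim (fun _ => false) (fun _ => true) with hε
  set sg : a ⊕ b → ℤ := Sum.elim sa sb with hsg
  set w : a ⊕ b → ZMod 4 := fun k => wt (sg k) with hw
  have hsg1 : ∀ k, sg k = 1 ∨ sg k = -1 := by
    rintro (k | k)
    · exact ha k
    · exact hb k
  have hgI : ∀ (z : Sp m) j i, gz (rotI z) j i = ((sb j : ℂ) * (sa i : ℂ)) * gz z j i := by
    intro z j i
    have h1 := heq (fun i => (z : Cm m) i) (sph z) j i
    have h2 : (fun a => Complex.I * (z : Cm m) a) = fun i => ((rotI z : Sp m) : Cm m) i := by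
      funext i
      simp [rotI]
    rw [h2] at h1
    have h3 : (sa i : ℂ) * (sa i : ℂ) = 1 := by rcases ha i with h | h <;> simp [h]
    change g (fun i => ((rotI z : Sp m) : Cm m) i) j i = ((sb j : ℂ) * (sa i : ℂ)) * g (fun i => (z : Cm m) i) j i
    calc g (fun i => ((rotI z : Sp m) : Cm m) i) j i
        = (g (fun i => ((rotI z : Sp m) : Cm m) i) j i * (sa i : ℂ)) * (sa i : ℂ) := by
          rw [mul_assoc, h3, mul_one]
      _ = ((sb j : ℂ) * (sa i : ℂ)) * g (fun i => (z : Cm m) i) j i := by rw [h1]; ring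
  have hG : ∀ z, (G z).conjTranspose = G z := by
    intro z
    change (Matrix.fromBlocks 0 (gz z).conjTranspose (gz z) 0).conjTranspose = Matrix.fromBlocks 0 (gz z).conjTranspose (gz z) 0
    rw [Matrix.fromBlocks_conjTranspose]
    simp
  have hodd : ∀ z k l, ε k = ε l → G z k l = 0 := by
    intro z k l h
    rcases k with k | k <;> rcases l with l | l
    · rfl
    · simp [hε] at h
    · simp [hε] at h
    · rfl
  have hGrot : ∀ k l (z : Sp m), ent G k l (rotI z) = ((sg k : ℂ) * (sg l : ℂ)) * ent G k l z := by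
    intro k l z
    rcases k with k | k <;> rcases l with l | l
    · change (0 : ℂ) = _ * (0 : ℂ)
      rw [mul_zero]
    · change (starRingEnd ℂ) (gz (rotI z) l k) = ((sa k : ℂ) * (sb l : ℂ)) * (starRingEnd ℂ) (gz z l k)
      rw [hgI]
      simp only [map_mul, map_intCast]
      ring
    · change gz (rotI z) k l = ((sb k : ℂ) * (sa l : ℂ)) * gz z k l
      rw [hgI]
    · change (0 : ℂ) = _ * (0 : ℂ)
      rw [mul_zero]
  have hcl : ∀ k l (β α : Fin m → ℕ), tt (ent G k l) β α ≠ 0 →
      ((deg β : ℕ) : ZMod 4) + w k = (deg α : ℕ) + w l := by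
    intro k l β α hne
    exact cls_of (sg k) (sg l) (hsg1 k) (hsg1 l) (deg α) (deg β) (tt_rot _ _ (hGrot k l) β α hne)
  have hinj : ∀ z, Function.Injective (symb G z) := by
    intro z
    rw [injective_iff_map_eq_zero]
    intro v hv
    have hbij := hinv (fun i => (z : Cm m) i) (sph z)
    have hcomp : ∀ k, ∑ l, G z k l * v l = 0 := by
      intro k
      rw [← symb_apply, hv]
      rfl
    have h1 : (gz z).mulVec (fun i => v (Sum.inl i)) = 0 := by
      funext j
      have := hcomp (Sum.inr j)
      rw [Fintype.sum_sum_type] at this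
      change (∑ i, gz z j i * v (Sum.inl i)) + ∑ i, (0 : ℂ) * v (Sum.inr i) = 0 at this
      simp only [zero_mul, Finset.sum_const_zero, add_zero] at this
      exact this
    have h2 : (gz z).conjTranspose.mulVec (fun j => v (Sum.inr j)) = 0 := by
      funext i
      have := hcomp (Sum.inl i)
      rw [Fintype.sum_sum_type] at this
      change (∑ j, (0 : ℂ) * v (Sum.inl j)) + ∑ j, (gz z).conjTranspose i j * v (Sum.inr j) = 0 at this
      simp only [zero_mul, Finset.sum_const_zero, zero_add] at this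
      exact this
    have h3 : (fun i => v (Sum.inl i)) = 0 := by
      apply hbij.1
      rw [Matrix.mulVec_zero]
      exact h1
    have h4 : (fun j => v (Sum.inr j)) = 0 := by
      obtain ⟨u, hu⟩ := hbij.2 (fun j => v (Sum.inr j))
      have h5 : dotProduct (star (fun j => v (Sum.inr j))) (fun j => v (Sum.inr j)) = 0 := by
        conv_lhs => arg 2; rw [← hu]
        change dotProduct (star (fun j => v (Sum.inr j))) ((gz z).mulVec u) = 0
        have h6 : Matrix.vecMul (star (fun j => v (Sum.inr j))) (gz z) =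
            star ((gz z).conjTranspose.mulVec (fun j => v (Sum.inr j))) := by
          rw [Matrix.star_mulVec, Matrix.conjTranspose_conjTranspose]
        rw [Matrix.dotProduct_mulVec, h6, h2]
        simp
      have h7 : ∑ j, (‖v (Sum.inr j)‖ ^ 2 : ℝ) = 0 := by
        have h8 : ((∑ j, (‖v (Sum.inr j)‖ ^ 2 : ℝ) : ℝ) : ℂ) = 0 := by
          rw [← h5]
          push_cast
          refine Finset.sum_congr rfl fun j _ => ?_
          rw [Pi.star_apply, Complex.star_def, ← Complex.normSq_eq_conj_mul_self, Complex.normSq_eq_norm_sq]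
          push_cast
          rfl
        exact_mod_cast h8
      funext j
      have h9 := (Finset.sum_eq_zero_iff_of_nonneg (fun j _ => by positivity)).1 h7 j (Finset.mem_univ _)
      simpa using h9
    ext k
    rcases k with k | k
    · exact congrFun h3 k
    · exact congrFun h4 k
  obtain ⟨cG, hcG, hlow⟩ := low_of_inj G hinj
  obtain ⟨T, hT⟩ := toepEx hm G
  obtain ⟨n1, hn1⟩ := step_n hm ε w G hG hodd hcl cG hcG hlow T hT
  -- the duality: kappa = swap
  set κX : C(Sp m, Matrix Bool Bool ℂ) :=
    ⟨fun _ => Matrix.of fun u l => if u = l then (0 : ℂ) else 1, continuous_const⟩ with hκX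
  obtain ⟨n2, hn2⟩ := gen hm ε w G hG hodd hcl cG hcG hlow T hT (id : Bool → Bool) (fun _ => 0) κX
    (by
      intro z
      ext u l
      change (starRingEnd ℂ) (if l = u then (0 : ℂ) else 1) = if u = l then (0 : ℂ) else 1
      by_cases h : u = l
      · simp [h]
      · simp [h, Ne.symm h])
    (by
      intro z
      ext u l
      change ∑ k, (if u = k then (0 : ℂ) else 1) * (if k = l then (0 : ℂ) else 1) = (1 : Matrix Bool Bool ℂ) u l
      rw [Fintype.sum_bool]
      cases u <;> cases l <;> simp)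
    (by
      intro u l β α hne
      have h1 := tt_const hm (ent κX u l) (if u = l then (0 : ℂ) else 1) (fun z => rfl) β α hne
      rw [h1])
    (by
      intro z u l h
      change (if u = l then (0 : ℂ) else 1) = 0
      simp only [id] at h
      simp [h])
  obtain ⟨Λ, _, _, d, κ, k1, k2, k3, k4, k5⟩ := kapEx hm
  obtain ⟨n3, hn3⟩ := gen hm ε w G hG hodd hcl cG hcG hlow T hT (fun l => decide (Odd (d l))) d κ k1 k2 k4 k5
  obtain ⟨x, y, hxy⟩ := fin_alg m ε w d k3 (fun q n c => (DD T ε w q n c : ℤ)) (fun q n c => (ee m ε w q n c : ℤ))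
    (max n1 (max n2 n3))
    (by
      intro q n c hn
      exact hn1 q n c ((le_max_left _ _).trans hn))
    (by
      intro n c hn
      have h1 := hn2 n c (((le_max_left _ _).trans (le_max_right _ _)).trans hn)
      rw [Fintype.sum_bool, Fintype.sum_bool] at h1
      simp only [id, Nat.sub_zero, Nat.cast_zero, sub_zero, Bool.not_true, Bool.not_false] at h1
      linarith)
    (by
      intro N c hN
      exact hn3 N c (((le_max_right _ _).trans (le_max_right _ _)).trans hN))
    (by
      intro q N c hN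
      exact cnt ε w d k3 q N hN c)
  refine fin_div m p c (∑ j, sb j - ∑ i, sa i) x y hc (Or.inr ?_) ?_
  · linarith
  · rw [← hxy, Fintype.sum_sum_type]
    have e1 : ∀ i : a, (if ε (Sum.inl i) then (1 : ℂ) else -1) * Complex.I ^ (w (Sum.inl i)).val = -(sa i : ℂ) := by
      intro i
      have : Complex.I ^ (w (Sum.inl i)).val = (sa i : ℂ) := wt_pow _ (ha i)
      rw [this]
      simp [hε]
    have e2 : ∀ i : b, (if ε (Sum.inr i) then (1 : ℂ) else -1) * Complex.I ^ (w (Sum.inr i)).val = (sb i : ℂ) := by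
      intro i
      have : Complex.I ^ (w (Sum.inr i)).val = (sb i : ℂ) := wt_pow _ (hb i)
      rw [this]
      simp [hε]
    rw [Finset.sum_congr rfl (fun i _ => e1 i), Finset.sum_congr rfl (fun i _ => e2 i), Finset.sum_neg_distrib]
    push_cast
    ring

end Pool.Agent.Helper12.BP
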