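import Pool.Agent.Helper12.BP.Defs

/-!
PROJECT BP, block K: multiplication operators on `L²(sphere, C^ι)`.
-/

set_option autoImplicit false
namespace Pool.Agent.Helper12.BP
open MeasureTheory

/-- The space of values. -/
abbrev W (ι : Type) : Type := EuclideanSpace ℂ ι

/-- The `L²` space of `C^ι`-valued functions on the sphere. -/
abbrev LL (m : ℕ) (ι : Type) [Fintype ι] : Type := ↥(Lp (W ι) 2 (sig m))

variable {m : ℕ} {ι : Type} [Fintype ι]

/-- The operator valued function of a matrix valued function. -/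
noncomputable def symb [DecidableEq ι] (A : C(Sp m, Matrix ι ι ℂ)) : C(Sp m, W ι →L[ℂ] W ι) where
  toFun z := Matrix.toEuclideanCLM (𝕜 := ℂ) (A z)
  continuous_toFun := by
    have h : Continuous (Matrix.toEuclideanCLM (𝕜 := ℂ) (n := ι)) := by
      have := LinearMap.continuous_of_finiteDimensional
        ((Matrix.toEuclideanCLM (𝕜 := ℂ) (n := ι)).toAlgEquiv.toLinearMap)
      exact this
    exact h.comp A.continuous

theorem symb_apply [DecidableEq ι] (A : C(Sp m, Matrix ι ι ℂ)) (z : Sp m) (v : W ι) (k : ι) :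
    symb A z v k = ∑ l, A z k l * v l := by
  simp [symb, Matrix.mulVec, dotProduct]

theorem memLp_symb (B : C(Sp m, W ι →L[ℂ] W ι)) (u : LL m ι) :
    MemLp (fun z => B z (u z)) 2 (sig m) := by
  refine MemLp.of_le_mul (c := ‖B‖) (Lp.memLp u) ?_ ?_
  · exact (ContinuousLinearMap.aestronglyMeasurable_comp₂ (ContinuousLinearMap.id ℂ (W ι →L[ℂ] W ι))
      B.continuous.aestronglyMeasurable (Lp.aestronglyMeasurable u))
  · exact Filter.Eventually.of_forall fun z =>
      ((B z).le_opNorm _).trans (mul_le_mul_of_nonneg_right (B.norm_coe_le_norm z) (norm_nonneg _))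

/-- Multiplication by an operator valued function. -/
noncomputable def mulB (B : C(Sp m, W ι →L[ℂ] W ι)) : LL m ι →L[ℂ] LL m ι :=
  LinearMap.mkContinuous
    { toFun := fun u => (memLp_symb B u).toLp _
      map_add' := by
        intro u v
        rw [← MemLp.toLp_add]
        apply MemLp.toLp_congr
        filter_upwards [Lp.coeFn_add u v] with z hz
        rw [Pi.add_apply, hz, Pi.add_apply, map_add]
      map_smul' := by
        intro c u
        rw [RingHom.id_apply, ← MemLp.toLp_const_smul]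
        apply MemLp.toLp_congr
        filter_upwards [Lp.coeFn_smul c u] with z hz
        rw [Pi.smul_apply, hz, Pi.smul_apply, map_smul] } ‖B‖ (by
      intro u
      apply Lp.norm_le_mul_norm_of_ae_le_mul
      filter_upwards [MemLp.coeFn_toLp (memLp_symb B u)] with z hz
      simp only [LinearMap.coe_mk, AddHom.coe_mk]
      rw [hz]
      exact ((B z).le_opNorm _).trans (mul_le_mul_of_nonneg_right (B.norm_coe_le_norm z) (norm_nonneg _)))

theorem mulB_coe (B : C(Sp m, W ι →L[ℂ] W ι)) (u : LL m ι) :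
    (mulB B u : Sp m → W ι) =ᵐ[sig m] fun z => B z (u z) :=
  MemLp.coeFn_toLp (memLp_symb B u)

theorem mulB_norm_le (B : C(Sp m, W ι →L[ℂ] W ι)) : ‖mulB B‖ ≤ ‖B‖ := by
  unfold mulB
  exact LinearMap.mkContinuous_norm_le _ (norm_nonneg B) _

theorem mulB_lower (B : C(Sp m, W ι →L[ℂ] W ι)) (c : ℝ) (hc : 0 ≤ c) (h : ∀ z v, c * ‖v‖ ≤ ‖B z v‖) (u : LL m ι) :
    c * ‖u‖ ≤ ‖mulB B u‖ := by
  rcases hc.eq_or_lt with h0 | h0
  · rw [← h0, zero_mul]; exact norm_nonneg _
  have : ‖u‖ ≤ c⁻¹ * ‖mulB B u‖ := by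
    apply Lp.norm_le_mul_norm_of_ae_le_mul
    filter_upwards [mulB_coe B u] with z hz
    rw [hz, inv_mul_eq_div, le_div_iff₀ h0, mul_comm]
    exact h z _
  rw [inv_mul_eq_div, le_div_iff₀ h0, mul_comm] at this
  exact this

theorem mulB_mul (B C : C(Sp m, W ι →L[ℂ] W ι)) : mulB (B * C) = (mulB B).comp (mulB C) := by
  ext1 u
  apply Lp.ext
  have h1 := mulB_coe (B * C) u
  have h2 := mulB_coe B (mulB C u)
  have h3 := mulB_coe C u
  filter_upwards [h1, h2, h3] with z h1 h2 h3
  rw [h1, ContinuousLinearMap.comp_apply, h2, h3]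
  rfl

theorem mulB_add (B C : C(Sp m, W ι →L[ℂ] W ι)) : mulB (B + C) = mulB B + mulB C := by
  ext1 u
  apply Lp.ext
  have h1 := mulB_coe (B + C) u
  have h2 := mulB_coe B u
  have h3 := mulB_coe C u
  filter_upwards [h1, h2, h3, Lp.coeFn_add (mulB B u) (mulB C u)] with z h1 h2 h3 h4
  have h5 : (mulB B + mulB C) u = mulB B u + mulB C u := rfl
  rw [h1, h5, h4, Pi.add_apply, h2, h3]
  rfl

theorem mulB_smul (c : ℂ) (B : C(Sp m, W ι →L[ℂ] W ι)) : mulB (c • B) = c • mulB B := by
  ext1 u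
  apply Lp.ext
  have h1 := mulB_coe (c • B) u
  have h2 := mulB_coe B u
  filter_upwards [h1, h2, Lp.coeFn_smul c (mulB B u)] with z h1 h2 h4
  have h5 : (c • mulB B) u = c • mulB B u := rfl
  rw [h1, h5, h4, Pi.smul_apply, h2]
  rfl

theorem mulB_one : mulB (1 : C(Sp m, W ι →L[ℂ] W ι)) = 1 := by
  ext1 u
  apply Lp.ext
  filter_upwards [mulB_coe (1 : C(Sp m, W ι →L[ℂ] W ι)) u] with z h1
  rw [h1]
  rfl

theorem mulB_adj (B C : C(Sp m, W ι →L[ℂ] W ι)) (h : ∀ z, C z = ContinuousLinearMap.adjoint (B z)) (u v : LL m ι) :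
    inner ℂ (mulB B u) v = inner ℂ u (mulB C v) := by
  rw [L2.inner_def, L2.inner_def]
  apply integral_congr_ae
  filter_upwards [mulB_coe B u, mulB_coe C v] with z h1 h2
  rw [h1, h2, h z, ContinuousLinearMap.adjoint_inner_right]

/-- The basis element `z^α e_k / nu α`. -/
noncomputable def bas [DecidableEq ι] (i : Hx m ι) : C(Sp m, W ι) where
  toFun z := ((nu i.1 : ℂ)⁻¹ * mono i.1 z) • EuclideanSpace.single i.2 (1 : ℂ)
  continuous_toFun := by fun_prop

/-- The basis element in `L²`. -/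
noncomputable def bL [DecidableEq ι] (i : Hx m ι) : LL m ι := ContinuousMap.toLp 2 (sig m) ℂ (bas i)

end Pool.Agent.Helper12.BP
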