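import Pool.Agent.Helper12.BP.Defs

/-!
PROJECT BP, block K, module K-3 (Rot): the surface measure is invariant under multiplication by `i`.

PROOF. `rotI` is a homeomorphism of the sphere. `MeasurePreserving rotI (sig m) (sig m)`: by `Measure.toSphere_apply'` for a measurable `s`
`sig m s = dim * μ (Ioo 0 1 • coe '' s)`, and `Ioo 0 1 • coe '' (rotI ⁻¹' s) = L ⁻¹' (Ioo 0 1 • coe '' s)` with `L z = I • z`, which preserves
`μ = map toLp volume`: `L` is the image of the product map `z_j ↦ I z_j` of `Fin m → ℂ`.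
-/

set_option autoImplicit false

namespace Pool.Agent.Helper12.BP

open MeasureTheory Pointwise

private theorem mem_I : Complex.I ∈ Submonoid.unitSphere ℂ := by
  show Complex.I ∈ Metric.sphere (0 : ℂ) 1
  rw [mem_sphere_zero_iff_norm]
  exact Complex.norm_I

private theorem mp_one : MeasurePreserving (fun z : ℂ => Complex.I * z) (volume : Measure ℂ) volume := by
  have h := (rotation (⟨Complex.I, mem_I⟩ : Circle)).measurePreserving
  have e : (fun z : ℂ => Complex.I * z) = (rotation (⟨Complex.I, mem_I⟩ : Circle) : ℂ → ℂ) := by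
    funext z
    exact (rotation_apply (⟨Complex.I, mem_I⟩ : Circle) z).symm
  rw [e]
  exact h

private theorem mp_pi (m : ℕ) :
    MeasurePreserving (fun z : Fin m → ℂ => fun j => Complex.I * z j) (volume : Measure (Fin m → ℂ)) volume :=
  volume_preserving_pi (fun _ => mp_one)

private theorem mp_L (m : ℕ) :
    MeasurePreserving (fun z : Cm m => Complex.I • z)
      (Measure.map (WithLp.toLp 2) (volume : Measure (Fin m → ℂ)))
      (Measure.map (WithLp.toLp 2) (volume : Measure (Fin m → ℂ))) := by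
  have hm : Measurable (WithLp.toLp 2 : (Fin m → ℂ) → Cm m) :=
    (PiLp.continuousLinearEquiv 2 ℝ (fun _ : Fin m => ℂ)).symm.continuous.measurable
  have hL : Measurable (fun z : Cm m => Complex.I • z) := (continuous_const_smul _).measurable
  refine ⟨hL, ?_⟩
  rw [Measure.map_map hL hm]
  have e : (fun z : Cm m => Complex.I • z) ∘ (WithLp.toLp 2 : (Fin m → ℂ) → Cm m) =
      (WithLp.toLp 2 : (Fin m → ℂ) → Cm m) ∘ (fun z : Fin m → ℂ => fun j => Complex.I * z j) := by
    funext z
    ext j
    simp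
  rw [e, ← Measure.map_map hm (mp_pi m).measurable, (mp_pi m).map_eq]

private theorem rot_cont (m : ℕ) : Continuous (rotI : Sp m → Sp m) := by
  unfold rotI
  have h : Continuous (fun z : Sp m => Complex.I • (z : Cm m)) :=
    (continuous_const_smul Complex.I).comp continuous_subtype_val
  exact Continuous.subtype_mk h _

private theorem pre_eq (m : ℕ) (s : Set (Sp m)) :
    Set.Ioo (0 : ℝ) 1 • ((fun z : Sp m => (z : Cm m)) '' (rotI ⁻¹' s)) =
      (fun z : Cm m => Complex.I • z) ⁻¹' (Set.Ioo (0 : ℝ) 1 • ((fun z : Sp m => (z : Cm m)) '' s)) := by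
  ext w
  constructor
  · rintro ⟨t, ht, _, ⟨z, hz, rfl⟩, rfl⟩
    refine ⟨t, ht, _, ⟨rotI z, hz, rfl⟩, ?_⟩
    show t • (Complex.I • (z : Cm m)) = Complex.I • (t • (z : Cm m))
    rw [smul_comm]
  · rintro ⟨t, ht, _, ⟨z, hz, rfl⟩, h⟩
    have hn : ‖(-Complex.I) • (z : Cm m)‖ = 1 := by
      have h1 := z.2
      rw [mem_sphere_zero_iff_norm] at h1
      rw [norm_smul, norm_neg, Complex.norm_I, one_mul, h1]
    refine ⟨t, ht, _, ⟨⟨(-Complex.I) • (z : Cm m), by rw [mem_sphere_zero_iff_norm, hn]⟩, ?_, rfl⟩, ?_⟩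
    · have e : rotI (⟨(-Complex.I) • (z : Cm m), by rw [mem_sphere_zero_iff_norm, hn]⟩ : Sp m) = z := by
        apply Subtype.ext
        show Complex.I • ((-Complex.I) • (z : Cm m)) = (z : Cm m)
        rw [smul_smul]
        simp
      show rotI _ ∈ s
      rw [e]
      exact hz
    · show t • ((-Complex.I) • (z : Cm m)) = w
      have h2 : t • (z : Cm m) = Complex.I • w := h
      rw [smul_comm, h2, smul_smul]
      simp

private theorem mp_rot (m : ℕ) : MeasurePreserving (rotI : Sp m → Sp m) (sig m) (sig m) := by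
  refine ⟨(rot_cont m).measurable, ?_⟩
  ext s hs
  rw [Measure.map_apply (rot_cont m).measurable hs]
  unfold sig
  rw [Measure.toSphere_apply' _ hs, Measure.toSphere_apply' _ ((rot_cont m).measurable hs)]
  have h := pre_eq m s
  have h1 : Set.Ioo (0 : ℝ) 1 • ((↑) '' (rotI ⁻¹' s) : Set (Cm m)) =
      (fun z : Cm m => Complex.I • z) ⁻¹' (Set.Ioo (0 : ℝ) 1 • ((↑) '' s : Set (Cm m))) := h
  rw [h1]
  congr 1
  have he : MeasurableEmbedding (fun z : Cm m => Complex.I • z) :=
    (Homeomorph.smulOfNeZero Complex.I Complex.I_ne_zero).measurableEmbedding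
  exact (mp_L m).measure_preimage_emb he _

theorem sig_rot (m : ℕ) (f : C(Sp m, ℂ)) : ∫ z, f (rotI z) ∂(sig m) = ∫ z, f z ∂(sig m) := by
  have h := (mp_rot m).map_eq
  have h2 := integral_map (μ := sig m) (φ := (rotI : Sp m → Sp m)) (rot_cont m).measurable.aemeasurable
    (f := fun z => f z) (f.continuous.aestronglyMeasurable)
  rw [h] at h2
  exact h2.symm

end Pool.Agent.Helper12.BP
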