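import Pool.Agent.Helper12.BP.Moment
import Pool.Agent.Helper12.BP.Rot

/-!
PROJECT BP, block K, module K-5 (Tt): vanishing of entries of the Toeplitz matrices.

PROOF. `tt_conj`: `integral_conj`, `map_div₀`, `mul_comm`.
`tt_rot`: `f(iz) (iz)^α conj((iz)^β) = c i^|α| conj(i)^|β| f(z) z^α conj(z^β)`, so by `sig_rot` the integral `J` satisfies `J = c i^|α| conj(i)^|β| J`; `tt f β α ≠ 0` gives `J ≠ 0`.
`tt_lin`: `f z^α conj(z^β) = ∑_j a_j z^(α + e_j) conj(z^β)` (`mono (Function.update α j (α j + 1)) z = z_j mono α z`), `moment` for each term (continuous functions on a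
compact space are integrable): if the sum is nonzero, then `α + e_j = β` for some `j`, so `deg β = deg α + 1`. `tt_colin`: the same, or `tt_conj` + `tt_lin`. `tt_const`: `moment`.
-/

set_option autoImplicit false

namespace Pool.Agent.Helper12.BP

open MeasureTheory

private theorem mono_rot {m : ℕ} (α : Fin m → ℕ) (z : Sp m) :
    mono α (rotI z) = Complex.I ^ deg α * mono α z := by
  change ∏ j, (Complex.I • (z : Cm m)) j ^ α j = Complex.I ^ (∑ j, α j) * ∏ j, (z : Cm m) j ^ α j
  rw [← Finset.prod_pow_eq_pow_sum, ← Finset.prod_mul_distrib]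
  refine Finset.prod_congr rfl fun j _ => ?_
  rw [PiLp.smul_apply, smul_eq_mul, mul_pow]

private theorem mono_add {m : ℕ} (α : Fin m → ℕ) (j : Fin m) (z : Sp m) :
    mono (α + Pi.single j 1) z = (z : Cm m) j * mono α z := by
  change ∏ i, (z : Cm m) i ^ (α i + (Pi.single j 1 : Fin m → ℕ) i) =
    (z : Cm m) j * ∏ i, (z : Cm m) i ^ α i
  simp only [pow_add, Finset.prod_mul_distrib]
  have h : ∏ i, (z : Cm m) i ^ (Pi.single j 1 : Fin m → ℕ) i = (z : Cm m) j := by
    rw [Finset.prod_eq_single j]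
    · rw [Pi.single_eq_same, pow_one]
    · intro i _ hi
      rw [Pi.single_eq_of_ne hi, pow_zero]
    · intro h
      exact absurd (Finset.mem_univ j) h
  rw [h, mul_comm]

private theorem deg_add {m : ℕ} (α : Fin m → ℕ) (j : Fin m) :
    deg (α + Pi.single j 1) = deg α + 1 := by
  unfold deg
  simp only [Pi.add_apply, Finset.sum_add_distrib]
  congr 1
  rw [Finset.sum_eq_single j]
  · rw [Pi.single_eq_same]
  · intro i _ hi
    rw [Pi.single_eq_of_ne hi]
  · intro h
    exact absurd (Finset.mem_univ j) h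

theorem tt_conj {m : ℕ} (f g : C(Sp m, ℂ)) (h : ∀ z, g z = (starRingEnd ℂ) (f z)) (β α : Fin m → ℕ) :
    tt g α β = (starRingEnd ℂ) (tt f β α) := by
  unfold tt
  rw [map_div₀, ← integral_conj, map_mul, Complex.conj_ofReal, Complex.conj_ofReal,
    mul_comm (nu α : ℂ)]
  congr 1
  refine integral_congr_ae (Filter.Eventually.of_forall fun z => ?_)
  simp only [h z, map_mul, Complex.conj_conj]
  ring

theorem tt_rot {m : ℕ} (f : C(Sp m, ℂ)) (c : ℂ) (h : ∀ z, f (rotI z) = c * f z) (β α : Fin m → ℕ)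
    (hne : tt f β α ≠ 0) : c * Complex.I ^ deg α * (starRingEnd ℂ) Complex.I ^ deg β = 1 := by
  have hF : Continuous fun z : Sp m => f z * (mono α z * (starRingEnd ℂ) (mono β z)) :=
    f.continuous.mul ((mono α).continuous.mul (Complex.continuous_conj.comp (mono β).continuous))
  have h1 := sig_rot m ⟨_, hF⟩
  have hJ : (∫ z, f z * (mono α z * (starRingEnd ℂ) (mono β z)) ∂(sig m)) ≠ 0 := by
    intro h0
    apply hne
    unfold tt
    rw [h0, zero_div]
  have h2 : (∫ z, f (rotI z) * (mono α (rotI z) * (starRingEnd ℂ) (mono β (rotI z))) ∂(sig m)) =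
      (c * Complex.I ^ deg α * (starRingEnd ℂ) Complex.I ^ deg β) *
        ∫ z, f z * (mono α z * (starRingEnd ℂ) (mono β z)) ∂(sig m) := by
    rw [← integral_const_mul]
    refine integral_congr_ae (Filter.Eventually.of_forall fun z => ?_)
    simp only [h z, mono_rot, map_mul, map_pow]
    ring
  have h3 : (∫ z, f (rotI z) * (mono α (rotI z) * (starRingEnd ℂ) (mono β (rotI z))) ∂(sig m)) =
      ∫ z, f z * (mono α z * (starRingEnd ℂ) (mono β z)) ∂(sig m) := h1
  rw [h3] at h2
  exact (mul_right_cancel₀ hJ (by rw [one_mul]; exact h2)).symm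

theorem tt_lin {m : ℕ} (hm : 0 < m) (f : C(Sp m, ℂ)) (a : Fin m → ℂ) (h : ∀ z : Sp m, f z = ∑ j, a j * (z : Cm m) j)
    (β α : Fin m → ℕ) (hne : tt f β α ≠ 0) : deg β = deg α + 1 := by
  have h1 : (∫ z, f z * (mono α z * (starRingEnd ℂ) (mono β z)) ∂(sig m)) =
      ∑ j, a j * ∫ z, mono (α + Pi.single j 1) z * (starRingEnd ℂ) (mono β z) ∂(sig m) := by
    have h2 : ∀ z, f z * (mono α z * (starRingEnd ℂ) (mono β z)) =
        ∑ j, a j * (mono (α + Pi.single j 1) z * (starRingEnd ℂ) (mono β z)) := by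
      intro z
      rw [h z, Finset.sum_mul]
      refine Finset.sum_congr rfl fun j _ => ?_
      rw [mono_add]
      ring
    simp only [h2]
    rw [integral_finsetSum]
    · refine Finset.sum_congr rfl fun j _ => ?_
      rw [integral_const_mul]
    · intro j _
      apply Continuous.integrable_of_hasCompactSupport
      · exact continuous_const.mul ((mono (α + Pi.single j 1)).continuous.mul
          (Complex.continuous_conj.comp (mono β).continuous))
      · exact HasCompactSupport.of_compactSpace _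
  by_contra hd
  apply hne
  unfold tt
  rw [h1, Finset.sum_eq_zero, zero_div]
  intro j _
  rw [moment m hm, if_neg, mul_zero]
  intro h3
  apply hd
  rw [← h3, deg_add]

theorem tt_colin {m : ℕ} (hm : 0 < m) (f : C(Sp m, ℂ)) (a : Fin m → ℂ)
    (h : ∀ z : Sp m, f z = ∑ j, a j * (starRingEnd ℂ) ((z : Cm m) j))
    (β α : Fin m → ℕ) (hne : tt f β α ≠ 0) : deg α = deg β + 1 := by
  let g : C(Sp m, ℂ) := ⟨fun z => (starRingEnd ℂ) (f z), Complex.continuous_conj.comp f.continuous⟩
  have h1 : tt g α β = (starRingEnd ℂ) (tt f β α) := tt_conj f g (fun _ => rfl) β α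
  refine tt_lin hm g (fun j => (starRingEnd ℂ) (a j)) (fun z => ?_) α β ?_
  · change (starRingEnd ℂ) (f z) = _
    rw [h z, map_sum]
    refine Finset.sum_congr rfl fun j _ => ?_
    rw [map_mul, Complex.conj_conj]
  · rw [h1]
    exact (map_ne_zero _).2 hne

theorem tt_const {m : ℕ} (hm : 0 < m) (f : C(Sp m, ℂ)) (c : ℂ) (h : ∀ z, f z = c)
    (β α : Fin m → ℕ) (hne : tt f β α ≠ 0) : β = α := by
  by_contra hd
  apply hne
  unfold tt
  have h1 : (∫ z, f z * (mono α z * (starRingEnd ℂ) (mono β z)) ∂(sig m)) = 0 := by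
    simp only [h]
    rw [integral_const_mul, moment m hm, if_neg (fun h2 => hd h2.symm), mul_zero]
  rw [h1, zero_div]

end Pool.Agent.Helper12.BP
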