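import Pool.Agent.Helper12.BP.Mul
import Pool.Agent.Helper12.BP.L2
import Pool.Agent.Helper12.BP.Tt

/-!
PROJECT BP, block K, module K-7 (Toep): the Toeplitz operators.

PROOF. `TB_toep`: `(T e_j)_i = inner e_i (J^* M J e_j) = inner (b_i) (M b_j)` (`lp.inner_single_left`, adjoint), `b_i = bL i` (`JJ_single`);
`L2.inner_def`, `mulB_coe`, `ContinuousMap.coeFn_toLp`, `integral_congr_ae`; pointwise `inner (bas i z) (symb A z (bas j z)) = conj(mono i.1 z) (nu i.1)⁻¹ (A z i.2 j.2) (nu j.1)⁻¹ mono j.1 z`.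
`toep_unique`: `clm_ext` and equality of all coordinates. `toep_sa`: `sa_of_entries` and `tt_conj`.
`toep_supp`: `supp_map`.
-/

set_option autoImplicit false

namespace Pool.Agent.Helper12.BP

open MeasureTheory

variable {m : ℕ} {ι : Type} [Fintype ι] [DecidableEq ι]

/-- The isometry of `l²` onto the Hardy space. -/
noncomputable def JJ (hb : Orthonormal ℂ (bL : Hx m ι → LL m ι)) : l2 (Hx m ι) →ₗᵢ[ℂ] LL m ι :=
  hb.orthogonalFamily.linearIsometry

theorem JJ_single (hb : Orthonormal ℂ (bL : Hx m ι → LL m ι)) (i : Hx m ι) (c : ℂ) :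
    JJ hb (lp.single 2 i c) = c • bL i := by
  rw [JJ, OrthogonalFamily.linearIsometry_apply_single]
  rfl

/-- The Toeplitz operator of an operator valued function. -/
noncomputable def TB (hb : Orthonormal ℂ (bL : Hx m ι → LL m ι)) (B : C(Sp m, W ι →L[ℂ] W ι)) :
    l2 (Hx m ι) →L[ℂ] l2 (Hx m ι) :=
  (ContinuousLinearMap.adjoint (JJ hb).toContinuousLinearMap).comp
    ((mulB B).comp (JJ hb).toContinuousLinearMap)

theorem TB_toep (hb : Orthonormal ℂ (bL : Hx m ι → LL m ι)) (A : C(Sp m, Matrix ι ι ℂ)) :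
    IsToep A (TB hb (symb A)) := by
  intro i j
  have h1 : ∀ x : l2 (Hx m ι), x i = inner ℂ (lp.single 2 i (1 : ℂ)) x := by
    intro x
    rw [lp.inner_single_left]
    simp
  rw [h1]
  have h2 : inner ℂ (lp.single 2 i (1 : ℂ) : l2 (Hx m ι)) (TB hb (symb A) (lp.single 2 j (1 : ℂ))) =
      inner ℂ (bL i) (mulB (symb A) (bL j)) := by
    unfold TB
    rw [ContinuousLinearMap.comp_apply, ContinuousLinearMap.adjoint_inner_right,
      ContinuousLinearMap.comp_apply]
    have h3 : ∀ k : Hx m ι, (JJ hb).toContinuousLinearMap (lp.single 2 k (1 : ℂ)) = bL k := by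
      intro k
      have := JJ_single hb k 1
      rw [one_smul] at this
      exact this
    rw [h3, h3]
  rw [h2, L2.inner_def]
  have hi : (bL i : Sp m → W ι) =ᵐ[sig m] bas i := ContinuousMap.coeFn_toLp (sig m) (bas i)
  have hj : (bL j : Sp m → W ι) =ᵐ[sig m] bas j := ContinuousMap.coeFn_toLp (sig m) (bas j)
  have h4 : (fun z => inner ℂ ((bL i : Sp m → W ι) z) ((mulB (symb A) (bL j) : Sp m → W ι) z)) =ᵐ[sig m]
      fun z => ((nu i.1 : ℂ)⁻¹ * (nu j.1 : ℂ)⁻¹) *
        (ent A i.2 j.2 z * (mono j.1 z * (starRingEnd ℂ) (mono i.1 z))) := by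
    filter_upwards [hi, hj, mulB_coe (symb A) (bL j)] with z h5 h6 h7
    rw [h5, h7, h6]
    have h8 : bas i z = ((nu i.1 : ℂ)⁻¹ * mono i.1 z) • EuclideanSpace.single i.2 (1 : ℂ) := rfl
    have h9 : bas j z = ((nu j.1 : ℂ)⁻¹ * mono j.1 z) • EuclideanSpace.single j.2 (1 : ℂ) := rfl
    rw [h8, h9, inner_smul_left, map_smul, inner_smul_right, EuclideanSpace.inner_single_left, symb_apply]
    have h10 : ∑ l, A z i.2 l * (EuclideanSpace.single j.2 (1 : ℂ) : W ι) l = A z i.2 j.2 := by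
      rw [Finset.sum_eq_single j.2]
      · simp
      · intro l _ hl
        rw [PiLp.single_apply, if_neg hl, mul_zero]
      · intro h
        exact absurd (Finset.mem_univ _) h
    rw [h10, map_one, one_mul, map_mul, map_inv₀, Complex.conj_ofReal]
    change _ = _ * (A z i.2 j.2 * _)
    ring
  rw [integral_congr_ae h4, integral_const_mul]
  unfold tt
  rw [div_eq_mul_inv, mul_inv, mul_comm]

omit [Fintype ι] in
theorem toep_unique (A : C(Sp m, Matrix ι ι ℂ)) (T T' : l2 (Hx m ι) →L[ℂ] l2 (Hx m ι)) (h : IsToep A T)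
    (h' : IsToep A T') : T = T' := by
  apply clm_ext
  intro j
  apply lp.ext
  funext i
  rw [h i j, h' i j]

omit [Fintype ι] in
theorem toep_sa (A : C(Sp m, Matrix ι ι ℂ)) (hA : ∀ z, (A z).conjTranspose = A z)
    (T : l2 (Hx m ι) →L[ℂ] l2 (Hx m ι)) (h : IsToep A T) (x y : l2 (Hx m ι)) :
    inner ℂ (T x) y = inner ℂ x (T y) := by
  refine sa_of_entries T (fun i j => ?_) x y
  rw [h i j, h j i]
  refine tt_conj _ _ (fun z => ?_) _ _
  change A z i.2 j.2 = (starRingEnd ℂ) (A z j.2 i.2)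
  conv_lhs => rw [← hA z]
  rfl

omit [Fintype ι] in
theorem toep_supp (A : C(Sp m, Matrix ι ι ℂ)) (T : l2 (Hx m ι) →L[ℂ] l2 (Hx m ι)) (hT : IsToep A T)
    (P Q : Set (Hx m ι)) (h : ∀ j ∈ P, ∀ i, i ∉ Q → tt (ent A i.2 j.2) i.1 j.1 = 0) (x : l2 (Hx m ι))
    (hx : ∀ i, i ∉ P → x i = 0) : ∀ i, i ∉ Q → T x i = 0 := by
  refine supp_map T P Q (fun j hj i hi => ?_) x hx
  rw [hT i j]
  exact h j hj i hi

end Pool.Agent.Helper12.BP
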